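import Mathlib

/-!
# The scalar core of the case n = 3, m = 4, D = 3
-/

set_option autoImplicit false

namespace Pool.Agent.Lib_helper49.N3

open Complex


theorem cc_zero {x : ℂ} (h : (starRingEnd ℂ) x = 0) : x = 0 := by
  rwa [map_eq_zero] at h

theorem mul_cc_zero {x : ℂ} (h : x * (starRingEnd ℂ) x = 0) : x = 0 := by
  rcases mul_eq_zero.1 h with h | h
  · exact h
  · exact cc_zero h

/-- rank one, `ℓ = m = 0`, `β₃ = 0`. -/
theorem core_zero_half {g0 g1 : ℝ} (hg0 : 0 < g0) (hg1 : 0 < g1) {ρ0 ρ1 ρ2 β0 β1 β2 : ℂ}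
    (h : ¬ (g0 = 1 ∧ g1 = 1))
    (B00 : β0 * (starRingEnd ℂ) β0 = ρ0 * (starRingEnd ℂ) ρ0 * (1 - 1 / g0) + (1 - g0))
    (B11 : β1 * (starRingEnd ℂ) β1 = ρ0 * (starRingEnd ℂ) ρ0 * (1 - 1 / g1) + ρ1 * (starRingEnd ℂ) ρ1 * (1 - 1 / g0) + 2 * (1 - g0) +
      (1 - g1))
    (B22 : β2 * (starRingEnd ℂ) β2 = ρ1 * (starRingEnd ℂ) ρ1 * (1 - 1 / g1) + ρ2 * (starRingEnd ℂ) ρ2 * (1 - 1 / g0) + (1 - g0) +
      2 * (1 - g1))
    (B33 : 0 = ρ2 * (starRingEnd ℂ) ρ2 * (1 - 1 / g1) + (1 - g1))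
    (B01 : β0 * (starRingEnd ℂ) β1 = ρ0 * (starRingEnd ℂ) ρ1 * (1 - 1 / g0))
    (B12 : β1 * (starRingEnd ℂ) β2 = ρ0 * (starRingEnd ℂ) ρ1 * (1 - 1 / g1) + ρ1 * (starRingEnd ℂ) ρ2 * (1 - 1 / g0))
    (B23 : 0 = ρ1 * (starRingEnd ℂ) ρ2 * (1 - 1 / g1))
    (B02 : β0 * (starRingEnd ℂ) β2 = ρ0 * (starRingEnd ℂ) ρ2 * (1 - 1 / g0))
    (B13 : 0 = ρ0 * (starRingEnd ℂ) ρ2 * (1 - 1 / g1)) : False := by
  have c0 : (g0 : ℂ) ≠ 0 := by exact_mod_cast hg0.ne'
  have c1 : (g1 : ℂ) ≠ 0 := by exact_mod_cast hg1.ne'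
  set K0 : ℂ := 1 - 1 / g0 with hK0
  set K1 : ℂ := 1 - 1 / g1 with hK1
  have e0 : (1 - (g0 : ℂ)) = - g0 * K0 := by rw [hK0]; field_simp; ring
  have e1 : (1 - (g1 : ℂ)) = - g1 * K1 := by rw [hK1]; field_simp; ring
  rw [e0] at B00
  rw [e0, e1] at B11 B22
  rw [e1] at B33
  clear_value K0 K1
  by_cases h1 : g1 = 1
  · have h0 : g0 ≠ 1 := fun h0 => h ⟨h0, h1⟩
    have k1 : K1 = 0 := by rw [hK1, h1]; simp
    have k0 : K0 ≠ 0 := by
      intro h2
      rw [h2, mul_zero, sub_eq_zero] at e0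
      exact h0 (by exact_mod_cast e0.symm)
    rw [k1] at B11 B22 B12
    have h2 : ρ0 * (starRingEnd ℂ) ρ2 = 0 := by
      have : (ρ0 * (starRingEnd ℂ) ρ2) * (K0 * (2 * g0 * K0)) = 0 := by
        linear_combination (β1 * (starRingEnd ℂ) β1) * B02 + (ρ0 * (starRingEnd ℂ) ρ2 * K0) * B11 -
          (β1 * (starRingEnd ℂ) β2) * B01 - (ρ0 * (starRingEnd ℂ) ρ1 * K0) * B12
      refine (mul_eq_zero.1 this).resolve_right ?_
      simp [k0, c0]
    rcases mul_eq_zero.1 h2 with r0 | r2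
    · rw [r0] at B00 B01 B02 B11
      have b0 : β0 ≠ 0 := by
        rintro rfl
        simp [k0, c0] at B00
      have b1 : β1 = 0 := by
        simp [b0] at B01; exact B01
      have b2 : β2 = 0 := by
        simp [b0] at B02; exact B02
      have hr1 : ρ1 ≠ 0 := by
        rintro rfl
        rw [b1] at B11
        simp [k0, c0] at B11
      have hr2 : ρ2 ≠ 0 := by
        rintro rfl
        rw [b2] at B22
        have : (0:ℂ) = -g0 * K0 := by simpa using B22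
        simp [k0, c0] at this
      rw [b1, r0] at B12
      simp [k0, hr1, hr2] at B12
    · have r2 := cc_zero r2
      rw [r2] at B22 B02 B12
      have b2 : β2 ≠ 0 := by
        rintro rfl
        simp [k0, c0] at B22
      have b0 : β0 = 0 := by
        simp [b2] at B02; exact B02
      have b1 : β1 = 0 := by
        simp [b2] at B12; exact B12
      have hr1 : ρ1 ≠ 0 := by
        rintro rfl
        rw [b1] at B11
        simp [k0, c0] at B11
      have hr0 : ρ0 ≠ 0 := by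
        rintro rfl
        rw [b0] at B00
        simp [k0, c0] at B00
      rw [b0] at B01
      simp [k0, hr1, hr0] at B01
  · have k1 : K1 ≠ 0 := by
      intro h2
      rw [h2, mul_zero, sub_eq_zero] at e1
      exact h1 (by exact_mod_cast e1.symm)
    have hr : ρ2 * (starRingEnd ℂ) ρ2 = g1 := by
      have : K1 * (ρ2 * (starRingEnd ℂ) ρ2 - g1) = 0 := by linear_combination -B33
      exact sub_eq_zero.1 ((mul_eq_zero.1 this).resolve_left k1)
    have hr2 : ρ2 ≠ 0 := by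
      rintro rfl
      simp at hr
      exact c1 hr.symm
    have hr2' : (starRingEnd ℂ) ρ2 ≠ 0 := fun h => hr2 (cc_zero h)
    have hr0 : ρ0 = 0 := by
      have := B13.symm
      simp [k1, hr2] at this
      exact this
    have hr1 : ρ1 = 0 := by
      have := B23.symm
      simp [k1, hr2] at this
      exact this
    rw [hr0, hr1] at B11
    rw [hr1, hr] at B22
    rw [hr0] at B00 B01 B02
    rw [hr0, hr1] at B12
    simp only [map_zero, mul_zero, zero_mul, zero_add] at B00 B11 B22 B12 B01 B02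
    by_cases h0 : g0 = 1
    · have k0 : K0 = 0 := by rw [hK0, h0]; simp
      rw [k0] at B11 B22
      rcases mul_eq_zero.1 B12 with b | b
      · rw [b] at B11
        simp [k1, c1] at B11
      · rw [cc_zero b] at B22
        simp [k1, c1] at B22
    · have k0 : K0 ≠ 0 := by
        intro h2
        rw [h2, mul_zero, sub_eq_zero] at e0
        exact h0 (by exact_mod_cast e0.symm)
      have b0 : β0 ≠ 0 := by
        rintro rfl
        simp [k0, c0] at B00
      have b1 : β1 = 0 := by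
        simp [b0] at B01; exact B01
      have b2 : β2 = 0 := by
        simp [b0] at B02; exact B02
      rw [b1] at B11
      rw [b2] at B22
      simp only [map_zero, mul_zero] at B11 B22
      have h3 : K0 * (g1 + 3 * g0) = 0 := by linear_combination -B22 + 2 * B11
      have h4 := (mul_eq_zero.1 h3).resolve_left k0
      have h5 : g1 + 3 * g0 = 0 := by exact_mod_cast h4
      linarith

/-- rank one, `ℓ = m = 0`. -/
theorem core_zero {g0 g1 : ℝ} (hg0 : 0 < g0) (hg1 : 0 < g1) {ρ0 ρ1 ρ2 β0 β1 β2 β3 : ℂ}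
    (h : ¬ (g0 = 1 ∧ g1 = 1))
    (B00 : β0 * (starRingEnd ℂ) β0 = ρ0 * (starRingEnd ℂ) ρ0 * (1 - 1 / g0) + (1 - g0))
    (B11 : β1 * (starRingEnd ℂ) β1 = ρ0 * (starRingEnd ℂ) ρ0 * (1 - 1 / g1) + ρ1 * (starRingEnd ℂ) ρ1 * (1 - 1 / g0) + 2 * (1 - g0) +
      (1 - g1))
    (B22 : β2 * (starRingEnd ℂ) β2 = ρ1 * (starRingEnd ℂ) ρ1 * (1 - 1 / g1) + ρ2 * (starRingEnd ℂ) ρ2 * (1 - 1 / g0) + (1 - g0) +
      2 * (1 - g1))
    (B33 : β3 * (starRingEnd ℂ) β3 = ρ2 * (starRingEnd ℂ) ρ2 * (1 - 1 / g1) + (1 - g1))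
    (B01 : β0 * (starRingEnd ℂ) β1 = ρ0 * (starRingEnd ℂ) ρ1 * (1 - 1 / g0))
    (B12 : β1 * (starRingEnd ℂ) β2 = ρ0 * (starRingEnd ℂ) ρ1 * (1 - 1 / g1) + ρ1 * (starRingEnd ℂ) ρ2 * (1 - 1 / g0))
    (B23 : β2 * (starRingEnd ℂ) β3 = ρ1 * (starRingEnd ℂ) ρ2 * (1 - 1 / g1))
    (B02 : β0 * (starRingEnd ℂ) β2 = ρ0 * (starRingEnd ℂ) ρ2 * (1 - 1 / g0))
    (B13 : β1 * (starRingEnd ℂ) β3 = ρ0 * (starRingEnd ℂ) ρ2 * (1 - 1 / g1))
    (B03 : β0 * (starRingEnd ℂ) β3 = 0) : False := by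
  have conj_eq : ∀ {x y : ℂ}, x = y → (starRingEnd ℂ) x = (starRingEnd ℂ) y := fun h => by rw [h]
  rcases mul_eq_zero.1 B03 with b | b
  · -- β0 = 0: mirror
    rw [b] at B00 B01 B02
    refine core_zero_half (g0 := g1) (g1 := g0) hg1 hg0 (ρ0 := ρ2) (ρ1 := ρ1) (ρ2 := ρ0)
      (β0 := β3) (β1 := β2) (β2 := β1) (fun h' => h ⟨h'.2, h'.1⟩) B33 ?_ ?_ ?_ ?_ ?_ ?_ ?_ ?_
    · linear_combination B22
    · linear_combination B11
    · linear_combination B00
    · have := conj_eq B23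
      simp only [map_mul, map_sub, map_one, map_div₀, Complex.conj_ofReal, Complex.conj_conj]
        at this
      linear_combination this
    · have := conj_eq B12
      simp only [map_mul, map_sub, map_add, map_one, map_div₀, Complex.conj_ofReal,
        Complex.conj_conj] at this
      linear_combination this
    · have := conj_eq B01
      simp only [map_mul, map_sub, map_one, map_div₀, Complex.conj_ofReal,
        Complex.conj_conj, map_zero] at this
      linear_combination this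
    · have := conj_eq B13
      simp only [map_mul, map_sub, map_one, map_div₀, Complex.conj_ofReal,
        Complex.conj_conj] at this
      linear_combination this
    · have := conj_eq B02
      simp only [map_mul, map_sub, map_one, map_div₀, Complex.conj_ofReal,
        Complex.conj_conj, map_zero] at this
      linear_combination this
  · have b := cc_zero b
    rw [b] at B33 B23 B13
    refine core_zero_half hg0 hg1 h B00 B11 B22 ?_ B01 B12 ?_ B02 ?_
    · linear_combination B33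
    · simpa using B23
    · simpa using B13

theorem mul_cc_eq (x : ℂ) : x * (starRingEnd ℂ) x = ((normSq x : ℝ) : ℂ) := mul_conj x

/-- the case `ℓ₀ = m₀`, `ℓ₁ ≠ m₁`. -/
theorem core_half {g0 g1 : ℝ} (hg0 : 0 < g0) (hg1 : 0 < g1)
    {m0 m1 l0 l1 ρ0 ρ1 ρ2 β0 β1 β3 : ℂ}
    (h0 : l0 = m0) (h1 : l1 ≠ m1)
    (e1 : (l0 - m0) * (starRingEnd ℂ) ρ0 = g0 * (starRingEnd ℂ) l0 - (starRingEnd ℂ) m0)
    (e2 : (l0 - m0) * (starRingEnd ℂ) ρ1 = g0 * (starRingEnd ℂ) l1 - (starRingEnd ℂ) m1)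
    (e4 : (l1 - m1) * (starRingEnd ℂ) ρ0 = 0)
    (e5 : (l1 - m1) * (starRingEnd ℂ) ρ1 = g1 * (starRingEnd ℂ) l0 - (starRingEnd ℂ) m0)
    (e6 : (l1 - m1) * (starRingEnd ℂ) ρ2 = g1 * (starRingEnd ℂ) l1 - (starRingEnd ℂ) m1)
    (B00 : β0 * (starRingEnd ℂ) β0 = ρ0 * (starRingEnd ℂ) ρ0 * (1 - 1 / g0) + l0 * (starRingEnd ℂ) l0 * g0 - m0 * (starRingEnd ℂ) m0 - g0 + 1)
    (B11 : β1 * (starRingEnd ℂ) β1 = ρ0 * (starRingEnd ℂ) ρ0 * (1 - 1 / g1) + ρ1 * (starRingEnd ℂ) ρ1 * (1 - 1 / g0) +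
      l0 * (starRingEnd ℂ) l0 * (g0 + g1) + l1 * (starRingEnd ℂ) l1 * g0 - 2 * (m0 * (starRingEnd ℂ) m0) - m1 * (starRingEnd ℂ) m1 - 2 * g0 - g1 + 3)
    (B33 : β3 * (starRingEnd ℂ) β3 = ρ2 * (starRingEnd ℂ) ρ2 * (1 - 1 / g1) + l1 * (starRingEnd ℂ) l1 * g1 - m1 * (starRingEnd ℂ) m1 - g1 + 1)
    (B01 : β0 * (starRingEnd ℂ) β1 = ρ0 * (starRingEnd ℂ) ρ1 * (1 - 1 / g0) + l0 * (starRingEnd ℂ) l1 * g0 - m0 * (starRingEnd ℂ) m1)
    (B03 : β0 * (starRingEnd ℂ) β3 = 0) : False := by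
  have c1 : (g1 : ℂ) ≠ 0 := by exact_mod_cast hg1.ne'
  have hr0 : ρ0 = 0 := by
    rcases mul_eq_zero.1 e4 with h | h
    · exact absurd (sub_eq_zero.1 h) h1
    · exact cc_zero h
  subst h0
  rw [sub_self, zero_mul] at e1 e2
  have hm1 : m1 = g0 * l1 := by
    have h2 : (starRingEnd ℂ) m1 = g0 * (starRingEnd ℂ) l1 := by linear_combination e2
    have h3 := congrArg (starRingEnd ℂ) h2
    simpa only [map_mul, Complex.conj_conj, Complex.conj_ofReal] using h3
  have hg : g0 ≠ 1 := by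
    rintro rfl
    apply h1
    rw [hm1]; simp
  have hg' : (g0 : ℂ) - 1 ≠ 0 := by
    rw [sub_ne_zero]
    exact_mod_cast hg
  have hl0 : l0 = 0 := by
    have : ((g0 : ℂ) - 1) * (starRingEnd ℂ) l0 = 0 := by linear_combination -e1
    exact cc_zero ((mul_eq_zero.1 this).resolve_left hg')
  have hl1 : l1 ≠ 0 := by
    rintro rfl
    apply h1
    rw [hm1, mul_zero]
  rw [hl0, hr0] at B00 B11 B01
  have hr1 : ρ1 = 0 := by
    rw [hl0, map_zero, mul_zero, sub_zero] at e5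
    rcases mul_eq_zero.1 e5 with h | h
    · exact absurd (sub_eq_zero.1 h) h1
    · exact cc_zero h
  rw [hr1] at B11
  simp only [map_zero, mul_zero, zero_mul, add_zero, sub_zero, zero_add] at B00 B11 B01
  have b0 : β0 ≠ 0 := by
    rintro rfl
    apply hg'
    simp only [zero_mul] at B00
    linear_combination B00
  have b1 : β1 = 0 := by
    simp [b0] at B01; exact B01
  have b3 : β3 = 0 := by
    simp [b0] at B03; exact B03
  rw [b1] at B11
  rw [b3] at B33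
  simp only [zero_mul, hm1, map_mul, Complex.conj_ofReal] at B11 B33 e6
  -- real forms
  have hL : 0 < normSq l1 := normSq_pos.2 hl1
  set L := normSq l1 with hLdef
  set r := normSq ρ2 with hrdef
  have f0 : g0 < 1 := by
    have h2 : normSq β0 = 1 - g0 := by
      have h3 : ((normSq β0 : ℝ) : ℂ) = ((1 - g0 : ℝ) : ℂ) := by
        rw [← mul_cc_eq]; push_cast; linear_combination B00
      exact_mod_cast h3
    have := normSq_pos.2 b0
    linarith
  have f11 : g1 = 3 - 2 * g0 + L * g0 * (1 - g0) := by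
    have h3 : ((g1 : ℝ) : ℂ) = ((3 - 2 * g0 + L * g0 * (1 - g0) : ℝ) : ℂ) := by
      push_cast
      rw [hLdef, ← mul_cc_eq]
      linear_combination B11
    exact_mod_cast h3
  have f6 : (1 - g0) ^ 2 * r = (g1 - g0) ^ 2 := by
    have h2 := congrArg (starRingEnd ℂ) e6
    simp only [map_mul, map_sub, Complex.conj_ofReal, Complex.conj_conj] at h2
    have h3 : (((1 - g0) ^ 2 * r * L : ℝ) : ℂ) = (((g1 - g0) ^ 2 * L : ℝ) : ℂ) := by
      push_cast
      rw [hLdef, hrdef, ← mul_cc_eq, ← mul_cc_eq]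
      linear_combination ((1 - g0) * (starRingEnd ℂ) l1 * ρ2) * e6 + (g1 * (starRingEnd ℂ) l1 - g0 * (starRingEnd ℂ) l1) * h2
    have h4 : (1 - g0) ^ 2 * r * L = (g1 - g0) ^ 2 * L := by exact_mod_cast h3
    exact mul_right_cancel₀ hL.ne' h4
  have f33 : r * (g1 - 1) + L * (g1 - g0 ^ 2) * g1 - (g1 - 1) * g1 = 0 := by
    have h3 : ((r * (g1 - 1) + L * (g1 - g0 ^ 2) * g1 - (g1 - 1) * g1 : ℝ) : ℂ) = 0 := by
      push_cast
      rw [hLdef, hrdef, ← mul_cc_eq, ← mul_cc_eq]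
      have h4 : (g1 : ℂ) * (1 - 1 / g1) = g1 - 1 := by field_simp
      linear_combination (-(g1 : ℂ)) * B33 - (ρ2 * (starRingEnd ℂ) ρ2) * h4
    exact_mod_cast h3
  have hg11 : 1 < g1 := by
    have : 0 < L * g0 * (1 - g0) := by
      have : 0 < 1 - g0 := by linarith
      positivity
    linarith
  have key : (g1 - g0 ^ 2) * ((g1 - 1) ^ 2 + L * g1 * (1 - g0) ^ 2) = 0 := by
    linear_combination ((1 - g0) ^ 2) * f33 - (g1 - 1) * f6
  have p1 : 0 < g1 - g0 ^ 2 := by nlinarith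
  have p2 : 0 < (g1 - 1) ^ 2 + L * g1 * (1 - g0) ^ 2 := by
    have : 0 < g1 - 1 := by linarith
    positivity
  have := mul_pos p1 p2
  linarith

/-- the scalar core -/
theorem core {g0 g1 : ℝ} (hg0 : 0 < g0) (hg1 : 0 < g1)
    {m0 m1 l0 l1 ρ0 ρ1 ρ2 β0 β1 β2 β3 : ℂ}
    (e1 : (l0 - m0) * (starRingEnd ℂ) ρ0 = g0 * (starRingEnd ℂ) l0 - (starRingEnd ℂ) m0)
    (e2 : (l0 - m0) * (starRingEnd ℂ) ρ1 = g0 * (starRingEnd ℂ) l1 - (starRingEnd ℂ) m1)
    (e3 : (l0 - m0) * (starRingEnd ℂ) ρ2 = 0)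
    (e4 : (l1 - m1) * (starRingEnd ℂ) ρ0 = 0)
    (e5 : (l1 - m1) * (starRingEnd ℂ) ρ1 = g1 * (starRingEnd ℂ) l0 - (starRingEnd ℂ) m0)
    (e6 : (l1 - m1) * (starRingEnd ℂ) ρ2 = g1 * (starRingEnd ℂ) l1 - (starRingEnd ℂ) m1)
    (B00 : β0 * (starRingEnd ℂ) β0 = ρ0 * (starRingEnd ℂ) ρ0 * (1 - 1 / g0) + l0 * (starRingEnd ℂ) l0 * g0 - m0 * (starRingEnd ℂ) m0 - g0 + 1)
    (B11 : β1 * (starRingEnd ℂ) β1 = ρ0 * (starRingEnd ℂ) ρ0 * (1 - 1 / g1) + ρ1 * (starRingEnd ℂ) ρ1 * (1 - 1 / g0) +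
      l0 * (starRingEnd ℂ) l0 * (g0 + g1) + l1 * (starRingEnd ℂ) l1 * g0 - 2 * (m0 * (starRingEnd ℂ) m0) - m1 * (starRingEnd ℂ) m1 - 2 * g0 - g1 + 3)
    (B22 : β2 * (starRingEnd ℂ) β2 = ρ1 * (starRingEnd ℂ) ρ1 * (1 - 1 / g1) + ρ2 * (starRingEnd ℂ) ρ2 * (1 - 1 / g0) +
      l0 * (starRingEnd ℂ) l0 * g1 + l1 * (starRingEnd ℂ) l1 * (g0 + g1) - m0 * (starRingEnd ℂ) m0 - 2 * (m1 * (starRingEnd ℂ) m1) - g0 - 2 * g1 + 3)
    (B33 : β3 * (starRingEnd ℂ) β3 = ρ2 * (starRingEnd ℂ) ρ2 * (1 - 1 / g1) + l1 * (starRingEnd ℂ) l1 * g1 - m1 * (starRingEnd ℂ) m1 - g1 + 1)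
    (B01 : β0 * (starRingEnd ℂ) β1 = ρ0 * (starRingEnd ℂ) ρ1 * (1 - 1 / g0) + l0 * (starRingEnd ℂ) l1 * g0 - m0 * (starRingEnd ℂ) m1)
    (B12 : β1 * (starRingEnd ℂ) β2 = ρ0 * (starRingEnd ℂ) ρ1 * (1 - 1 / g1) + ρ1 * (starRingEnd ℂ) ρ2 * (1 - 1 / g0) +
      l0 * (starRingEnd ℂ) l1 * (g0 + g1) - 2 * (m0 * (starRingEnd ℂ) m1))
    (B23 : β2 * (starRingEnd ℂ) β3 = ρ1 * (starRingEnd ℂ) ρ2 * (1 - 1 / g1) + l0 * (starRingEnd ℂ) l1 * g1 - m0 * (starRingEnd ℂ) m1)
    (B02 : β0 * (starRingEnd ℂ) β2 = ρ0 * (starRingEnd ℂ) ρ2 * (1 - 1 / g0))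
    (B13 : β1 * (starRingEnd ℂ) β3 = ρ0 * (starRingEnd ℂ) ρ2 * (1 - 1 / g1))
    (B03 : β0 * (starRingEnd ℂ) β3 = 0)
    (hβ : ¬ (β0 = 0 ∧ β1 = 0 ∧ β2 = 0 ∧ β3 = 0)) : False := by
  by_cases h0 : l0 = m0
  · by_cases h1 : l1 = m1
    · subst h0 h1
      rw [sub_self, zero_mul] at e1 e2 e5 e6
      by_cases hg : g0 = 1 ∧ g1 = 1
      · obtain ⟨rfl, rfl⟩ := hg
        apply hβ
        simp only [Complex.ofReal_one] at B00 B11 B22 B33
        exact ⟨mul_cc_zero (by linear_combination B00), mul_cc_zero (by linear_combination B11),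
          mul_cc_zero (by linear_combination B22), mul_cc_zero (by linear_combination B33)⟩
      · have hl0 : l0 = 0 := by
          by_contra hne
          apply hg
          have hne' : (starRingEnd ℂ) l0 ≠ 0 := fun h => hne (cc_zero h)
          have a1 : ((g0 : ℂ) - 1) * (starRingEnd ℂ) l0 = 0 := by linear_combination -e1
          have a2 : ((g1 : ℂ) - 1) * (starRingEnd ℂ) l0 = 0 := by linear_combination -e5
          have a1 := sub_eq_zero.1 ((mul_eq_zero.1 a1).resolve_right hne')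
          have a2 := sub_eq_zero.1 ((mul_eq_zero.1 a2).resolve_right hne')
          exact ⟨by exact_mod_cast a1, by exact_mod_cast a2⟩
        have hl1 : l1 = 0 := by
          by_contra hne
          apply hg
          have hne' : (starRingEnd ℂ) l1 ≠ 0 := fun h => hne (cc_zero h)
          have a1 : ((g0 : ℂ) - 1) * (starRingEnd ℂ) l1 = 0 := by linear_combination -e2
          have a2 : ((g1 : ℂ) - 1) * (starRingEnd ℂ) l1 = 0 := by linear_combination -e6
          have a1 := sub_eq_zero.1 ((mul_eq_zero.1 a1).resolve_right hne')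
          have a2 := sub_eq_zero.1 ((mul_eq_zero.1 a2).resolve_right hne')
          exact ⟨by exact_mod_cast a1, by exact_mod_cast a2⟩
        subst hl0 hl1
        simp only [map_zero, mul_zero, zero_mul, add_zero, sub_zero] at B00 B11 B22 B33 B01 B12 B23
        exact core_zero hg0 hg1 hg (by linear_combination B00) (by linear_combination B11)
          (by linear_combination B22) (by linear_combination B33) B01 B12 B23 B02 B13 B03
    · exact core_half hg0 hg1 h0 h1 e1 e2 e4 e5 e6 B00 B11 B33 B01 B03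
  · by_cases h1 : l1 = m1
    · have B23' := congrArg (starRingEnd ℂ) B23
      have B03' := congrArg (starRingEnd ℂ) B03
      simp only [map_mul, map_sub, map_add, map_one, map_div₀, Complex.conj_ofReal,
        Complex.conj_conj, map_zero] at B23' B03'
      refine core_half (g0 := g1) (g1 := g0) hg1 hg0 (m0 := m1) (m1 := m0) (l0 := l1) (l1 := l0)
        (ρ0 := ρ2) (ρ1 := ρ1) (ρ2 := ρ0) (β0 := β3) (β1 := β2) (β3 := β0) h1 h0 e6 e5 e3 e2 e1
        B33 ?_ B00 ?_ ?_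
      · linear_combination B22
      · linear_combination B23'
      · linear_combination B03'
    · have hr2 : ρ2 = 0 := by
        rcases mul_eq_zero.1 e3 with h | h
        · exact absurd (sub_eq_zero.1 h) h0
        · exact cc_zero h
      have hr0 : ρ0 = 0 := by
        rcases mul_eq_zero.1 e4 with h | h
        · exact absurd (sub_eq_zero.1 h) h1
        · exact cc_zero h
      subst hr2 hr0
      simp only [map_zero, mul_zero, zero_mul, zero_add] at e1 e6 B00 B33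
      have hm0 : m0 = g0 * l0 := by
        have h2 : (starRingEnd ℂ) m0 = g0 * (starRingEnd ℂ) l0 := by linear_combination e1
        have h3 := congrArg (starRingEnd ℂ) h2
        simpa only [map_mul, Complex.conj_conj, Complex.conj_ofReal] using h3
      have hm1 : m1 = g1 * l1 := by
        have h2 : (starRingEnd ℂ) m1 = g1 * (starRingEnd ℂ) l1 := by linear_combination e6
        have h3 := congrArg (starRingEnd ℂ) h2
        simpa only [map_mul, Complex.conj_conj, Complex.conj_ofReal] using h3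
      have aux : ∀ {g : ℝ} {l m β : ℂ}, 0 < g → l ≠ m → m = g * l →
          β * (starRingEnd ℂ) β = l * (starRingEnd ℂ) l * g - m * (starRingEnd ℂ) m - g + 1 → β ≠ 0 := by
        rintro g l m β hg hlm rfl hβ rfl
        simp only [zero_mul, map_mul, Complex.conj_ofReal, mul_cc_eq] at hβ
        have h2 : (1 - (g : ℂ)) * (1 + g * normSq l) = 0 := by
          linear_combination -hβ + (g : ℂ) ^ 2 * mul_cc_eq l
        rcases mul_eq_zero.1 h2 with h | h
        · apply hlm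
          have : (g : ℂ) = 1 := by linear_combination -h
          rw [this, one_mul]
        · have h3 : (1 : ℝ) + g * normSq l = 0 := by exact_mod_cast h
          have := normSq_nonneg l
          have : 0 ≤ g * normSq l := by positivity
          linarith
      have b0 := aux hg0 h0 hm0 B00
      have b3 := aux hg1 h1 hm1 B33
      rcases mul_eq_zero.1 B03 with h | h
      · exact b0 h
      · exact b3 (cc_zero h)

end Pool.Agent.Lib_helper49.N3
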