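import Pool.Agent.Lib_helper49.N3.Core

/-!
# No cubic map with an inflection in every direction
-/

set_option autoImplicit false

namespace Pool.Agent.Lib_helper49.N3

open Complex

open scoped InnerProductSpace

variable {H : Type*} [NormedAddCommGroup H] [InnerProductSpace ℂ H]

/-- The Gram relations between the coefficient vectors of
`x³P + x²(ya+tb) + x(y²c₀+ytc₁+t²c₂) + y³d₀+y²td₁+yt²d₂+t³d₃`, where `|P| = 1`. -/
structure CubRel (P a b c0 c1 c2 d0 d1 d2 d3 : H) : Prop where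
  PP : ⟪P, P⟫_ℂ = 1
  dP0 : ⟪d0, P⟫_ℂ = 0
  dP1 : ⟪d1, P⟫_ℂ = 0
  dP2 : ⟪d2, P⟫_ℂ = 0
  dP3 : ⟪d3, P⟫_ℂ = 0
  da0 : ⟪d0, a⟫_ℂ = ⟪c0, P⟫_ℂ
  da1 : ⟪d1, a⟫_ℂ = ⟪c1, P⟫_ℂ
  da2 : ⟪d2, a⟫_ℂ = ⟪c2, P⟫_ℂ
  da3 : ⟪d3, a⟫_ℂ = 0
  db0 : ⟪d0, b⟫_ℂ = 0
  db1 : ⟪d1, b⟫_ℂ = ⟪c0, P⟫_ℂ
  db2 : ⟪d2, b⟫_ℂ = ⟪c1, P⟫_ℂ
  db3 : ⟪d3, b⟫_ℂ = ⟪c2, P⟫_ℂ
  d0c0 : ⟪d0, c0⟫_ℂ = ⟪c0, a⟫_ℂ - ⟪a, P⟫_ℂ
  d1c0 : ⟪d1, c0⟫_ℂ = ⟪c1, a⟫_ℂ - ⟪b, P⟫_ℂ
  d2c0 : ⟪d2, c0⟫_ℂ = ⟪c2, a⟫_ℂ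
  d3c0 : ⟪d3, c0⟫_ℂ = 0
  d0c1 : ⟪d0, c1⟫_ℂ = ⟪c0, b⟫_ℂ
  d1c1 : ⟪d1, c1⟫_ℂ = ⟪c1, b⟫_ℂ + ⟪c0, a⟫_ℂ - 2 * ⟪a, P⟫_ℂ
  d2c1 : ⟪d2, c1⟫_ℂ = ⟪c2, b⟫_ℂ + ⟪c1, a⟫_ℂ - 2 * ⟪b, P⟫_ℂ
  d3c1 : ⟪d3, c1⟫_ℂ = ⟪c2, a⟫_ℂ
  d0c2 : ⟪d0, c2⟫_ℂ = 0
  d1c2 : ⟪d1, c2⟫_ℂ = ⟪c0, b⟫_ℂ
  d2c2 : ⟪d2, c2⟫_ℂ = ⟪c1, b⟫_ℂ - ⟪a, P⟫_ℂ
  d3c2 : ⟪d3, c2⟫_ℂ = ⟪c2, b⟫_ℂ - ⟪b, P⟫_ℂ
  D00 : ⟪d0, d0⟫_ℂ = ⟪c0, c0⟫_ℂ - ⟪a, a⟫_ℂ + 1
  D01 : ⟪d1, d0⟫_ℂ = ⟪c1, c0⟫_ℂ - ⟪b, a⟫_ℂ
  D02 : ⟪d2, d0⟫_ℂ = ⟪c2, c0⟫_ℂ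
  D03 : ⟪d3, d0⟫_ℂ = 0
  D11 : ⟪d1, d1⟫_ℂ = ⟪c1, c1⟫_ℂ + ⟪c0, c0⟫_ℂ - (⟪b, b⟫_ℂ + 2 * ⟪a, a⟫_ℂ) + 3
  D12 : ⟪d2, d1⟫_ℂ = ⟪c2, c1⟫_ℂ + ⟪c1, c0⟫_ℂ - 2 * ⟪b, a⟫_ℂ
  D13 : ⟪d3, d1⟫_ℂ = ⟪c2, c0⟫_ℂ
  D22 : ⟪d2, d2⟫_ℂ = ⟪c2, c2⟫_ℂ + ⟪c1, c1⟫_ℂ - (2 * ⟪b, b⟫_ℂ + ⟪a, a⟫_ℂ) + 3
  D23 : ⟪d3, d2⟫_ℂ = ⟪c2, c1⟫_ℂ - ⟪b, a⟫_ℂ
  D33 : ⟪d3, d3⟫_ℂ = ⟪c2, c2⟫_ℂ - ⟪b, b⟫_ℂ + 1

theorem ip_self (x : H) : ⟪x, x⟫_ℂ = ((‖x‖ ^ 2 : ℝ) : ℂ) := by
  rw [inner_self_eq_norm_sq_to_K]; push_cast; rfl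

theorem inner_symm' {x y : H} {c : ℂ} (h : ⟪x, y⟫_ℂ = c) : ⟪y, x⟫_ℂ = (starRingEnd ℂ) c := by
  rw [← h, inner_conj_symm]

/-- Mirror symmetry `y ↔ t`. -/
theorem CubRel.swap {P a b c0 c1 c2 d0 d1 d2 d3 : H} (h : CubRel P a b c0 c1 c2 d0 d1 d2 d3) :
    CubRel P b a c2 c1 c0 d3 d2 d1 d0 where
  PP := h.PP
  dP0 := h.dP3
  dP1 := h.dP2
  dP2 := h.dP1
  dP3 := h.dP0
  da0 := h.db3
  da1 := h.db2
  da2 := h.db1
  da3 := h.db0
  db0 := h.da3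
  db1 := h.da2
  db2 := h.da1
  db3 := h.da0
  d0c0 := h.d3c2
  d1c0 := h.d2c2
  d2c0 := h.d1c2
  d3c0 := h.d0c2
  d0c1 := h.d3c1
  d1c1 := by rw [h.d2c1]; ring
  d2c1 := by rw [h.d1c1]; ring
  d3c1 := h.d0c1
  d0c2 := h.d3c0
  d1c2 := h.d2c0
  d2c2 := h.d1c0
  d3c2 := h.d0c0
  D00 := h.D33
  D01 := by
    rw [inner_symm' h.D23]
    simp only [map_sub, inner_conj_symm]
  D02 := by
    rw [inner_symm' h.D13]
    simp only [inner_conj_symm]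
  D03 := by
    rw [inner_symm' h.D03, map_zero]
  D11 := by rw [h.D22]; ring
  D12 := by
    rw [inner_symm' h.D12]
    simp only [map_sub, map_add, map_mul, inner_conj_symm, Complex.conj_ofNat]
    ring
  D13 := by
    rw [inner_symm' h.D02]
    simp only [inner_conj_symm]
  D22 := by rw [h.D11]; ring
  D23 := by
    rw [inner_symm' h.D01]
    simp only [map_sub, inner_conj_symm]
  D33 := h.D00

/-- In a four-dimensional space, a vector orthogonal to four nonzero mutually orthogonal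
vectors is zero. -/
theorem eq_zero_of_orth [FiniteDimensional ℂ H] (hH : Module.finrank ℂ H = 4)
    {e : Fin 4 → H} (he : ∀ i, e i ≠ 0) (ho : ∀ i j, i ≠ j → ⟪e i, e j⟫_ℂ = 0) {x : H}
    (hx : ∀ i, ⟪e i, x⟫_ℂ = 0) : x = 0 := by
  have hli : LinearIndependent ℂ e := linearIndependent_of_ne_zero_of_inner_eq_zero he ho
  have hsp : Submodule.span ℂ (Set.range e) = ⊤ := by
    apply hli.span_eq_top_of_card_eq_finrank'
    rw [hH, Fintype.card_fin]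
  have h1 : ∀ y ∈ Submodule.span ℂ (Set.range e), ⟪y, x⟫_ℂ = 0 := by
    intro y hy
    induction hy using Submodule.span_induction with
    | mem y hy => obtain ⟨i, rfl⟩ := hy; exact hx i
    | zero => exact inner_zero_left _
    | add y z _ _ hy hz => rw [inner_add_left, hy, hz, add_zero]
    | smul c y _ hy => rw [inner_smul_left, hy, mul_zero]
  have h2 := h1 x (by rw [hsp]; trivial)
  exact inner_self_eq_zero.1 h2

/-- In a four-dimensional space there is a unit vector orthogonal to three vectors. -/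
theorem exists_unit_orth [FiniteDimensional ℂ H] (hH : Module.finrank ℂ H = 4) (x y z : H) :
    ∃ ν : H, ⟪ν, ν⟫_ℂ = 1 ∧ ⟪x, ν⟫_ℂ = 0 ∧ ⟪y, ν⟫_ℂ = 0 ∧ ⟪z, ν⟫_ℂ = 0 := by
  let S := Submodule.span ℂ (Set.range ![x, y, z])
  have hS : Module.finrank ℂ S ≤ 3 := by
    refine (finrank_range_le_card (R := ℂ) ![x, y, z]).trans ?_
    simp
  have hS2 : Sᗮ ≠ ⊥ := by
    intro h
    have h1 := Submodule.finrank_add_finrank_orthogonal S
    rw [h, finrank_bot, hH] at h1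
    omega
  obtain ⟨w, hw, hw0⟩ := Submodule.exists_mem_ne_zero_of_ne_bot hS2
  have hn : (‖w‖ : ℂ) ≠ 0 := by
    exact_mod_cast norm_ne_zero_iff.2 hw0
  have hmem : ∀ i, ⟪![x, y, z] i, w⟫_ℂ = 0 := fun i =>
    hw _ (Submodule.subset_span ⟨i, rfl⟩)
  refine ⟨(‖w‖ : ℂ)⁻¹ • w, ?_, ?_, ?_, ?_⟩
  · rw [inner_smul_left, inner_smul_right, inner_self_eq_norm_sq_to_K]
    rw [map_inv₀, Complex.conj_ofReal]
    field_simp
    rfl
  · rw [inner_smul_right, show ⟪x, w⟫_ℂ = 0 from hmem 0, mul_zero]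
  · rw [inner_smul_right, show ⟪y, w⟫_ℂ = 0 from hmem 1, mul_zero]
  · rw [inner_smul_right, show ⟪z, w⟫_ℂ = 0 from hmem 2, mul_zero]

theorem cub_A1 [FiniteDimensional ℂ H] (hH : Module.finrank ℂ H = 4)
    {P a b c0 c1 c2 d0 d1 d2 d3 : H} (h : CubRel P a b c0 c1 c2 d0 d1 d2 d3)
    {Qa Qb : H} {m0 m1 l0 l1 ρ0 ρ1 ρ2 : ℂ} (ha : a = m0 • P + Qa) (hb : b = m1 • P + Qb)
    (hPa : ⟪P, Qa⟫_ℂ = 0) (hPb : ⟪P, Qb⟫_ℂ = 0) (hab : ⟪Qa, Qb⟫_ℂ = 0) (hQa : Qa ≠ 0) (hQb : Qb ≠ 0)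
    (hc0 : c0 = ρ0 • P + l0 • Qa) (hc1 : c1 = ρ1 • P + l0 • Qb + l1 • Qa)
    (hc2 : c2 = ρ2 • P + l1 • Qb)
    (hspan : ∀ ν : H, ⟪P, ν⟫_ℂ = 0 → ⟪Qa, ν⟫_ℂ = 0 → ⟪Qb, ν⟫_ℂ = 0 → ⟪d0, ν⟫_ℂ = 0 → ⟪d1, ν⟫_ℂ = 0 →
      ⟪d2, ν⟫_ℂ = 0 → ⟪d3, ν⟫_ℂ = 0 → ν = 0) : False := by
  obtain ⟨ν, hν, hPν, hQaν, hQbν⟩ := exists_unit_orth hH P Qa Qb
  have hPa' : ⟪Qa, P⟫_ℂ = 0 := by rw [inner_symm' hPa, map_zero]
  have hPb' : ⟪Qb, P⟫_ℂ = 0 := by rw [inner_symm' hPb, map_zero]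
  have hab' : ⟪Qb, Qa⟫_ℂ = 0 := by rw [inner_symm' hab, map_zero]
  have hνP : ⟪ν, P⟫_ℂ = 0 := by rw [inner_symm' hPν, map_zero]
  have hνa : ⟪ν, Qa⟫_ℂ = 0 := by rw [inner_symm' hQaν, map_zero]
  have hνb : ⟪ν, Qb⟫_ℂ = 0 := by rw [inner_symm' hQbν, map_zero]
  obtain ⟨g0, hg0, hG0⟩ : ∃ g0 : ℝ, 0 < g0 ∧ ⟪Qa, Qa⟫_ℂ = (g0 : ℂ) := by
    refine ⟨‖Qa‖ ^ 2, by have := norm_pos_iff.2 hQa; positivity, ?_⟩
    rw [inner_self_eq_norm_sq_to_K]; push_cast; rfl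
  obtain ⟨g1, hg1, hG1⟩ : ∃ g1 : ℝ, 0 < g1 ∧ ⟪Qb, Qb⟫_ℂ = (g1 : ℂ) := by
    refine ⟨‖Qb‖ ^ 2, by have := norm_pos_iff.2 hQb; positivity, ?_⟩
    rw [inner_self_eq_norm_sq_to_K]; push_cast; rfl
  have c0' : (g0 : ℂ) ≠ 0 := by exact_mod_cast hg0.ne'
  have c1' : (g1 : ℂ) ≠ 0 := by exact_mod_cast hg1.ne'
  have hPP := h.PP
  have hP0 : P ≠ 0 := by
    rintro rfl
    rw [inner_zero_left] at hPP
    exact zero_ne_one hPP
  have hν0 : ν ≠ 0 := by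
    rintro rfl
    rw [inner_zero_left] at hν
    exact zero_ne_one hν
  -- decomposition of a vector orthogonal to P
  have dec : ∀ x : H, ⟪P, x⟫_ℂ = 0 →
      x = (⟪Qa, x⟫_ℂ / g0) • Qa + (⟪Qb, x⟫_ℂ / g1) • Qb + ⟪ν, x⟫_ℂ • ν := by
    intro x hx
    rw [← sub_eq_zero]
    refine eq_zero_of_orth hH (e := ![P, Qa, Qb, ν]) ?_ ?_ ?_
    · intro i; fin_cases i
      · exact hP0
      · exact hQa
      · exact hQb
      · exact hν0
    · intro i j hij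
      fin_cases i <;> fin_cases j <;> first | exact absurd rfl hij | assumption
    · intro i
      fin_cases i
      · change ⟪P, _⟫_ℂ = 0
        simp only [inner_sub_right, inner_add_right, inner_smul_right, hx, hPa, hPb, hPν]
        ring
      · change ⟪Qa, _⟫_ℂ = 0
        simp only [inner_sub_right, inner_add_right, inner_smul_right, hG0, hab, hQaν]
        field_simp
        ring
      · change ⟪Qb, _⟫_ℂ = 0
        simp only [inner_sub_right, inner_add_right, inner_smul_right, hG1, hab', hQbν]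
        field_simp
        ring
      · change ⟪ν, _⟫_ℂ = 0
        simp only [inner_sub_right, inner_add_right, inner_smul_right, hν, hνa, hνb]
        ring
  have hda : ∀ d : H, ⟪d, P⟫_ℂ = 0 → ⟪d, Qa⟫_ℂ = ⟪d, a⟫_ℂ := by
    intro d hd
    rw [ha, inner_add_right, inner_smul_right, hd, mul_zero, zero_add]
  have hdb : ∀ d : H, ⟪d, P⟫_ℂ = 0 → ⟪d, Qb⟫_ℂ = ⟪d, b⟫_ℂ := by
    intro d hd
    rw [hb, inner_add_right, inner_smul_right, hd, mul_zero, zero_add]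
  have hc0P : ⟪c0, P⟫_ℂ = (starRingEnd ℂ) ρ0 := by
    rw [hc0]
    simp only [inner_add_left, inner_smul_left, hPP, hPa']
    ring
  have hc1P : ⟪c1, P⟫_ℂ = (starRingEnd ℂ) ρ1 := by
    rw [hc1]
    simp only [inner_add_left, inner_smul_left, hPP, hPa', hPb']
    ring
  have hc2P : ⟪c2, P⟫_ℂ = (starRingEnd ℂ) ρ2 := by
    rw [hc2]
    simp only [inner_add_left, inner_smul_left, hPP, hPb']
    ring
  have flip : ∀ {x y : H} {z : ℂ}, ⟪x, y⟫_ℂ = (starRingEnd ℂ) z → ⟪y, x⟫_ℂ = z := by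
    intro x y z hz
    rw [inner_symm' hz, Complex.conj_conj]
  have E0 := dec d0 (by rw [inner_symm' h.dP0, map_zero])
  have E1 := dec d1 (by rw [inner_symm' h.dP1, map_zero])
  have E2 := dec d2 (by rw [inner_symm' h.dP2, map_zero])
  have E3 := dec d3 (by rw [inner_symm' h.dP3, map_zero])
  rw [flip (by rw [hda _ h.dP0, h.da0, hc0P]), inner_symm' (by rw [hdb _ h.dP0, h.db0]),
    map_zero, zero_div, zero_smul, add_zero] at E0
  rw [flip (by rw [hda _ h.dP1, h.da1, hc1P]), flip (by rw [hdb _ h.dP1, h.db1, hc0P])] at E1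
  rw [flip (by rw [hda _ h.dP2, h.da2, hc2P]), flip (by rw [hdb _ h.dP2, h.db2, hc1P])] at E2
  rw [inner_symm' (by rw [hda _ h.dP3, h.da3]), flip (by rw [hdb _ h.dP3, h.db3, hc2P]),
    map_zero, zero_div, zero_smul, zero_add] at E3
  obtain ⟨β0, hβ0⟩ : ∃ β, β = ⟪ν, d0⟫_ℂ := ⟨_, rfl⟩
  obtain ⟨β1, hβ1⟩ : ∃ β, β = ⟪ν, d1⟫_ℂ := ⟨_, rfl⟩
  obtain ⟨β2, hβ2⟩ : ∃ β, β = ⟪ν, d2⟫_ℂ := ⟨_, rfl⟩
  obtain ⟨β3, hβ3⟩ : ∃ β, β = ⟪ν, d3⟫_ℂ := ⟨_, rfl⟩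
  rw [← hβ0] at E0
  rw [← hβ1] at E1
  rw [← hβ2] at E2
  rw [← hβ3] at E3
  have i1 := h.d0c0
  have i2 := h.d1c0
  have i3 := h.d2c0
  have i4 := h.d1c2
  have i5 := h.d2c2
  have i6 := h.d3c2
  have j00 := h.D00
  have j01 := h.D01
  have j02 := h.D02
  have j03 := h.D03
  have j11 := h.D11
  have j12 := h.D12
  have j13 := h.D13
  have j22 := h.D22
  have j23 := h.D23
  have j33 := h.D33
  clear h dec
  rw [E0, hc0, ha] at i1
  rw [E1, hc1, hc0, ha, hb] at i2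
  rw [E2, hc2, hc0, ha] at i3
  rw [E1, hc2, hc0, hb] at i4
  rw [E2, hc2, hc1, hb, ha] at i5
  rw [E3, hc2, hb] at i6
  rw [E0, hc0, ha] at j00
  rw [E1, E0, hc1, hc0, hb, ha] at j01
  rw [E2, E0, hc2, hc0] at j02
  rw [E3, E0] at j03
  rw [E1, hc1, hc0, hb, ha] at j11
  rw [E2, E1, hc2, hc1, hc0, hb, ha] at j12
  rw [E3, E1, hc2, hc0] at j13
  rw [E2, hc2, hc1, hb, ha] at j22
  rw [E3, E2, hc2, hc1, hb, ha] at j23
  rw [E3, hc2, hb] at j33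
  simp only [inner_add_left, inner_add_right, inner_smul_left, inner_smul_right, hPP, hPa, hPb,
    hab, hPa', hPb', hab', hν, hQaν, hQbν, hνP, hνa, hνb, hG0, hG1, map_div₀,
    Complex.conj_ofReal, mul_zero, add_zero, zero_add, mul_one, div_mul_cancel₀ _ c0',
    div_mul_cancel₀ _ c1'] at i1 i2 i3 i4 i5 i6 j00 j01 j02 j03 j11 j12 j13 j22 j23 j33
  refine core hg0 hg1 (m0 := m0) (m1 := m1) (l0 := l0) (l1 := l1) (ρ0 := ρ0) (ρ1 := ρ1)
    (ρ2 := ρ2) (β0 := β0) (β1 := β1) (β2 := β2) (β3 := β3)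
    (by linear_combination i1) (by linear_combination i2) (by linear_combination i3)
    (by linear_combination i4) (by linear_combination i5) (by linear_combination i6)
    (by linear_combination j00) (by linear_combination j11) (by linear_combination j22)
    (by linear_combination j33) (by linear_combination j01) (by linear_combination j12)
    (by linear_combination j23) (by linear_combination j02) (by linear_combination j13) j03 ?_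
  rintro ⟨b0, b1, b2, b3⟩
  refine hν0 (hspan ν hPν hQaν hQbν ?_ ?_ ?_ ?_)
  · rw [inner_symm' (hβ0.symm.trans b0), map_zero]
  · rw [inner_symm' (hβ1.symm.trans b1), map_zero]
  · rw [inner_symm' (hβ2.symm.trans b2), map_zero]
  · rw [inner_symm' (hβ3.symm.trans b3), map_zero]

theorem cub_A2 [FiniteDimensional ℂ H] (hH : Module.finrank ℂ H = 4)
    {P a b c0 c1 c2 d0 d1 d2 d3 : H} (h : CubRel P a b c0 c1 c2 d0 d1 d2 d3)
    {Qb : H} {m0 m1 n0 n1 n2 ρ0 ρ1 ρ2 : ℂ} (ha : a = m0 • P) (hb : b = m1 • P + Qb)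
    (hPb : ⟪P, Qb⟫_ℂ = 0) (hQb : Qb ≠ 0)
    (hc0 : c0 = ρ0 • P + n0 • Qb) (hc1 : c1 = ρ1 • P + n1 • Qb)
    (hc2 : c2 = ρ2 • P + n2 • Qb) : False := by
  have hPP := h.PP
  have hPb' : ⟪Qb, P⟫_ℂ = 0 := by rw [inner_symm' hPb, map_zero]
  have da : ∀ d : H, ⟪d, P⟫_ℂ = 0 → ⟪d, a⟫_ℂ = 0 := by
    intro d hd
    rw [ha, inner_smul_right, hd, mul_zero]
  have c0P : ⟪c0, P⟫_ℂ = 0 := by rw [← h.da0, da _ h.dP0]
  have c1P : ⟪c1, P⟫_ℂ = 0 := by rw [← h.da1, da _ h.dP1]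
  have c2P : ⟪c2, P⟫_ℂ = 0 := by rw [← h.da2, da _ h.dP2]
  have aux : ∀ {c : H} {ρ n : ℂ}, c = ρ • P + n • Qb → ⟪c, P⟫_ℂ = 0 → c = n • Qb := by
    intro c ρ n hc hcP
    rw [hc, inner_add_left, inner_smul_left, inner_smul_left, hPP, hPb', mul_one, mul_zero,
      add_zero] at hcP
    rw [hc, cc_zero hcP, zero_smul, zero_add]
  replace hc0 := aux hc0 c0P
  replace hc1 := aux hc1 c1P
  replace hc2 := aux hc2 c2P
  have dQ : ∀ d : H, ⟪d, P⟫_ℂ = 0 → ⟪d, b⟫_ℂ = 0 → ⟪d, Qb⟫_ℂ = 0 := by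
    intro d hd hdb
    rw [hb, inner_add_right, inner_smul_right, hd, mul_zero, zero_add] at hdb
    exact hdb
  have dQ0 := dQ _ h.dP0 h.db0
  have dQ1 := dQ _ h.dP1 (by rw [h.db1, c0P])
  have dQ2 := dQ _ h.dP2 (by rw [h.db2, c1P])
  have dQ3 := dQ _ h.dP3 (by rw [h.db3, c2P])
  have hm0 : m0 = 0 := by
    have := h.d0c0
    rw [hc0, inner_smul_right, dQ0, ← hc0, ha, inner_smul_right, c0P, inner_smul_left, hPP] at this
    apply cc_zero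
    linear_combination this
  have hm1 : m1 = 0 := by
    have := h.d1c0
    rw [hc0, inner_smul_right, dQ1, ha, inner_smul_right, c1P, hb, inner_add_left,
      inner_smul_left, hPP, hPb'] at this
    apply cc_zero
    linear_combination this
  rw [hm0, zero_smul] at ha
  rw [hm1, zero_smul, zero_add] at hb
  have hQQ : ⟪Qb, Qb⟫_ℂ ≠ 0 := by
    rwa [Ne, inner_self_eq_zero]
  have hn0 : n0 = 0 := by
    have := h.d1c2
    rw [hc2, inner_smul_right, dQ1, hc0, hb, inner_smul_left] at this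
    apply cc_zero
    refine (mul_eq_zero.1 (?_ : (starRingEnd ℂ) n0 * ⟪Qb, Qb⟫_ℂ = 0)).resolve_right hQQ
    linear_combination -this
  have hn1 : n1 = 0 := by
    have := h.d2c2
    rw [hc2, inner_smul_right, dQ2, hc1, hb, inner_smul_left, ha, inner_zero_left] at this
    apply cc_zero
    refine (mul_eq_zero.1 (?_ : (starRingEnd ℂ) n1 * ⟪Qb, Qb⟫_ℂ = 0)).resolve_right hQQ
    linear_combination -this
  have hn2 : n2 = 0 := by
    have := h.d3c2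
    rw [hc2, inner_smul_right, dQ3, hb, inner_smul_left, hPb'] at this
    apply cc_zero
    refine (mul_eq_zero.1 (?_ : (starRingEnd ℂ) n2 * ⟪Qb, Qb⟫_ℂ = 0)).resolve_right hQQ
    linear_combination -this
  rw [hn0, zero_smul] at hc0
  rw [hn1, zero_smul] at hc1
  rw [hn2, zero_smul] at hc2
  subst ha hb hc0 hc1 hc2
  have D00 := h.D00
  have D11 := h.D11
  have D22 := h.D22
  have D33 := h.D33
  have D01 := h.D01
  have D02 := h.D02
  have D12 := h.D12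
  simp only [inner_zero_right] at D00 D11 D22 D33 D01 D02 D12
  obtain ⟨g, hg⟩ : ∃ g : ℝ, ⟪b, b⟫_ℂ = (g : ℂ) :=
    ⟨‖b‖ ^ 2, by rw [inner_self_eq_norm_sq_to_K]; push_cast; rfl⟩
  have key : ∀ {d : H} {r : ℝ}, ⟪d, d⟫_ℂ = (r : ℂ) → 0 ≤ r ∧ (r ≠ 0 → d ≠ 0) := by
    intro d r hr
    have h1 : ((‖d‖ ^ 2 : ℝ) : ℂ) = r := by
      rw [← hr, inner_self_eq_norm_sq_to_K]; push_cast; rfl
    have h2 : ‖d‖ ^ 2 = r := by exact_mod_cast h1
    refine ⟨h2 ▸ by positivity, ?_⟩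
    rintro hr0 rfl
    apply hr0
    rw [← h2]
    simp
  have k3 := (key (d := d3) (r := 1 - g) (by rw [D33, hg]; push_cast; ring)).1
  have k0 := (key (d := d0) (r := 1) (by rw [D00]; push_cast; ring)).2 one_ne_zero
  have k1 := (key (d := d1) (r := 3 - g) (by rw [D11, hg]; push_cast; ring)).2 (by linarith)
  have k2 := (key (d := d2) (r := 3 - 2 * g) (by rw [D22, hg]; push_cast; ring)).2 (by linarith)
  have hP0 : P ≠ 0 := by
    rintro rfl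
    rw [inner_zero_left] at hPP
    exact zero_ne_one hPP
  have D01' : ⟪d1, d0⟫_ℂ = 0 := by rw [D01]; ring
  have D02' : ⟪d2, d0⟫_ℂ = 0 := D02
  have D12' : ⟪d2, d1⟫_ℂ = 0 := by rw [D12]; ring
  apply k2
  refine eq_zero_of_orth hH (e := ![P, b, d0, d1]) ?_ ?_ ?_
  · intro i; fin_cases i
    · exact hP0
    · exact hQb
    · exact k0
    · exact k1
  · have s : ∀ {x y : H}, ⟪x, y⟫_ℂ = 0 → ⟪y, x⟫_ℂ = 0 := fun h => by rw [inner_symm' h, map_zero]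
    intro i j hij
    fin_cases i <;> fin_cases j <;>
      first
      | exact absurd rfl hij
      | exact hPb
      | exact hPb'
      | exact h.dP0
      | exact h.dP1
      | exact s h.dP0
      | exact s h.dP1
      | exact dQ0
      | exact dQ1
      | exact s dQ0
      | exact s dQ1
      | exact D01'
      | exact s D01'
  · have s : ∀ {x y : H}, ⟪x, y⟫_ℂ = 0 → ⟪y, x⟫_ℂ = 0 := fun h => by rw [inner_symm' h, map_zero]
    intro i; fin_cases i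
    · exact s h.dP2
    · exact s dQ2
    · exact s D02'
    · exact s D12'

/-- vectors with a biorthogonal system are linearly independent -/
theorem li_of_dual {n : ℕ} {e f : Fin n → H} (h0 : ∀ i, ⟪f i, e i⟫_ℂ ≠ 0)
    (h1 : ∀ i j, i ≠ j → ⟪f i, e j⟫_ℂ = 0) : LinearIndependent ℂ e := by
  rw [Fintype.linearIndependent_iff]
  intro g hg i
  have h2 := congrArg (fun x => ⟪f i, x⟫_ℂ) hg
  simp only [inner_zero_right, inner_sum, inner_smul_right] at h2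
  rw [Finset.sum_eq_single i (fun j _ hj => by rw [h1 i j hj.symm, mul_zero])
    (fun h => absurd (Finset.mem_univ _) h)] at h2
  exact (mul_eq_zero.1 h2).resolve_right (h0 i)

theorem eq_zero_of_li [FiniteDimensional ℂ H] (hH : Module.finrank ℂ H = 4)
    {e : Fin 4 → H} (hli : LinearIndependent ℂ e) {x : H}
    (hx : ∀ i, ⟪e i, x⟫_ℂ = 0) : x = 0 := by
  have hsp : Submodule.span ℂ (Set.range e) = ⊤ := by
    apply hli.span_eq_top_of_card_eq_finrank'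
    rw [hH, Fintype.card_fin]
  have h1 : ∀ y ∈ Submodule.span ℂ (Set.range e), ⟪y, x⟫_ℂ = 0 := by
    intro y hy
    induction hy using Submodule.span_induction with
    | mem y hy => obtain ⟨i, rfl⟩ := hy; exact hx i
    | zero => exact inner_zero_left _
    | add y z _ _ hy hz => rw [inner_add_left, hy, hz, add_zero]
    | smul c y _ hy => rw [inner_smul_left, hy, mul_zero]
  have h2 := h1 x (by rw [hsp]; trivial)
  exact inner_self_eq_zero.1 h2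

theorem cub_A3 [FiniteDimensional ℂ H] (hH : Module.finrank ℂ H = 4)
    {P a b c0 c1 c2 d0 d1 d2 d3 : H} (h : CubRel P a b c0 c1 c2 d0 d1 d2 d3)
    {m1 : ℂ} (ha : a = 0) (hb : b = m1 • P) : False := by
  have hPP := h.PP
  have s : ∀ {x y : H}, ⟪x, y⟫_ℂ = 0 → ⟪y, x⟫_ℂ = 0 := fun h => by rw [inner_symm' h, map_zero]
  subst ha
  have c0P : ⟪c0, P⟫_ℂ = 0 := by rw [← h.da0, inner_zero_right]
  have c1P : ⟪c1, P⟫_ℂ = 0 := by rw [← h.da1, inner_zero_right]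
  have c2P : ⟪c2, P⟫_ℂ = 0 := by rw [← h.da2, inner_zero_right]
  have c0b : ⟪c0, b⟫_ℂ = 0 := by rw [hb, inner_smul_right, c0P, mul_zero]
  have c1b : ⟪c1, b⟫_ℂ = 0 := by rw [hb, inner_smul_right, c1P, mul_zero]
  have c2b : ⟪c2, b⟫_ℂ = 0 := by rw [hb, inner_smul_right, c2P, mul_zero]
  have bP : ⟪b, P⟫_ℂ = (starRingEnd ℂ) m1 := by rw [hb, inner_smul_left, hPP, mul_one]
  have D00 := h.D00
  have D11 := h.D11
  have D22 := h.D22
  have D33 := h.D33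
  have D01 := h.D01
  have D02 := h.D02
  have D12 := h.D12
  have D13 := h.D13
  have D23 := h.D23
  have D03 := h.D03
  have d00 := h.d0c0
  have d10 := h.d1c0
  have d20 := h.d2c0
  have d30 := h.d3c0
  have d01 := h.d0c1
  have d11 := h.d1c1
  have d21 := h.d2c1
  have d31 := h.d3c1
  have d02 := h.d0c2
  have d12 := h.d1c2
  have d22 := h.d2c2
  have d32 := h.d3c2
  have e0 := h.dP0
  have e1 := h.dP1
  have e2 := h.dP2
  have e3 := h.dP3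
  simp only [inner_zero_right, sub_zero, mul_zero] at D00 D11 D22 D33 D01 D02 D12 D13 D23 D03
  simp only [inner_zero_left, inner_zero_right, c0b, c1b, c2b, bP, sub_zero, zero_sub, add_zero,
    mul_zero] at d00 d10 d20 d30 d01 d11 d21 d31 d02 d12 d22 d32
  clear h
  by_cases hm : m1 = 0
  · -- five linearly independent vectors
    rw [hm, zero_smul] at hb
    subst hb
    simp only [inner_zero_right, sub_zero, mul_zero] at D00 D11 D22 D33 D01 D02 D12 D13 D23 D03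
    have hli : LinearIndependent ℂ ![P, d0, d1, d2, d3] := by
      rw [Fintype.linearIndependent_iff]
      intro g hg
      rw [Fin.sum_univ_five] at hg
      change g 0 • P + g 1 • d0 + g 2 • d1 + g 3 • d2 + g 4 • d3 = 0 at hg
      have hg0 : g 0 = 0 := by
        have := congrArg (fun x => ⟪P, x⟫_ℂ) hg
        simp only [inner_add_right, inner_smul_right, hPP, s e0, s e1, s e2, s e3,
          inner_zero_right] at this
        linear_combination this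
      rw [hg0, zero_smul, zero_add] at hg
      have h2 := congrArg (fun x => ⟪x, x⟫_ℂ) hg
      simp only [inner_add_left, inner_add_right, inner_smul_left, inner_smul_right, D00, D11,
        D22, D33, D01, D02, D12, D13, D23, D03, inner_symm' D01, inner_symm' D02,
        inner_symm' D12, inner_symm' D13, inner_symm' D23, inner_symm' D03, inner_zero_right,
        map_add, map_zero, inner_conj_symm] at h2
      have h3 : ⟪g 1 • c0 + g 2 • c1 + g 3 • c2, g 1 • c0 + g 2 • c1 + g 3 • c2⟫_ℂ +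
          ⟪g 2 • c0 + g 3 • c1 + g 4 • c2, g 2 • c0 + g 3 • c1 + g 4 • c2⟫_ℂ +
          g 1 * (starRingEnd ℂ) (g 1) + 3 * (g 2 * (starRingEnd ℂ) (g 2)) + 3 * (g 3 * (starRingEnd ℂ) (g 3)) + g 4 * (starRingEnd ℂ) (g 4) = 0 := by
        simp only [inner_add_left, inner_add_right, inner_smul_left, inner_smul_right]
        linear_combination h2
      rw [ip_self, ip_self, mul_conj, mul_conj, mul_conj, mul_conj] at h3
      have h4 : ‖g 1 • c0 + g 2 • c1 + g 3 • c2‖ ^ 2 + ‖g 2 • c0 + g 3 • c1 + g 4 • c2‖ ^ 2 +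
          normSq (g 1) + 3 * normSq (g 2) + 3 * normSq (g 3) + normSq (g 4) = 0 := by
        exact_mod_cast h3
      have p1 := normSq_nonneg (g 1)
      have p2 := normSq_nonneg (g 2)
      have p3 := normSq_nonneg (g 3)
      have p4 := normSq_nonneg (g 4)
      have p5 : 0 ≤ ‖g 1 • c0 + g 2 • c1 + g 3 • c2‖ ^ 2 := by positivity
      have p6 : 0 ≤ ‖g 2 • c0 + g 3 • c1 + g 4 • c2‖ ^ 2 := by positivity
      have q1 : g 1 = 0 := normSq_eq_zero.1 (by linarith)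
      have q2 : g 2 = 0 := normSq_eq_zero.1 (by linarith)
      have q3 : g 3 = 0 := normSq_eq_zero.1 (by linarith)
      have q4 : g 4 = 0 := normSq_eq_zero.1 (by linarith)
      intro i
      fin_cases i
      · exact hg0
      · exact q1
      · exact q2
      · exact q3
      · exact q4
    have := hli.fintype_card_le_finrank
    rw [hH] at this
    simp at this
  · have hm' : -((starRingEnd ℂ) m1) ≠ 0 := by
      rw [neg_ne_zero]
      exact fun h => hm (cc_zero h)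
    have hli : LinearIndependent ℂ ![P, c0, c1, c2] := by
      refine li_of_dual (f := ![P, d1, d2, d3]) ?_ ?_
      · intro i; fin_cases i
        · change ⟪P, P⟫_ℂ ≠ 0
          rw [hPP]; exact one_ne_zero
        · change ⟪d1, c0⟫_ℂ ≠ 0
          rw [d10]; exact hm'
        · change ⟪d2, c1⟫_ℂ ≠ 0
          rw [d21]
          intro h
          exact hm' (by linear_combination h / 2)
        · change ⟪d3, c2⟫_ℂ ≠ 0
          rw [d32]; exact hm'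
      · intro i j hij
        fin_cases i <;> fin_cases j <;>
          first
          | exact absurd rfl hij
          | exact s c0P
          | exact s c1P
          | exact s c2P
          | assumption
    have hd0 : d0 = 0 := by
      refine eq_zero_of_li hH hli ?_
      intro i; fin_cases i
      · exact s e0
      · exact s d00
      · exact s d01
      · exact s d02
    rw [hd0, inner_zero_left] at D00
    rw [ip_self] at D00
    have : (0 : ℝ) = ‖c0‖ ^ 2 + 1 := by exact_mod_cast D00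
    have h2 : 0 ≤ ‖c0‖ ^ 2 := by positivity
    linarith

/-- The three vectors are linearly dependent. -/
def Dep3 (x y z : H) : Prop :=
  ∃ κ0 κ1 κ2 : ℂ, ¬ (κ0 = 0 ∧ κ1 = 0 ∧ κ2 = 0) ∧ κ0 • x + κ1 • y + κ2 • z = 0

/-- inflection condition in one direction -/
theorem dep3_solve {P Q v z : H} {m : ℂ} (hPP : ⟪P, P⟫_ℂ = 1) (hPQ : ⟪P, Q⟫_ℂ = 0) (hQ : Q ≠ 0)
    (hv : v = m • P + Q) (h : Dep3 P v z) : ∃ ρ l : ℂ, z = ρ • P + l • Q := by
  obtain ⟨κ0, κ1, κ2, hκ, h⟩ := h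
  have hk2 : κ2 ≠ 0 := by
    intro h2
    apply hκ
    rw [h2, zero_smul, add_zero, hv] at h
    have hQQ : ⟪Q, Q⟫_ℂ ≠ 0 := by rwa [Ne, inner_self_eq_zero]
    have h3 := congrArg (fun x => ⟪Q, x⟫_ℂ) h
    have hQP : ⟪Q, P⟫_ℂ = 0 := by rw [inner_symm' hPQ, map_zero]
    simp only [inner_add_right, inner_smul_right, hQP, inner_zero_right, mul_zero, zero_add,
      mul_eq_zero, hQQ, or_false] at h3
    rw [h3, zero_smul, add_zero] at h
    have h4 := congrArg (fun x => ⟪P, x⟫_ℂ) h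
    simp only [inner_smul_right, hPP, inner_zero_right, mul_one] at h4
    exact ⟨h4, h3, h2⟩
  refine ⟨-(κ0 + κ1 * m) / κ2, -κ1 / κ2, ?_⟩
  have h5 : κ2 • z = -((κ0 + κ1 * m) • P) - κ1 • Q := by
    rw [hv] at h
    have : κ2 • z = -(κ0 • P) - κ1 • (m • P + Q) := by
      rw [eq_sub_iff_add_eq, eq_neg_iff_add_eq_zero, ← h]; abel
    rw [this, smul_add, smul_smul, add_smul]
    abel
  have h6 : z = κ2⁻¹ • (κ2 • z) := by rw [smul_smul, inv_mul_cancel₀ hk2, one_smul]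
  rw [h6, h5]
  module

theorem no_cubic [FiniteDimensional ℂ H] (hH : Module.finrank ℂ H = 4)
    {P a b c0 c1 c2 d0 d1 d2 d3 : H} (h : CubRel P a b c0 c1 c2 d0 d1 d2 d3)
    (hflex : ∀ y t : ℂ, Dep3 P (y • a + t • b) ((y ^ 2) • c0 + (y * t) • c1 + (t ^ 2) • c2))
    (hspan : ∀ ν : H, ⟪P, ν⟫_ℂ = 0 → ⟪a, ν⟫_ℂ = 0 → ⟪b, ν⟫_ℂ = 0 → ⟪c0, ν⟫_ℂ = 0 → ⟪c1, ν⟫_ℂ = 0 →
      ⟪c2, ν⟫_ℂ = 0 → ⟪d0, ν⟫_ℂ = 0 → ⟪d1, ν⟫_ℂ = 0 → ⟪d2, ν⟫_ℂ = 0 → ⟪d3, ν⟫_ℂ = 0 → ν = 0)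
    {Qa Qb : H} {m0 m1 : ℂ} (ha : a = m0 • P + Qa) (hb : b = m1 • P + Qb)
    (hPa : ⟪P, Qa⟫_ℂ = 0) (hPb : ⟪P, Qb⟫_ℂ = 0) (hab : ⟪Qa, Qb⟫_ℂ = 0)
    (hfr : Qa = 0 → Qb = 0 → m0 = 0) : False := by
  have hPP := h.PP
  have comb : ∀ y t : ℂ, y • a + t • b = (y * m0 + t * m1) • P + (y • Qa + t • Qb) := by
    intro y t
    rw [ha, hb]; module
  have hPc : ∀ y t : ℂ, ⟪P, y • Qa + t • Qb⟫_ℂ = 0 := by
    intro y t
    rw [inner_add_right, inner_smul_right, inner_smul_right, hPa, hPb]; ring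
  have sol : ∀ y t : ℂ, y • Qa + t • Qb ≠ 0 → ∃ ρ l : ℂ,
      (y ^ 2) • c0 + (y * t) • c1 + (t ^ 2) • c2 = ρ • P + l • (y • Qa + t • Qb) :=
    fun y t hyt => dep3_solve hPP (hPc y t) hyt (comb y t) (hflex y t)
  -- the case of exactly one zero
  have one_zero : ∀ {P a b c0 c1 c2 d0 d1 d2 d3 : H}, CubRel P a b c0 c1 c2 d0 d1 d2 d3 →
      ∀ {Qa Qb : H} {m0 m1 : ℂ}, a = m0 • P + Qa → b = m1 • P + Qb → ⟪P, Qb⟫_ℂ = 0 →
      (∀ y t : ℂ, y • Qa + t • Qb ≠ 0 → ∃ ρ l : ℂ,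
        (y ^ 2) • c0 + (y * t) • c1 + (t ^ 2) • c2 = ρ • P + l • (y • Qa + t • Qb)) →
      Qa = 0 → Qb ≠ 0 → False := by
    intro P a b c0 c1 c2 d0 d1 d2 d3 h Qa Qb m0 m1 ha hb hPb sol hQa hQb
    subst hQa
    obtain ⟨r1, l1, h1⟩ := sol 0 1 (by simpa using hQb)
    obtain ⟨r2, l2, h2⟩ := sol 1 1 (by simpa using hQb)
    obtain ⟨r3, l3, h3⟩ := sol 1 (-1) (by simpa using hQb)
    have e2 : c2 = r1 • P + l1 • Qb := by
      have : c2 = (0:ℂ) ^ 2 • c0 + ((0:ℂ) * 1) • c1 + (1:ℂ) ^ 2 • c2 := by module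
      rw [this, h1]; module
    have e0 : c0 = ((r2 + r3) / 2 - r1) • P + ((l2 - l3) / 2 - l1) • Qb := by
      have : c0 = (2:ℂ)⁻¹ • (((1:ℂ) ^ 2 • c0 + ((1:ℂ) * 1) • c1 + (1:ℂ) ^ 2 • c2) +
          ((1:ℂ) ^ 2 • c0 + ((1:ℂ) * (-1)) • c1 + (-1:ℂ) ^ 2 • c2)) - c2 := by module
      rw [this, h2, h3, e2]; module
    have e1 : c1 = ((r2 - r3) / 2) • P + ((l2 + l3) / 2) • Qb := by
      have : c1 = (2:ℂ)⁻¹ • (((1:ℂ) ^ 2 • c0 + ((1:ℂ) * 1) • c1 + (1:ℂ) ^ 2 • c2) -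
          ((1:ℂ) ^ 2 • c0 + ((1:ℂ) * (-1)) • c1 + (-1:ℂ) ^ 2 • c2)) := by module
      rw [this, h2, h3]; module
    exact cub_A2 hH h (by rw [ha, add_zero]) hb hPb hQb e0 e1 e2
  by_cases hQa : Qa = 0
  · by_cases hQb : Qb = 0
    · have hm0 := hfr hQa hQb
      exact cub_A3 hH h (m1 := m1) (by rw [ha, hm0, hQa]; simp) (by rw [hb, hQb, add_zero])
    · exact one_zero h ha hb hPb sol hQa hQb
  · by_cases hQb : Qb = 0
    · refine one_zero h.swap hb ha hPa ?_ hQb hQa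
      intro y t hyt
      obtain ⟨r, l, hrl⟩ := sol t y (by rwa [add_comm])
      refine ⟨r, l, ?_⟩
      rw [add_comm (y • Qb), ← hrl]
      module
    · have hQbb : ⟪Qb, Qb⟫_ℂ ≠ 0 := by rwa [Ne, inner_self_eq_zero]
      have hQaa : ⟪Qa, Qa⟫_ℂ ≠ 0 := by rwa [Ne, inner_self_eq_zero]
      have hab' : ⟪Qb, Qa⟫_ℂ = 0 := by rw [inner_symm' hab, map_zero]
      have hPb' : ⟪Qb, P⟫_ℂ = 0 := by rw [inner_symm' hPb, map_zero]
      have hPa' : ⟪Qa, P⟫_ℂ = 0 := by rw [inner_symm' hPa, map_zero]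
      have ne : ∀ y t : ℂ, ¬ (y = 0 ∧ t = 0) → y • Qa + t • Qb ≠ 0 := by
        intro y t hyt h0
        apply hyt
        have h1 := congrArg (fun x => ⟪Qa, x⟫_ℂ) h0
        have h2 := congrArg (fun x => ⟪Qb, x⟫_ℂ) h0
        simp only [inner_add_right, inner_smul_right, hab, hab', inner_zero_right, mul_zero,
          add_zero, zero_add, mul_eq_zero, hQaa, hQbb, or_false] at h1 h2
        exact ⟨h1, h2⟩
      obtain ⟨r1, l1, h1⟩ := sol 0 1 (ne _ _ (by simp))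
      obtain ⟨r0, l0, h0⟩ := sol 1 0 (ne _ _ (by simp))
      obtain ⟨r2, l2, h2⟩ := sol 1 1 (ne _ _ (by simp))
      obtain ⟨r3, l3, h3⟩ := sol 1 (-1) (ne _ _ (by simp))
      have e2 : c2 = r1 • P + l1 • Qb := by
        have : c2 = (0:ℂ) ^ 2 • c0 + ((0:ℂ) * 1) • c1 + (1:ℂ) ^ 2 • c2 := by module
        rw [this, h1]; module
      have e0 : c0 = r0 • P + l0 • Qa := by
        have : c0 = (1:ℂ) ^ 2 • c0 + ((1:ℂ) * 0) • c1 + (0:ℂ) ^ 2 • c2 := by module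
        rw [this, h0]; module
      have e4 : (2:ℂ) • (c0 + c2) = (r2 + r3) • P + (l2 + l3) • Qa + (l2 - l3) • Qb := by
        have : (2:ℂ) • (c0 + c2) = (((1:ℂ) ^ 2 • c0 + ((1:ℂ) * 1) • c1 + (1:ℂ) ^ 2 • c2) +
          ((1:ℂ) ^ 2 • c0 + ((1:ℂ) * (-1)) • c1 + (-1:ℂ) ^ 2 • c2)) := by module
        rw [this, h2, h3]; module
      rw [e0, e2] at e4
      have f1 : 2 * l0 = l2 + l3 := by
        have := congrArg (fun x => ⟪Qa, x⟫_ℂ) e4
        simp only [inner_add_right, inner_smul_right, hab, hPa', mul_zero, add_zero,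
          zero_add] at this
        exact mul_right_cancel₀ hQaa (by linear_combination this)
      have f2 : 2 * l1 = l2 - l3 := by
        have := congrArg (fun x => ⟪Qb, x⟫_ℂ) e4
        simp only [inner_add_right, inner_smul_right, hab', hPb', mul_zero, add_zero,
          zero_add] at this
        exact mul_right_cancel₀ hQbb (by linear_combination this)
      have f3 : l2 = l0 + l1 := by linear_combination -(f1 + f2) / 2
      have e1 : c1 = (r2 - r0 - r1) • P + l0 • Qb + l1 • Qa := by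
        have : c1 = ((1:ℂ) ^ 2 • c0 + ((1:ℂ) * 1) • c1 + (1:ℂ) ^ 2 • c2) - c0 - c2 := by module
        rw [this, h2, e0, e2, f3]; module
      refine cub_A1 hH h ha hb hPa hPb hab hQa hQb e0 e1 e2 ?_
      intro ν g1 g2 g3 g4 g5 g6 g7
      refine hspan ν g1 ?_ ?_ ?_ ?_ ?_ g4 g5 g6 g7
      · rw [ha, inner_add_left, inner_smul_left, g1, g2]; ring
      · rw [hb, inner_add_left, inner_smul_left, g1, g3]; ring
      · rw [e0, inner_add_left, inner_smul_left, inner_smul_left, g1, g2]; ring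
      · rw [e1, inner_add_left, inner_add_left, inner_smul_left, inner_smul_left,
          inner_smul_left, g1, g2, g3]; ring
      · rw [e2, inner_add_left, inner_smul_left, inner_smul_left, g1, g3]; ring

end Pool.Agent.Lib_helper49.N3
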