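import Pool.Agent.Lib_helper49.N3.Frame

/-!
# The case of degree three
-/

set_option autoImplicit false

namespace Pool.Agent.Lib_helper49.N3

open MvPolynomial Pool.Agent.Lib_helper26.SOS Pool.Agent.Lib_helper26.Ebe


/-- the target space -/
abbrev H4 := EuclideanSpace ℂ (Fin 4)

theorem no_flex_unit {p : Fin 4 → MvPolynomial (Fin 3) ℂ} {A : MvPolynomial (Fin 3 ⊕ Fin 3) ℂ}
    (hR : ∑ j, rename Sum.inl (p j) * rename Sum.inr (cj (p j)) = q 3 * A)
    (hp : ∀ i, (p i).IsHomogeneous 3) (hli : LinearIndependent ℂ p) {e : Fin 3 → ℂ}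
    (he : ∑ i, e i * (starRingEnd ℂ) (e i) = 1) (hP : ∑ j, eval e (p j) * (starRingEnd ℂ) (eval e (p j)) = 1)
    (hf : ∀ u i, Wz p e u i = 0) : False := by
  obtain ⟨w0, w1, hU⟩ := exists_frame he
  let P : H4 := WithLp.toLp 2 (fun j => eval e (p j))
  let a : H4 := WithLp.toLp 2 (fun j => D1 (p j) e w0)
  let b : H4 := WithLp.toLp 2 (fun j => D1 (p j) e w1)
  have hPP : inner ℂ P P = (1 : ℂ) := by
    rw [PiLp.inner_apply, ← hP]
    refine Finset.sum_congr rfl fun j _ => ?_
    simp only [RCLike.inner_apply, P]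
  let m0 : ℂ := inner ℂ P a
  let m1 : ℂ := inner ℂ P b
  let Qa : H4 := a - m0 • P
  let Qb : H4 := b - m1 • P
  obtain ⟨y, t, hyt, hab, hfr⟩ := choose_frame Qa Qb m0 m1
  let w0' : Fin 3 → ℂ := y • w0 + t • w1
  let w1' : Fin 3 → ℂ := (-(starRingEnd ℂ) t) • w0 + ((starRingEnd ℂ) y) • w1
  have hU' : Uni (gm e w0' w1') := by
    have u00 := (hU 0 0).trans (if_pos rfl)
    have u01 := (hU 0 1).trans (if_neg (by decide))
    have u02 := (hU 0 2).trans (if_neg (by decide))
    have u10 := (hU 1 0).trans (if_neg (by decide))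
    have u11 := (hU 1 1).trans (if_pos rfl)
    have u12 := (hU 1 2).trans (if_neg (by decide))
    have u20 := (hU 2 0).trans (if_neg (by decide))
    have u21 := (hU 2 1).trans (if_neg (by decide))
    have u22 := (hU 2 2).trans (if_pos rfl)
    simp only [gm, Fin.sum_univ_three, Matrix.cons_val] at u00 u01 u02 u10 u11 u12 u20 u21 u22
    intro k l
    fin_cases k <;> fin_cases l <;>
      simp only [gm, Fin.sum_univ_three, Matrix.cons_val, w0', w1', Pi.add_apply, Pi.smul_apply,
        smul_eq_mul, map_add, map_mul, map_neg, Complex.conj_conj, Fin.zero_eta, Fin.mk_one,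
        Fin.reduceFinMk]
    · rw [if_pos (by decide)]
      exact u00
    · rw [if_neg (by decide)]
      linear_combination (starRingEnd ℂ) y * u01 + (starRingEnd ℂ) t * u02
    · rw [if_neg (by decide)]
      linear_combination -t * u01 + y * u02
    · rw [if_neg (by decide)]
      linear_combination y * u10 + t * u20
    · rw [if_pos (by decide)]
      linear_combination y * (starRingEnd ℂ) y * u11 + y * (starRingEnd ℂ) t * u12 + t * (starRingEnd ℂ) y * u21 + t * (starRingEnd ℂ) t * u22 + hyt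
    · rw [if_neg (by decide)]
      linear_combination -y * t * u11 + y * y * u12 - t * t * u21 + t * y * u22
    · rw [if_neg (by decide)]
      linear_combination -(starRingEnd ℂ) t * u10 + (starRingEnd ℂ) y * u20
    · rw [if_neg (by decide)]
      linear_combination -(starRingEnd ℂ) t * (starRingEnd ℂ) y * u11 - (starRingEnd ℂ) t * (starRingEnd ℂ) t * u12 + (starRingEnd ℂ) y * (starRingEnd ℂ) y * u21 +
        (starRingEnd ℂ) y * (starRingEnd ℂ) t * u22
    · rw [if_pos (by decide)]
      linear_combination (starRingEnd ℂ) t * t * u11 - (starRingEnd ℂ) t * y * u12 - (starRingEnd ℂ) y * t * u21 + (starRingEnd ℂ) y * y * u22 + hyt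
  have hR' := hR_sub hU' hR
  set p' : Fin 4 → MvPolynomial (Fin 3) ℂ := fun j => sub (gm e w0' w1') (p j) with hp'def
  have hp' : ∀ j, (p' j).IsHomogeneous 3 := fun j => sub_isHomogeneous _ (hp j)
  have c300 : cv p' 3 0 0 = P := by
    unfold cv
    congr 1
    funext j
    exact coeff_300 (hp j) e w0' w1'
  have hD1 : ∀ Y T : ℂ, (WithLp.toLp 2 (fun j => D1 (p j) e (Y • w0' + T • w1')) : H4) =
      Y • cv p' 2 1 0 + T • cv p' 2 0 1 := by
    intro Y T
    ext j
    simp only [cv, PiLp.add_apply, PiLp.smul_apply, smul_eq_mul]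
    exact D1_frame (hp j) e w0' w1' Y T
  have hD2 : ∀ Y T : ℂ, (WithLp.toLp 2
      (fun j => D2 (p j) e (Y • w0' + T • w1') (Y • w0' + T • w1')) : H4) =
      (2 : ℂ) • ((Y ^ 2) • cv p' 1 2 0 + (Y * T) • cv p' 1 1 1 + (T ^ 2) • cv p' 1 0 2) := by
    intro Y T
    ext j
    simp only [cv, PiLp.add_apply, PiLp.smul_apply, smul_eq_mul]
    exact D2_frame (hp j) e w0' w1' Y T
  have haH : ∀ u v : Fin 3 → ℂ, ∀ x x' : ℂ, (WithLp.toLp 2
      (fun j => D1 (p j) e (x • u + x' • v)) : H4) =
      x • (WithLp.toLp 2 (fun j => D1 (p j) e u) : H4) +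
      x' • (WithLp.toLp 2 (fun j => D1 (p j) e v) : H4) := by
    intro u v x x'
    ext j
    simp only [PiLp.add_apply, PiLp.smul_apply, smul_eq_mul, D1_add, D1_smul]
  have c210 : cv p' 2 1 0 = y • a + t • b := by
    have h1 := hD1 1 0
    rw [one_smul, zero_smul, add_zero, one_smul, zero_smul, add_zero] at h1
    rw [← h1]
    exact haH w0 w1 y t
  have c201 : cv p' 2 0 1 = (-(starRingEnd ℂ) t) • a + ((starRingEnd ℂ) y) • b := by
    have h1 := hD1 0 1
    rw [one_smul, zero_smul, zero_add, one_smul, zero_smul, zero_add] at h1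
    rw [← h1]
    exact haH w0 w1 (-(starRingEnd ℂ) t) ((starRingEnd ℂ) y)
  have hrel := cubRel hR' (by rw [c300]; exact hPP)
  have hPa : inner ℂ P Qa = (0 : ℂ) := by
    simp only [Qa, inner_sub_right, inner_smul_right, hPP, m0]
    ring
  have hPb : inner ℂ P Qb = (0 : ℂ) := by
    simp only [Qb, inner_sub_right, inner_smul_right, hPP, m1]
    ring
  have hH : Module.finrank ℂ H4 = 4 := by simp [H4]
  refine no_cubic hH hrel ?_ ?_ (Qa := y • Qa + t • Qb) (Qb := (-(starRingEnd ℂ) t) • Qa + ((starRingEnd ℂ) y) • Qb)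
    (m0 := y * m0 + t * m1) (m1 := (-(starRingEnd ℂ) t) * m0 + (starRingEnd ℂ) y * m1) ?_ ?_ ?_ ?_ hab hfr
  · -- inflection
    intro Y T
    obtain ⟨x0, x1, x2, hx, hdep⟩ := dep_of_W4_zero (fun i => hf (Y • w0' + T • w1') i)
    refine ⟨x0, x1, 2 * x2, ?_, ?_⟩
    · rintro ⟨h0, h1, h2⟩
      exact hx ⟨h0, h1, by simpa using h2⟩
    · rw [c300, ← hD1, mul_comm, mul_smul, ← hD2]
      ext j
      simp only [P, PiLp.add_apply, PiLp.smul_apply, smul_eq_mul, PiLp.zero_apply]
      exact hdep j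
  · -- spanning
    intro ν h0 h1 h2 h3 h4 h5 h6 h7 h8 h9
    have hco : ∀ m : Fin 3 →₀ ℕ, ∑ j, (starRingEnd ℂ) (ν j) * coeff m (p' j) = 0 := by
      intro m
      by_cases hm : m 0 + m 1 + m 2 = 3
      · have hT := mem_T10 hm
        have conv : ∀ a b c : ℕ, inner ℂ (cv p' a b c) ν = (0 : ℂ) →
            ∑ j, (starRingEnd ℂ) (ν j) * coeff (mon3 a b c) (p' j) = 0 := by
          intro a b c h
          rw [PiLp.inner_apply] at h
          have h' := congrArg (starRingEnd ℂ) h
          rw [map_sum, map_zero] at h'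
          rw [← h']
          refine Finset.sum_congr rfl fun j _ => ?_
          simp [cv, RCLike.inner_apply]
        rw [← mon3_surj m]
        simp only [T10, Finset.mem_insert, Finset.mem_singleton, Prod.mk.injEq] at hT
        rcases hT with h | h | h | h | h | h | h | h | h | h <;>
          · rw [h.1, h.2.1, h.2.2]
            exact conv _ _ _ (by assumption)
      · refine Finset.sum_eq_zero fun j _ => ?_
        have : coeff m (p' j) = 0 := by
          by_contra hne
          exact hm (deg_of_coeff_ne (hp' j) hne)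
        rw [this, mul_zero]
    have hsum : ∑ j, (starRingEnd ℂ) (ν j) • p' j = 0 := by
      ext m
      rw [coeff_sum, coeff_zero, ← hco m]
      refine Finset.sum_congr rfl fun j _ => ?_
      rw [coeff_smul, smul_eq_mul]
    have hsum2 : ∑ j, (starRingEnd ℂ) (ν j) • p j = 0 := by
      apply MvPolynomial.funext
      intro z
      rw [map_zero]
      -- `z` is in the range of the unitary matrix
      obtain ⟨x, hx⟩ : ∃ x, mv (gm e w0' w1') x = z := by
        let M : Matrix (Fin 3) (Fin 3) ℂ := Matrix.of fun i k => gm e w0' w1' (i, k)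
        have h1 : M.transpose * M.map (starRingEnd ℂ) = 1 := by
          ext k l
          rw [Matrix.mul_apply, Matrix.one_apply]
          exact hU' k l
        have h2 : M.map (starRingEnd ℂ) * M.transpose = 1 := mul_eq_one_comm.1 h1
        have h3 : M * (M.map (starRingEnd ℂ)).transpose = 1 := by
          have := congrArg Matrix.transpose h2
          rwa [Matrix.transpose_mul, Matrix.transpose_transpose, Matrix.transpose_one] at this
        refine ⟨(M.map (starRingEnd ℂ)).transpose.mulVec z, ?_⟩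
        have h4 : M.mulVec ((M.map (starRingEnd ℂ)).transpose.mulVec z) = z := by
          rw [Matrix.mulVec_mulVec, h3, Matrix.one_mulVec]
        exact h4
      have h5 := congrArg (eval x) hsum
      rw [map_sum, map_zero] at h5
      rw [map_sum, ← h5]
      refine Finset.sum_congr rfl fun j _ => ?_
      rw [smul_eval, smul_eval, hp'def, Pool.Agent.Lib_helper26.Ebe.eval_sub, hx]
    have h6 := Fintype.linearIndependent_iff.1 hli _ hsum2
    ext j
    exact cc_zero (h6 j)
  · rw [c210, c300]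
    simp only [Qa, Qb]
    module
  · rw [c201, c300]
    simp only [Qa, Qb]
    module
  · rw [c300, inner_add_right, inner_smul_right, inner_smul_right, hPa, hPb]; ring
  · rw [c300, inner_add_right, inner_smul_right, inner_smul_right, hPa, hPb]; ring

theorem eval_smul_hom0 {n D : ℕ} {f : MvPolynomial (Fin n) ℂ} (hf : f.IsHomogeneous D)
    (c : ℂ) (z : Fin n → ℂ) : eval (c • z) f = c ^ D * eval z f := by
  rw [eval_eq, eval_eq, Finset.mul_sum]
  refine Finset.sum_congr rfl fun m hm => ?_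
  have hd := hf (mem_support_iff.1 hm)
  rw [Finsupp.weight_apply, Finsupp.sum] at hd
  simp only [Pi.one_apply, smul_eq_mul, mul_one] at hd
  simp only [Pi.smul_apply, smul_eq_mul, mul_pow, Finset.prod_mul_distrib]
  rw [Finset.prod_pow_eq_pow_sum, hd]
  ring

theorem Wz_scale {p : Fin 4 → MvPolynomial (Fin 3) ℂ} (hp : ∀ i, (p i).IsHomogeneous 3)
    (c : ℂ) (z u : Fin 3 → ℂ) (i : Fin 4) : Wz p (c • z) u i = c ^ 6 * Wz p z u i := by
  have h0 : ∀ j, eval (c • z) (p j) = c ^ 3 * eval z (p j) := fun j => eval_smul_hom0 (hp j) c z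
  have h1 : ∀ j, D1 (p j) (c • z) u = c ^ 2 * D1 (p j) z u := by
    intro j
    unfold D1
    rw [Finset.mul_sum]
    refine Finset.sum_congr rfl fun k _ => ?_
    rw [eval_smul_hom0 (D := 2) (by simpa using (hp j).pderiv (i := k))]
    ring
  have h2 : ∀ j, D2 (p j) (c • z) u u = c * D2 (p j) z u u := by
    intro j
    unfold D2
    rw [Finset.mul_sum]
    refine Finset.sum_congr rfl fun k _ => ?_
    rw [Finset.mul_sum]
    refine Finset.sum_congr rfl fun l _ => ?_
    rw [eval_smul_hom0 (D := 1) (by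
      simpa using ((hp j).pderiv (i := k)).pderiv (i := l))]
    ring
  unfold Wz
  simp only [h0, h1, h2]
  fin_cases i <;> simp [W4] <;> ring

theorem Wz_C_mul {p : Fin 4 → MvPolynomial (Fin 3) ℂ} (c : ℂ) (z u : Fin 3 → ℂ) (i : Fin 4) :
    Wz (fun j => C c * p j) z u i = c ^ 3 * Wz p z u i := by
  have h1 : ∀ j, D1 (C c * p j) z u = c * D1 (p j) z u := by
    intro j
    unfold D1
    rw [Finset.mul_sum]
    refine Finset.sum_congr rfl fun k _ => ?_
    rw [pderiv_C_mul, map_mul, eval_C]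
    ring
  have h2 : ∀ j, D2 (C c * p j) z u u = c * D2 (p j) z u u := by
    intro j
    unfold D2
    rw [Finset.mul_sum]
    refine Finset.sum_congr rfl fun k _ => ?_
    rw [Finset.mul_sum]
    refine Finset.sum_congr rfl fun l _ => ?_
    rw [pderiv_C_mul, pderiv_C_mul, map_mul, eval_C]
    ring
  unfold Wz
  simp only [map_mul, eval_C, h1, h2]
  fin_cases i <;> simp [W4] <;> ring

theorem exists_scale {ι : Type*} [Fintype ι] (x : ι → ℂ) (hx : x ≠ 0) :
    ∃ c : ℝ, c ≠ 0 ∧ ∑ i, (c * x i) * (starRingEnd ℂ) (c * x i) = 1 := by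
  have h1 : 0 < ∑ i, Complex.normSq (x i) := by
    obtain ⟨i, hi⟩ := Function.ne_iff.1 hx
    exact Finset.sum_pos' (fun j _ => Complex.normSq_nonneg _)
      ⟨i, Finset.mem_univ _, Complex.normSq_pos.2 hi⟩
  refine ⟨(Real.sqrt (∑ i, Complex.normSq (x i)))⁻¹, by positivity, ?_⟩
  simp only [Complex.mul_conj, Complex.normSq_mul, Complex.normSq_ofReal]
  rw [← Complex.ofReal_sum, ← Finset.mul_sum, ← Complex.ofReal_one]
  congr 1
  have h2 := Real.mul_self_sqrt h1.le
  have h3 : Real.sqrt (∑ i, Complex.normSq (x i)) ≠ 0 := by positivity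
  field_simp
  rw [sq]
  exact h2.symm

theorem no_flex {p : Fin 4 → MvPolynomial (Fin 3) ℂ} {A : MvPolynomial (Fin 3 ⊕ Fin 3) ℂ}
    (hR : ∑ j, rename Sum.inl (p j) * rename Sum.inr (cj (p j)) = q 3 * A)
    (hp : ∀ i, (p i).IsHomogeneous 3) (hli : LinearIndependent ℂ p) {z : Fin 3 → ℂ}
    (hz : ∃ j, eval z (p j) ≠ 0) (hf : ∀ u i, Wz p z u i = 0) : False := by
  have hz0 : z ≠ 0 := by
    rintro rfl
    obtain ⟨j, hj⟩ := hz
    apply hj
    have := eval_smul_hom0 (hp j) 0 (0 : Fin 3 → ℂ)
    rw [smul_zero] at this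
    rw [this]; simp
  obtain ⟨c, hc0, hc⟩ := exists_scale z hz0
  have hP0 : (fun j => eval ((c : ℂ) • z) (p j)) ≠ 0 := by
    intro h
    obtain ⟨j, hj⟩ := hz
    apply hj
    have := congrFun h j
    simp only [Pi.zero_apply] at this
    rw [eval_smul_hom0 (hp j)] at this
    refine (mul_eq_zero.1 this).resolve_left (pow_ne_zero _ ?_)
    exact_mod_cast hc0
  obtain ⟨ρ, hρ0, hρ⟩ := exists_scale _ hP0
  have hρ0' : (ρ : ℂ) ≠ 0 := by exact_mod_cast hρ0
  refine no_flex_unit (p := fun j => C (ρ : ℂ) * p j) (A := C ((ρ : ℂ) ^ 2) * A) (e := (c : ℂ) • z)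
    ?_ ?_ ?_ ?_ ?_ ?_
  · have h1 : ∀ j, rename Sum.inl (C (ρ : ℂ) * p j) * rename Sum.inr (cj (C (ρ : ℂ) * p j)) =
        (C ((ρ : ℂ) ^ 2) * (rename Sum.inl (p j) * rename Sum.inr (cj (p j))) :
          MvPolynomial (Fin 3 ⊕ Fin 3) ℂ) := by
      intro j
      simp only [cj, map_mul, map_C, Complex.conj_ofReal, rename_C, map_pow]
      ring
    simp only [h1]
    rw [← Finset.mul_sum, hR]
    ring
  · intro i
    exact (hp i).C_mul _
  · rw [Fintype.linearIndependent_iff] at hli ⊢
    intro g hg i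
    have h2 : (fun j => g j * (ρ : ℂ)) i = 0 := by
      refine hli (fun j => g j * (ρ : ℂ)) ?_ i
      rw [← hg]
      refine Finset.sum_congr rfl fun j _ => ?_
      rw [smul_eq_C_mul, smul_eq_C_mul, map_mul]
      ring
    exact (mul_eq_zero.1 h2).resolve_right hρ0'
  · exact hc
  · simpa only [map_mul, eval_C] using hρ
  · intro u i
    rw [Wz_C_mul, Wz_scale hp, hf u i]
    ring

end Pool.Agent.Lib_helper49.N3
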