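import Pool.Agent.Lib_helper26.Ebe.Defs
import Pool.Agent.Lib_helper52.Ebe.CR
import Pool.Agent.Lib_helper97.Ebe.H

/-!
# Three variables, four components: inflection points
-/

set_option autoImplicit false

namespace Pool.Agent.Lib_helper49.N3

open MvPolynomial Pool.Agent.Lib_helper26.SOS Pool.Agent.Lib_helper26.Ebe

section W4

variable {R : Type*} [CommRing R]

/-- The cross product of three vectors in `R⁴`. -/
def W4 (a b c : Fin 4 → R) : Fin 4 → R :=
  ![a 1 * (b 2 * c 3 - b 3 * c 2) - a 2 * (b 1 * c 3 - b 3 * c 1) + a 3 * (b 1 * c 2 - b 2 * c 1),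
    -(a 0 * (b 2 * c 3 - b 3 * c 2) - a 2 * (b 0 * c 3 - b 3 * c 0) +
      a 3 * (b 0 * c 2 - b 2 * c 0)),
    a 0 * (b 1 * c 3 - b 3 * c 1) - a 1 * (b 0 * c 3 - b 3 * c 0) + a 3 * (b 0 * c 1 - b 1 * c 0),
    -(a 0 * (b 1 * c 2 - b 2 * c 1) - a 1 * (b 0 * c 2 - b 2 * c 0) +
      a 2 * (b 0 * c 1 - b 1 * c 0))]

theorem W4_prop {a b c g : Fin 4 → R} (ha : ∑ j, a j * g j = 0) (hb : ∑ j, b j * g j = 0)
    (hc : ∑ j, c j * g j = 0) (i j : Fin 4) : W4 a b c i * g j = W4 a b c j * g i := by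
  rw [Fin.sum_univ_four] at ha hb hc
  have key : ∀ i j : Fin 4, i < j → W4 a b c i * g j = W4 a b c j * g i := by
    intro i j hij
    fin_cases i <;> fin_cases j <;> first | exact absurd hij (by decide) | skip
    · change W4 a b c 0 * g 1 = W4 a b c 1 * g 0
      simp only [W4, Matrix.cons_val]
      linear_combination (b 2 * c 3 - b 3 * c 2) * ha - (a 2 * c 3 - a 3 * c 2) * hb +
        (a 2 * b 3 - a 3 * b 2) * hc
    · change W4 a b c 0 * g 2 = W4 a b c 2 * g 0
      simp only [W4, Matrix.cons_val]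
      linear_combination (-(b 1 * c 3 - b 3 * c 1)) * ha + (a 1 * c 3 - a 3 * c 1) * hb -
        (a 1 * b 3 - a 3 * b 1) * hc
    · change W4 a b c 0 * g 3 = W4 a b c 3 * g 0
      simp only [W4, Matrix.cons_val]
      linear_combination (b 1 * c 2 - b 2 * c 1) * ha - (a 1 * c 2 - a 2 * c 1) * hb +
        (a 1 * b 2 - a 2 * b 1) * hc
    · change W4 a b c 1 * g 2 = W4 a b c 2 * g 1
      simp only [W4, Matrix.cons_val]
      linear_combination (b 0 * c 3 - b 3 * c 0) * ha - (a 0 * c 3 - a 3 * c 0) * hb +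
        (a 0 * b 3 - a 3 * b 0) * hc
    · change W4 a b c 1 * g 3 = W4 a b c 3 * g 1
      simp only [W4, Matrix.cons_val]
      linear_combination (-(b 0 * c 2 - b 2 * c 0)) * ha + (a 0 * c 2 - a 2 * c 0) * hb -
        (a 0 * b 2 - a 2 * b 0) * hc
    · change W4 a b c 2 * g 3 = W4 a b c 3 * g 2
      simp only [W4, Matrix.cons_val]
      linear_combination (b 0 * c 1 - b 1 * c 0) * ha - (a 0 * c 1 - a 1 * c 0) * hb +
        (a 0 * b 1 - a 1 * b 0) * hc
  rcases lt_trichotomy i j with h | h | h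
  · exact key i j h
  · rw [h]
  · exact (key j i h).symm

theorem W4_map {S : Type*} [CommRing S] (φ : R →+* S) (a b c : Fin 4 → R) (i : Fin 4) :
    φ (W4 a b c i) = W4 (fun j => φ (a j)) (fun j => φ (b j)) (fun j => φ (c j)) i := by
  fin_cases i <;> simp [W4]

/-- The W4 vector of linearly dependent vectors is zero. -/
theorem W4_zero_of_dep {K : Type*} [Field K] {a b c : Fin 4 → K} {x y z : K}
    (h0 : ¬ (x = 0 ∧ y = 0 ∧ z = 0)) (h : ∀ j, x * a j + y * b j + z * c j = 0) (i : Fin 4) :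
    W4 a b c i = 0 := by
  have hx : x * W4 a b c i = 0 := by
    fin_cases i <;> simp only [W4, Matrix.cons_val, Fin.zero_eta, Fin.mk_one, Fin.reduceFinMk]
    · linear_combination (b 2 * c 3 - b 3 * c 2) * h 1 - (b 1 * c 3 - b 3 * c 1) * h 2 +
        (b 1 * c 2 - b 2 * c 1) * h 3
    · linear_combination -((b 2 * c 3 - b 3 * c 2) * h 0 - (b 0 * c 3 - b 3 * c 0) * h 2 +
        (b 0 * c 2 - b 2 * c 0) * h 3)
    · linear_combination (b 1 * c 3 - b 3 * c 1) * h 0 - (b 0 * c 3 - b 3 * c 0) * h 1 +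
        (b 0 * c 1 - b 1 * c 0) * h 3
    · linear_combination -((b 1 * c 2 - b 2 * c 1) * h 0 - (b 0 * c 2 - b 2 * c 0) * h 1 +
        (b 0 * c 1 - b 1 * c 0) * h 2)
  have hy : y * W4 a b c i = 0 := by
    fin_cases i <;> simp only [W4, Matrix.cons_val, Fin.zero_eta, Fin.mk_one, Fin.reduceFinMk]
    · linear_combination -((a 2 * c 3 - a 3 * c 2) * h 1 - (a 1 * c 3 - a 3 * c 1) * h 2 +
        (a 1 * c 2 - a 2 * c 1) * h 3)
    · linear_combination ((a 2 * c 3 - a 3 * c 2) * h 0 - (a 0 * c 3 - a 3 * c 0) * h 2 +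
        (a 0 * c 2 - a 2 * c 0) * h 3)
    · linear_combination -((a 1 * c 3 - a 3 * c 1) * h 0 - (a 0 * c 3 - a 3 * c 0) * h 1 +
        (a 0 * c 1 - a 1 * c 0) * h 3)
    · linear_combination ((a 1 * c 2 - a 2 * c 1) * h 0 - (a 0 * c 2 - a 2 * c 0) * h 1 +
        (a 0 * c 1 - a 1 * c 0) * h 2)
  have hz : z * W4 a b c i = 0 := by
    fin_cases i <;> simp only [W4, Matrix.cons_val, Fin.zero_eta, Fin.mk_one, Fin.reduceFinMk]
    · linear_combination ((a 2 * b 3 - a 3 * b 2) * h 1 - (a 1 * b 3 - a 3 * b 1) * h 2 +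
        (a 1 * b 2 - a 2 * b 1) * h 3)
    · linear_combination -((a 2 * b 3 - a 3 * b 2) * h 0 - (a 0 * b 3 - a 3 * b 0) * h 2 +
        (a 0 * b 2 - a 2 * b 0) * h 3)
    · linear_combination ((a 1 * b 3 - a 3 * b 1) * h 0 - (a 0 * b 3 - a 3 * b 0) * h 1 +
        (a 0 * b 1 - a 1 * b 0) * h 3)
    · linear_combination -((a 1 * b 2 - a 2 * b 1) * h 0 - (a 0 * b 2 - a 2 * b 0) * h 1 +
        (a 0 * b 1 - a 1 * b 0) * h 2)
  by_contra hne
  exact h0 ⟨(mul_eq_zero.1 hx).resolve_right hne, (mul_eq_zero.1 hy).resolve_right hne,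
    (mul_eq_zero.1 hz).resolve_right hne⟩

/-- If the W4 vector vanishes then the vectors are dependent. -/
theorem dep_of_W4_zero {K : Type*} [Field K] {a b c : Fin 4 → K} (h : ∀ i, W4 a b c i = 0) :
    ∃ x y z : K, ¬ (x = 0 ∧ y = 0 ∧ z = 0) ∧ ∀ j, x * a j + y * b j + z * c j = 0 := by
  by_contra hne
  have hne' : ∀ x y z : K, ¬ (x = 0 ∧ y = 0 ∧ z = 0) → ∃ j, x * a j + y * b j + z * c j ≠ 0 := by
    intro x y z hxyz
    by_contra hc
    push Not at hc
    exact hne ⟨x, y, z, hxyz, hc⟩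
  have hli : LinearIndependent K ![a, b, c] := by
    rw [Fintype.linearIndependent_iff]
    intro g hg
    rw [Fin.sum_univ_three] at hg
    by_contra hg0
    obtain ⟨j, hj⟩ := hne' (g 0) (g 1) (g 2) (by
      intro hh
      apply hg0
      intro i
      fin_cases i
      · exact hh.1
      · exact hh.2.1
      · exact hh.2.2)
    apply hj
    have := congrFun hg j
    simpa using this
  obtain ⟨d, hd⟩ : ∃ d : Fin 4 → K, d ∉ Submodule.span K (Set.range ![a, b, c]) := by
    by_contra hc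
    push Not at hc
    have : Submodule.span K (Set.range ![a, b, c]) = ⊤ := by
      rw [eq_top_iff]; intro x _; exact hc x
    have h1 := finrank_span_eq_card hli
    rw [this, finrank_top] at h1
    simp at h1
  have hli4 : LinearIndependent K (Fin.cons d ![a, b, c] : Fin 4 → Fin 4 → K) := by
    rw [linearIndependent_finCons]
    exact ⟨hli, hd⟩
  have hu : IsUnit (Matrix.of (Fin.cons d ![a, b, c] : Fin 4 → Fin 4 → K)) :=
    Matrix.linearIndependent_rows_iff_isUnit.1 hli4
  have hdet := ((Matrix.isUnit_iff_isUnit_det _).1 hu).ne_zero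
  apply hdet
  have h0 := h 0
  have h1 := h 1
  have h2 := h 2
  have h3 := h 3
  simp only [W4, Matrix.cons_val] at h0 h1 h2 h3
  have hd : (Matrix.of (Fin.cons d ![a, b, c] : Fin 4 → Fin 4 → K)).det =
      d 0 * (a 1 * (b 2 * c 3 - b 3 * c 2) - a 2 * (b 1 * c 3 - b 3 * c 1) +
        a 3 * (b 1 * c 2 - b 2 * c 1)) +
      d 1 * (-(a 0 * (b 2 * c 3 - b 3 * c 2) - a 2 * (b 0 * c 3 - b 3 * c 0) +
      a 3 * (b 0 * c 2 - b 2 * c 0))) +
      d 2 * (a 0 * (b 1 * c 3 - b 3 * c 1) - a 1 * (b 0 * c 3 - b 3 * c 0) +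
        a 3 * (b 0 * c 1 - b 1 * c 0)) +
      d 3 * (-(a 0 * (b 1 * c 2 - b 2 * c 1) - a 1 * (b 0 * c 2 - b 2 * c 0) +
      a 2 * (b 0 * c 1 - b 1 * c 0))) := by
    rw [Matrix.det_succ_row_zero, Fin.sum_univ_four]
    simp only [Matrix.det_fin_three]
    simp [Matrix.submatrix, Fin.succAbove]
    ring
  rw [hd, h0, h1, h2, h3]
  ring

end W4

/-- Proportional to a coprime family means multiple of it. -/
theorem exists_factor {R : Type*} [CommRing R] [IsDomain R] [UniqueFactorizationMonoid R]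
    {ι : Type*} (w g : ι → R) (hg : ∀ h, (∀ i, h ∣ g i) → IsUnit h) {i0 : ι} (hi0 : g i0 ≠ 0)
    (hw : ∀ i j, w i * g j = w j * g i) : ∃ Λ : R, ∀ i, w i = Λ * g i := by
  obtain ⟨a, b, c, hab, hca, hcb⟩ :=
    UniqueFactorizationMonoid.exists_reduced_factors (g i0) hi0 (w i0)
  have hc : c ≠ 0 := by
    rintro rfl
    rw [zero_mul] at hca
    exact hi0 hca.symm
  have hdiv : ∀ i, a ∣ g i := by
    intro i
    have h1 := hw i i0
    rw [← hca, ← hcb] at h1
    have h2 : w i * a = b * g i := by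
      apply mul_left_cancel₀ hc
      linear_combination h1
    exact hab.dvd_of_dvd_mul_left ⟨w i, by linear_combination -h2⟩
  obtain ⟨u, hu⟩ := hg a hdiv
  refine ⟨b * ((u⁻¹ : Rˣ) : R), fun i => ?_⟩
  apply mul_right_cancel₀ hi0
  have h1 := hw i i0
  have h2 : ((u⁻¹ : Rˣ) : R) * a = 1 := by rw [← hu]; exact u.inv_mul
  rw [h1, ← hcb]
  have h3 : g i0 = c * a := hca.symm
  rw [h3]
  linear_combination (-(c * b * g i)) * h2

/-! ### derivatives -/

section der

variable {N : ℕ}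

/-- first derivative -/
noncomputable def D1 (f : MvPolynomial (Fin N) ℂ) (z u : Fin N → ℂ) : ℂ :=
  ∑ k, u k * eval z (pderiv k f)

/-- second derivative -/
noncomputable def D2 (f : MvPolynomial (Fin N) ℂ) (z u v : Fin N → ℂ) : ℂ :=
  ∑ k, ∑ l, u k * v l * eval z (pderiv l (pderiv k f))

theorem D1_add (f : MvPolynomial (Fin N) ℂ) (z u v : Fin N → ℂ) :
    D1 f z (u + v) = D1 f z u + D1 f z v := by
  simp only [D1, Pi.add_apply, add_mul, Finset.sum_add_distrib]

theorem D1_smul (f : MvPolynomial (Fin N) ℂ) (z u : Fin N → ℂ) (c : ℂ) :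
    D1 f z (c • u) = c * D1 f z u := by
  simp only [D1, Pi.smul_apply, smul_eq_mul, Finset.mul_sum, mul_assoc]

theorem D2_add_left (f : MvPolynomial (Fin N) ℂ) (z u u' v : Fin N → ℂ) :
    D2 f z (u + u') v = D2 f z u v + D2 f z u' v := by
  simp only [D2, Pi.add_apply, add_mul, Finset.sum_add_distrib]

theorem D2_add_right (f : MvPolynomial (Fin N) ℂ) (z u v v' : Fin N → ℂ) :
    D2 f z u (v + v') = D2 f z u v + D2 f z u v' := by
  simp only [D2, Pi.add_apply, mul_add, add_mul, Finset.sum_add_distrib]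

theorem D2_smul_left (f : MvPolynomial (Fin N) ℂ) (z u v : Fin N → ℂ) (c : ℂ) :
    D2 f z (c • u) v = c * D2 f z u v := by
  simp only [D2, Pi.smul_apply, smul_eq_mul, Finset.mul_sum, mul_assoc]

theorem D2_smul_right (f : MvPolynomial (Fin N) ℂ) (z u v : Fin N → ℂ) (c : ℂ) :
    D2 f z u (c • v) = c * D2 f z u v := by
  simp only [D2, Pi.smul_apply, smul_eq_mul, Finset.mul_sum]
  refine Finset.sum_congr rfl fun k _ => Finset.sum_congr rfl fun l _ => ?_
  ring

theorem derivative_crL (u z : Fin N → ℂ) (f : MvPolynomial (Fin N) ℂ) :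
    Polynomial.derivative (crL u z f) = ∑ k, Polynomial.C (u k) * crL u z (pderiv k f) := by
  induction f using MvPolynomial.induction_on with
  | C a =>
    simp [crL]
  | add p q hp hq =>
    simp only [map_add, hp, hq, mul_add, Finset.sum_add_distrib]
  | mul_X p i hp =>
    have h1 : crL u z (X i) = Polynomial.C (z i) + Polynomial.C (u i) * Polynomial.X := by
      simp [crL]
    rw [map_mul, Polynomial.derivative_mul, hp, h1]
    simp only [Derivation.leibniz, smul_eq_mul, map_add, map_mul, h1, mul_add,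
      Finset.sum_add_distrib]
    have h2 : ∑ k, Polynomial.C (u k) * (crL u z p * crL u z (pderiv k (X i))) =
        crL u z p * Polynomial.C (u i) := by
      rw [Finset.sum_eq_single i]
      · rw [pderiv_X_self, map_one]; ring
      · intro b _ hb
        rw [pderiv_X_of_ne hb.symm, map_zero]; ring
      · intro h; exact absurd (Finset.mem_univ _) h
    rw [h2]
    simp only [Polynomial.derivative_C, Polynomial.derivative_mul,
      Polynomial.derivative_X, zero_mul, zero_add, mul_one]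
    have h3 : ∑ x, Polynomial.C (u x) * ((Polynomial.C (z i) + Polynomial.C (u i) * Polynomial.X) *
        crL u z (pderiv x p)) = (∑ k, Polynomial.C (u k) * crL u z (pderiv k p)) *
        (Polynomial.C (z i) + Polynomial.C (u i) * Polynomial.X) := by
      rw [Finset.sum_mul]
      refine Finset.sum_congr rfl fun k _ => ?_
      ring
    rw [h3]
    ring

theorem crL_eval (u z : Fin N → ℂ) (f : MvPolynomial (Fin N) ℂ) (s : ℂ) :
    (crL u z f).eval s = eval (z + s • u) f := by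
  have : ((Polynomial.evalRingHom s).comp (crL u z).toRingHom) = eval (z + s • u) := by
    apply MvPolynomial.ringHom_ext
    · intro c
      simp [crL]
    · intro i
      simp [crL]
      ring
  exact RingHom.congr_fun this f

theorem crL_coeff_zero (u z : Fin N → ℂ) (f : MvPolynomial (Fin N) ℂ) :
    (crL u z f).coeff 0 = eval z f := by
  rw [Polynomial.coeff_zero_eq_eval_zero, crL_eval, zero_smul, add_zero]

theorem crL_coeff_one (u z : Fin N → ℂ) (f : MvPolynomial (Fin N) ℂ) :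
    (crL u z f).coeff 1 = D1 f z u := by
  have h := congrArg (fun p => Polynomial.coeff p 0) (derivative_crL u z f)
  simp only [Polynomial.coeff_derivative, Polynomial.finsetSum_coeff, Polynomial.coeff_C_mul,
    crL_coeff_zero] at h
  rw [D1, ← h]
  norm_num

theorem crL_coeff_two (u z : Fin N → ℂ) (f : MvPolynomial (Fin N) ℂ) :
    2 * (crL u z f).coeff 2 = D2 f z u u := by
  have h := congrArg (fun p => Polynomial.coeff p 1) (derivative_crL u z f)
  simp only [Polynomial.coeff_derivative, Polynomial.finsetSum_coeff, Polynomial.coeff_C_mul,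
    crL_coeff_one] at h
  have h2 : D2 f z u u = ∑ k, u k * D1 (pderiv k f) z u := by
    simp only [D2, D1, Finset.mul_sum, mul_assoc]
  rw [h2, ← h]
  push_cast
  ring

end der

/-! ### the key identity -/

/-- cross product -/
def cr {R : Type*} [CommRing R] (a b : Fin 3 → R) : Fin 3 → R :=
  ![a 1 * b 2 - a 2 * b 1, a 2 * b 0 - a 0 * b 2, a 0 * b 1 - a 1 * b 0]

theorem cr_dot_left (a b : Fin 3 → ℂ) : ∑ k, cr a b k * a k = 0 := by
  simp [cr, Fin.sum_univ_three]; ring

theorem cr_dot_right (a b : Fin 3 → ℂ) : ∑ k, cr a b k * b k = 0 := by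
  simp [cr, Fin.sum_univ_three]; ring

theorem cr_line_left (e y : Fin 3 → ℂ) (x : ℂ) : cr e (y + x • e) = cr e y := by
  funext k; fin_cases k <;> simp [cr] <;> ring

theorem cr_line_right (e y w : Fin 3 → ℂ) (x : ℂ) :
    cr (y + x • e) w = cr y w + x • cr e w := by
  funext k; fin_cases k <;> simp [cr] <;> ring

section key

variable (p : Fin 4 → MvPolynomial (Fin 3) ℂ)

/-- The W4 vector of the second order jet of `p` at `z` in the direction `u`. -/
noncomputable def Wz (z u : Fin 3 → ℂ) : Fin 4 → ℂ :=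
  W4 (fun j => eval z (p j)) (fun j => D1 (p j) z u) (fun j => D2 (p j) z u u)

variable {p}

theorem ortho {A : MvPolynomial (Fin 3 ⊕ Fin 3) ℂ}
    (hR : ∑ j, rename Sum.inl (p j) * rename Sum.inr (cj (p j)) = q 3 * A)
    {z u ζ : Fin 3 → ℂ} (hz : ∑ k, z k * ζ k = 0) (hu : ∑ k, u k * ζ k = 0) (i : ℕ) :
    ∑ j, (crL u z (p j)).coeff i * eval ζ (cj (p j)) = 0 := by
  have h : ∑ j, crL u z (p j) * Polynomial.C (eval ζ (cj (p j))) = 0 := by
    apply Polynomial.funext
    intro s
    rw [Polynomial.eval_finsetSum, Polynomial.eval_zero]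
    have h1 := congrArg (eval (Sum.elim (z + s • u) ζ)) hR
    rw [map_sum, map_mul, eval_q] at h1
    have h2 : ∑ k, (z + s • u) k * ζ k = 0 := by
      have : ∑ k, (z + s • u) k * ζ k = ∑ k, z k * ζ k + s * ∑ k, u k * ζ k := by
        rw [Finset.mul_sum, ← Finset.sum_add_distrib]
        refine Finset.sum_congr rfl fun k _ => ?_
        simp only [Pi.add_apply, Pi.smul_apply, smul_eq_mul]
        ring
      rw [this, hz, hu]; ring
    rw [h2, zero_mul] at h1
    rw [← h1]
    refine Finset.sum_congr rfl fun j _ => ?_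
    rw [Polynomial.eval_mul, Polynomial.eval_C, crL_eval, map_mul, eval_rename_inl,
      eval_rename_inr]
  have h2 := congrArg (fun P => Polynomial.coeff P i) h
  simpa only [Polynomial.finsetSum_coeff, Polynomial.coeff_mul_C, Polynomial.coeff_zero] using h2

theorem ortho0 {A : MvPolynomial (Fin 3 ⊕ Fin 3) ℂ}
    (hR : ∑ j, rename Sum.inl (p j) * rename Sum.inr (cj (p j)) = q 3 * A)
    {z ζ : Fin 3 → ℂ} (hz : ∑ k, z k * ζ k = 0) :
    ∑ j, eval z (p j) * eval ζ (cj (p j)) = 0 := by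
  have := ortho hR hz (u := 0) (by simp) 0
  simpa only [crL_coeff_zero] using this

theorem ortho1 {A : MvPolynomial (Fin 3 ⊕ Fin 3) ℂ}
    (hR : ∑ j, rename Sum.inl (p j) * rename Sum.inr (cj (p j)) = q 3 * A)
    {z u ζ : Fin 3 → ℂ} (hz : ∑ k, z k * ζ k = 0) (hu : ∑ k, u k * ζ k = 0) :
    ∑ j, D1 (p j) z u * eval ζ (cj (p j)) = 0 := by
  have := ortho hR hz hu 1
  simpa only [crL_coeff_one] using this

theorem ortho2 {A : MvPolynomial (Fin 3 ⊕ Fin 3) ℂ}
    (hR : ∑ j, rename Sum.inl (p j) * rename Sum.inr (cj (p j)) = q 3 * A)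
    {z u ζ : Fin 3 → ℂ} (hz : ∑ k, z k * ζ k = 0) (hu : ∑ k, u k * ζ k = 0) :
    ∑ j, D2 (p j) z u u * eval ζ (cj (p j)) = 0 := by
  have := ortho hR hz hu 2
  simp only [← crL_coeff_two, mul_assoc]
  rw [← Finset.mul_sum, this, mul_zero]

variable (p) in
/-- The polynomial `ζ ↦ W(e × ζ, ζ × w)`. -/
noncomputable def Wp (e w : Fin 3 → ℂ) : Fin 4 → MvPolynomial (Fin 3) ℂ :=
  W4 (fun j => aeval (cr (fun k => C (e k)) X) (p j))
    (fun j => ∑ k, cr X (fun k => C (w k)) k * aeval (cr (fun k => C (e k)) X) (pderiv k (p j)))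
    (fun j => ∑ k, ∑ l, cr X (fun k => C (w k)) k * cr X (fun k => C (w k)) l *
      aeval (cr (fun k => C (e k)) X) (pderiv l (pderiv k (p j))))

theorem eval_cr_left (e ζ : Fin 3 → ℂ) (f : MvPolynomial (Fin 3) ℂ) :
    eval ζ (aeval (cr (fun k => C (e k)) X) f) = eval (cr e ζ) f := by
  have : ((eval ζ).comp
      ((aeval (cr (fun k => C (e k)) X) : MvPolynomial (Fin 3) ℂ →ₐ[ℂ] MvPolynomial (Fin 3) ℂ) :
        MvPolynomial (Fin 3) ℂ →+* MvPolynomial (Fin 3) ℂ)) = eval (cr e ζ) := by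
    apply MvPolynomial.ringHom_ext
    · intro c
      simp
    · intro i
      fin_cases i <;> simp [cr]
  exact RingHom.congr_fun this f

theorem eval_cr_right (w ζ : Fin 3 → ℂ) (k : Fin 3) :
    eval ζ (cr X (fun k => C (w k)) k) = cr ζ w k := by
  fin_cases k <;> simp [cr]

theorem eval_Wp (e w ζ : Fin 3 → ℂ) (i : Fin 4) :
    eval ζ (Wp p e w i) = Wz p (cr e ζ) (cr ζ w) i := by
  unfold Wp Wz
  rw [W4_map]
  congr 1
  · funext j; rw [eval_cr_left]
  · funext j
    simp only [map_sum, map_mul, eval_cr_left, eval_cr_right, D1]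
  · funext j
    simp only [map_sum, map_mul, eval_cr_left, eval_cr_right, D2]

theorem Wp_prop {A : MvPolynomial (Fin 3 ⊕ Fin 3) ℂ}
    (hR : ∑ j, rename Sum.inl (p j) * rename Sum.inr (cj (p j)) = q 3 * A)
    (e w : Fin 3 → ℂ) (i j : Fin 4) :
    Wp p e w i * cj (p j) = Wp p e w j * cj (p i) := by
  apply MvPolynomial.funext
  intro ζ
  rw [map_mul, map_mul, eval_Wp, eval_Wp]
  exact W4_prop (g := fun j => eval ζ (cj (p j))) (ortho0 hR (cr_dot_right _ _))
    (ortho1 hR (cr_dot_right _ _) (cr_dot_left _ _))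
    (ortho2 hR (cr_dot_right _ _) (cr_dot_left _ _)) i j

theorem W4_poly (a b0 b1 c0 c1 c2 : Fin 4 → ℂ) (i : Fin 4) :
    ∃ w0 w1 w2 : ℂ, W4 (fun j => Polynomial.C (a j))
      (fun j => Polynomial.C (b0 j) + Polynomial.C (b1 j) * Polynomial.X)
      (fun j => Polynomial.C (c0 j) + Polynomial.C (c1 j) * Polynomial.X +
        Polynomial.C (c2 j) * Polynomial.X ^ 2) i =
      Polynomial.C (W4 a b1 c2 i) * Polynomial.X ^ 3 + Polynomial.C w2 * Polynomial.X ^ 2 +
        Polynomial.C w1 * Polynomial.X + Polynomial.C w0 := by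
  refine ⟨W4 a b0 c0 i, W4 a b0 c1 i + W4 a b1 c0 i, W4 a b0 c2 i + W4 a b1 c1 i, ?_⟩
  fin_cases i <;> simp [W4] <;> ring

/-- restriction of the polynomial `Wp` to a line in direction `e` -/
theorem crL_Wp (e w y : Fin 3 → ℂ) (i : Fin 4) :
    ∃ w0 w1 w2 : ℂ, crL e y (Wp p e w i) =
      Polynomial.C (Wz p (cr e y) (cr e w) i) * Polynomial.X ^ 3 +
        Polynomial.C w2 * Polynomial.X ^ 2 + Polynomial.C w1 * Polynomial.X +
        Polynomial.C w0 := by
  obtain ⟨w0, w1, w2, h⟩ := W4_poly (fun j => eval (cr e y) (p j))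
    (fun j => D1 (p j) (cr e y) (cr y w)) (fun j => D1 (p j) (cr e y) (cr e w))
    (fun j => D2 (p j) (cr e y) (cr y w) (cr y w))
    (fun j => D2 (p j) (cr e y) (cr y w) (cr e w) + D2 (p j) (cr e y) (cr e w) (cr y w))
    (fun j => D2 (p j) (cr e y) (cr e w) (cr e w)) i
  refine ⟨w0, w1, w2, ?_⟩
  unfold Wz
  rw [← h]
  apply Polynomial.funext
  intro x
  rw [crL_eval, eval_Wp, cr_line_left, cr_line_right]
  have h2 := W4_map (Polynomial.evalRingHom x) (fun j => Polynomial.C (eval (cr e y) (p j)))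
    (fun j => Polynomial.C (D1 (p j) (cr e y) (cr y w)) +
      Polynomial.C (D1 (p j) (cr e y) (cr e w)) * Polynomial.X)
    (fun j => Polynomial.C (D2 (p j) (cr e y) (cr y w) (cr y w)) +
      Polynomial.C (D2 (p j) (cr e y) (cr y w) (cr e w) + D2 (p j) (cr e y) (cr e w) (cr y w)) *
      Polynomial.X + Polynomial.C (D2 (p j) (cr e y) (cr e w) (cr e w)) * Polynomial.X ^ 2) i
  rw [Polynomial.coe_evalRingHom] at h2
  rw [h2]
  unfold Wz
  congr 1
  · funext j; simp
  · funext j; simp [D1_add, D1_smul]; ring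
  · funext j; simp [D2_add_left, D2_add_right, D2_smul_left, D2_smul_right]; ring

theorem key {A : MvPolynomial (Fin 3 ⊕ Fin 3) ℂ} {D : ℕ}
    (hR : ∑ j, rename Sum.inl (p j) * rename Sum.inr (cj (p j)) = q 3 * A)
    (hp : ∀ i, (p i).IsHomogeneous D) (hc : ∀ h, (∀ i, h ∣ cj (p i)) → IsUnit h)
    {e : Fin 3 → ℂ} {i0 : Fin 4} (he : eval e (cj (p i0)) ≠ 0) (y w : Fin 3 → ℂ)
    (h : 4 ≤ D ∨ D = 3 ∧ Wz p (cr e y) (cr e w) i0 = 0) (i : Fin 4) :
    (∀ x : ℂ, Wz p (cr e y) (cr y w + x • cr e w) i = 0) ∧ Wz p (cr e y) (cr e w) i = 0 := by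
  have hi0 : cj (p i0) ≠ 0 := by
    intro h0
    rw [h0, map_zero] at he
    exact he rfl
  obtain ⟨Λ, hΛ⟩ := exists_factor (Wp p e w) (fun i => cj (p i)) hc hi0 (Wp_prop hR e w)
  have hcj : (cj (p i0)).IsHomogeneous D := by
    unfold cj
    exact (hp i0).map _
  have hQ : ∀ i, crL e y (Wp p e w i) = crL e y Λ * crL e y (cj (p i)) := fun i => by
    rw [hΛ i, map_mul]
  have hdeg := crL_natDegree e y hcj he
  have hG0 : crL e y (cj (p i0)) ≠ 0 := by
    intro h0
    have h1 := (crL_hom e y hcj).2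
    rw [h0, Polynomial.coeff_zero] at h1
    exact he h1.symm
  have hΛ0 : crL e y Λ = 0 := by
    by_contra hne
    obtain ⟨w0, w1, w2, h3⟩ := crL_Wp (p := p) e w y i0
    have h4 : (crL e y (Wp p e w i0)).natDegree ≤ 3 := by
      rw [h3]; compute_degree
    rw [hQ i0, Polynomial.natDegree_mul hne hG0, hdeg] at h4
    rcases h with h | ⟨h, h5⟩
    · omega
    · have h6 : (crL e y Λ).natDegree = 0 := by omega
      rw [h5, map_zero, zero_mul, zero_add] at h3
      have h7 : (crL e y (Wp p e w i0)).natDegree ≤ 2 := by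
        rw [h3]; compute_degree
      rw [hQ i0, Polynomial.natDegree_mul hne hG0, hdeg] at h7
      omega
  have hz : ∀ i, crL e y (Wp p e w i) = 0 := fun i => by rw [hQ i, hΛ0, zero_mul]
  constructor
  · intro x
    have h1 := crL_eval e y (Wp p e w i) x
    rw [hz i, Polynomial.eval_zero, eval_Wp, cr_line_left, cr_line_right] at h1
    exact h1.symm
  · obtain ⟨w0, w1, w2, h3⟩ := crL_Wp (p := p) e w y i
    rw [hz i] at h3
    have h4 := congrArg (fun P => Polynomial.coeff P 3) h3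
    simpa [Polynomial.coeff_X, Polynomial.coeff_C] using h4.symm

end key

/-! ### homogeneity -/

section hom

variable {N D : ℕ}

theorem D1_self {f : MvPolynomial (Fin N) ℂ} (hf : f.IsHomogeneous D) (z : Fin N → ℂ) :
    D1 f z z = D * eval z f := by
  have h := congrArg (eval z) hf.sum_X_mul_pderiv
  rw [map_sum] at h
  simp only [map_mul, eval_X, nsmul_eq_mul, map_natCast] at h
  exact h

theorem pderiv_comm' (k l : Fin N) (f : MvPolynomial (Fin N) ℂ) :
    pderiv k (pderiv l f) = pderiv l (pderiv k f) := by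
  by_cases hkl : k = l
  · rw [hkl]
  · ext m
    rw [coeff_pderiv, coeff_pderiv, coeff_pderiv, coeff_pderiv, add_right_comm]
    have h1 : (Finsupp.single k 1 : Fin N →₀ ℕ) l = 0 :=
      Finsupp.single_eq_of_ne (Ne.symm hkl)
    have h2 : (Finsupp.single l 1 : Fin N →₀ ℕ) k = 0 :=
      Finsupp.single_eq_of_ne hkl
    simp only [Finsupp.add_apply, h1, h2, add_zero]
    ring

theorem D2_symm (f : MvPolynomial (Fin N) ℂ) (z u v : Fin N → ℂ) : D2 f z u v = D2 f z v u := by
  unfold D2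
  rw [Finset.sum_comm]
  refine Finset.sum_congr rfl fun k _ => Finset.sum_congr rfl fun l _ => ?_
  rw [pderiv_comm' l k]
  ring

theorem D2_self {f : MvPolynomial (Fin N) ℂ} (hf : f.IsHomogeneous (D + 1)) (z u : Fin N → ℂ) :
    D2 f z u z = D * D1 f z u := by
  unfold D2 D1
  rw [Finset.mul_sum]
  refine Finset.sum_congr rfl fun k _ => ?_
  have h := D1_self (f := pderiv k f) (D := D) (by simpa using hf.pderiv (i := k)) z
  unfold D1 at h
  simp only [mul_assoc]
  rw [← Finset.mul_sum, h]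
  ring

end hom

theorem D1_eq {N : ℕ} (f : MvPolynomial (Fin N) ℂ) (z u : Fin N → ℂ) (s : ℂ) :
    D1 f (z + s • u) u = (Polynomial.derivative (crL u z f)).eval s := by
  rw [derivative_crL, Polynomial.eval_finsetSum]
  simp only [Polynomial.eval_mul, Polynomial.eval_C, crL_eval]
  rfl

theorem D2_eq {N : ℕ} (f : MvPolynomial (Fin N) ℂ) (z u : Fin N → ℂ) (s : ℂ) :
    D2 f (z + s • u) u u =
      (Polynomial.derivative (Polynomial.derivative (crL u z f))).eval s := by
  rw [derivative_crL, Polynomial.derivative_sum, Polynomial.eval_finsetSum]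
  simp only [Polynomial.derivative_C_mul, Polynomial.eval_mul, Polynomial.eval_C, ← D1_eq]
  unfold D2 D1
  simp only [Finset.mul_sum, mul_assoc]

/-- cubic polynomials explicitly -/
theorem cubic_eq (F : Polynomial ℂ) (hF : F.natDegree ≤ 3) :
    F = Polynomial.C (F.coeff 3) * Polynomial.X ^ 3 + Polynomial.C (F.coeff 2) * Polynomial.X ^ 2 +
      Polynomial.C (F.coeff 1) * Polynomial.X + Polynomial.C (F.coeff 0) := by
  have h := F.as_sum_range_C_mul_X_pow' (n := 4) (by omega)
  rw [Finset.sum_range_succ, Finset.sum_range_succ, Finset.sum_range_succ,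
    Finset.sum_range_succ, Finset.sum_range_zero] at h
  rw [pow_zero, mul_one, pow_one, zero_add] at h
  conv_lhs => rw [h]
  ring

theorem Wz_smul {p : Fin 4 → MvPolynomial (Fin 3) ℂ} (z u : Fin 3 → ℂ) (c : ℂ) (i : Fin 4) :
    Wz p z (c • u) i = c ^ 3 * Wz p z u i := by
  unfold Wz
  simp only [D1_smul, D2_smul_left, D2_smul_right]
  fin_cases i <;> simp [W4] <;> ring

theorem Wz_add_smul {D : ℕ} {p : Fin 4 → MvPolynomial (Fin 3) ℂ}
    (hp : ∀ i, (p i).IsHomogeneous (D + 1)) (z u : Fin 3 → ℂ) (c : ℂ) (i : Fin 4) :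
    Wz p z (u + c • z) i = Wz p z u i := by
  unfold Wz
  have h2 : ∀ j, D2 (p j) z z u = D * D1 (p j) z u := fun j => by
    rw [D2_symm, D2_self (hp j)]
  simp only [D1_add, D1_smul, D2_smul_left, D2_smul_right, D2_add_left, D2_add_right,
    fun j => D1_self (hp j) z, fun j => D2_self (hp j) z u, fun j => D2_self (hp j) z z, h2]
  fin_cases i <;> simp [W4] <;> ring

theorem cr_cr (a b c : Fin 3 → ℂ) :
    cr (cr a b) c = (∑ k, a k * c k) • b - (∑ k, b k * c k) • a := by
  funext k; fin_cases k <;> simp [cr, Fin.sum_univ_three] <;> ring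

theorem cr_cr' (a b c : Fin 3 → ℂ) :
    cr a (cr b c) = (∑ k, a k * c k) • b - (∑ k, a k * b k) • c := by
  funext k; fin_cases k <;> simp [cr, Fin.sum_univ_three] <;> ring

theorem exists_flex {p : Fin 4 → MvPolynomial (Fin 3) ℂ} {A : MvPolynomial (Fin 3 ⊕ Fin 3) ℂ}
    (hR : ∑ j, rename Sum.inl (p j) * rename Sum.inr (cj (p j)) = q 3 * A)
    (hp : ∀ i, (p i).IsHomogeneous 3) (hc : ∀ h, (∀ i, h ∣ cj (p i)) → IsUnit h)
    {e g1 g2 r : Fin 3 → ℂ} {i0 : Fin 4} (he : eval e (cj (p i0)) ≠ 0)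
    (her : ∑ k, e k * r k = 1) (h12 : cr g1 g2 = e)
    (hz : ∀ x y : ℂ, ¬ (x = 0 ∧ y = 0) → ∃ j, eval (x • g1 + y • g2) (p j) ≠ 0) :
    ∃ z : Fin 3 → ℂ, (∃ j, eval z (p j) ≠ 0) ∧ ∀ u i, Wz p z u i = 0 := by
  have hg1 : ∑ k, g1 k * e k = 0 := by
    rw [← h12, ← cr_dot_left g1 g2]
    exact Finset.sum_congr rfl fun k _ => mul_comm _ _
  have hg2 : ∑ k, g2 k * e k = 0 := by
    rw [← h12, ← cr_dot_right g1 g2]
    exact Finset.sum_congr rfl fun k _ => mul_comm _ _
  let M : Matrix (Fin 4) (Fin 4) ℂ := Matrix.of fun i j => (crL g2 g1 (p j)).coeff i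
  have hdet : M.det = 0 := by
    rw [← Matrix.exists_mulVec_eq_zero_iff]
    refine ⟨fun j => eval e (cj (p j)), fun h => he (congrFun h i0), ?_⟩
    funext i
    exact ortho hR hg1 hg2 i
  obtain ⟨φ, hφ, hφM⟩ := Matrix.exists_vecMul_eq_zero_iff.2 hdet
  have hφ' : ∀ j, φ 0 * (crL g2 g1 (p j)).coeff 0 + φ 1 * (crL g2 g1 (p j)).coeff 1 +
      φ 2 * (crL g2 g1 (p j)).coeff 2 + φ 3 * (crL g2 g1 (p j)).coeff 3 = 0 := by
    intro j
    have h1 := congrFun hφM j
    simp only [Matrix.vecMul, dotProduct, Fin.sum_univ_four, Pi.zero_apply] at h1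
    exact h1
  obtain ⟨s, hs⟩ : ∃ s : ℂ, φ 0 * s ^ 3 - 3 * φ 1 * s ^ 2 + 3 * φ 2 * s - φ 3 = 0 := by
    by_cases h0 : φ 0 = 0 ∧ φ 1 = 0 ∧ φ 2 = 0
    · exfalso
      obtain ⟨h0, h1, h2⟩ := h0
      have h3 : φ 3 ≠ 0 := by
        intro h3
        apply hφ
        funext i
        fin_cases i
        · exact h0
        · exact h1
        · exact h2
        · exact h3
      obtain ⟨j, hj⟩ := hz 0 1 (by simp)
      have h4 := hφ' j
      rw [h0, h1, h2, (crL_hom g2 g1 (hp j)).2] at h4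
      rw [zero_smul, zero_add, one_smul] at hj
      simp [h3, hj] at h4
    · let P : Polynomial ℂ := Polynomial.C (φ 0) * Polynomial.X ^ 3 +
        Polynomial.C (-3 * φ 1) * Polynomial.X ^ 2 + Polynomial.C (3 * φ 2) * Polynomial.X +
        Polynomial.C (-φ 3)
      have hP : P.degree ≠ 0 := by
        intro hd
        apply h0
        have h1 := Polynomial.eq_C_of_degree_eq_zero hd
        have a1 := congrArg (fun Q => Polynomial.coeff Q 1) h1
        have a2 := congrArg (fun Q => Polynomial.coeff Q 2) h1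
        have a3 := congrArg (fun Q => Polynomial.coeff Q 3) h1
        simp only [P, Polynomial.coeff_add, Polynomial.coeff_C_mul, Polynomial.coeff_X_pow,
          Polynomial.coeff_X, Polynomial.coeff_C] at a1 a2 a3
        norm_num at a1 a2 a3
        exact ⟨a3, a2, a1⟩
      obtain ⟨s, hs⟩ := IsAlgClosed.exists_root P hP
      refine ⟨s, ?_⟩
      simp only [P, Polynomial.IsRoot.def, Polynomial.eval_add, Polynomial.eval_mul,
        Polynomial.eval_C, Polynomial.eval_X, Polynomial.eval_pow] at hs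
      linear_combination hs
  have hflex : ∀ i, Wz p (g1 + s • g2) g2 i = 0 := by
    intro i
    refine W4_zero_of_dep (x := φ 0) (y := φ 1 - s * φ 0)
      (z := (φ 2 - 2 * s * φ 1 + s ^ 2 * φ 0) / 2) ?_ ?_ i
    · rintro ⟨h0, h1, h2⟩
      apply hφ
      rw [h0, mul_zero, sub_zero] at h1
      rw [h0, h1] at h2
      have h2' : φ 2 = 0 := by linear_combination 2 * h2
      rw [h0, h1, h2'] at hs
      have h3' : φ 3 = 0 := by linear_combination -hs
      funext i
      fin_cases i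
      · exact h0
      · exact h1
      · exact h2'
      · exact h3'
    · intro j
      rw [D2_eq, D1_eq, ← crL_eval]
      have hF := cubic_eq _ (crL_hom g2 g1 (hp j)).1
      have h1 := hφ' j
      set c0 := (crL g2 g1 (p j)).coeff 0
      set c1 := (crL g2 g1 (p j)).coeff 1
      set c2 := (crL g2 g1 (p j)).coeff 2
      set c3 := (crL g2 g1 (p j)).coeff 3
      rw [hF]
      simp
      linear_combination h1 + c3 * hs
  have hze : ∑ k, (g1 + s • g2) k * e k = 0 := by
    have : ∑ k, (g1 + s • g2) k * e k = ∑ k, g1 k * e k + s * ∑ k, g2 k * e k := by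
      rw [Finset.mul_sum, ← Finset.sum_add_distrib]
      refine Finset.sum_congr rfl fun k _ => ?_
      simp only [Pi.add_apply, Pi.smul_apply, smul_eq_mul]
      ring
    rw [this, hg1, hg2]; ring
  set z := g1 + s • g2 with hzdef
  have hzg : cr z g2 = e := by
    rw [← h12]
    funext k; fin_cases k <;> simp [cr, hzdef] <;> ring
  have comm : ∀ a b : Fin 3 → ℂ, ∑ k, a k * b k = ∑ k, b k * a k :=
    fun a b => Finset.sum_congr rfl fun k _ => mul_comm _ _
  have e1 : cr e (cr z r) = z := by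
    rw [cr_cr', her, comm e z, hze]; simp
  have e2 : cr e (cr g2 r) = g2 := by
    rw [cr_cr', her, comm e g2, hg2]; simp
  have e3 : cr (cr z r) (cr g2 r) = r := by
    have h1 : cr (cr z r) (cr g2 r) = (∑ k, r k * cr z g2 k) • r := by
      funext k; fin_cases k <;> simp [cr, Fin.sum_univ_three] <;> ring
    rw [h1, hzg, comm r e, her, one_smul]
  have hkey := fun i => key hR hp hc he (cr z r) (cr g2 r)
    (Or.inr ⟨rfl, by rw [e1, e2]; exact hflex i0⟩) i
  rw [e1, e2, e3] at hkey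
  refine ⟨z, ?_, ?_⟩
  · obtain ⟨j, hj⟩ := hz 1 s (by simp)
    rw [one_smul] at hj
    exact ⟨j, hj⟩
  · intro u i
    -- decomposition
    obtain ⟨β, hβ⟩ : ∃ β, β = ∑ k, e k * u k := ⟨_, rfl⟩
    let v := u - β • r
    have hv : ∑ k, e k * v k = 0 := by
      have : ∑ k, e k * v k = ∑ k, e k * u k - β * ∑ k, e k * r k := by
        rw [Finset.mul_sum, ← Finset.sum_sub_distrib]
        refine Finset.sum_congr rfl fun k _ => ?_
        simp only [v, Pi.sub_apply, Pi.smul_apply, smul_eq_mul]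
        ring
      rw [this, her, ← hβ]; ring
    have hv2 : v = cr (cr z g2) (cr v r) := by
      rw [hzg, cr_cr', her, hv]; simp
    rw [cr_cr] at hv2
    set γ := ∑ k, z k * cr v r k with hγ
    set α := -∑ k, g2 k * cr v r k with hα
    have hu : u = (β • r + γ • g2) + α • z := by
      have h1 : u = β • r + v := by simp [v]
      rw [h1, hv2, hα]
      module
    rw [hu, Wz_add_smul hp]
    by_cases hβ0 : β = 0
    · rw [hβ0, zero_smul, zero_add, Wz_smul, (hkey i).2, mul_zero]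
    · have h1 : β • r + γ • g2 = β • (r + (γ / β) • g2) := by
        rw [smul_add, smul_smul, mul_div_cancel₀ _ hβ0]
      rw [h1, Wz_smul, (hkey i).1, mul_zero]

end Pool.Agent.Lib_helper49.N3
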