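import Pool.Agent.Lib_helper49.N3.Cubic
import Pool.Agent.Lib_helper49.N3.Flex
import Pool.Agent.Lib_helper52.Ebe.P
import Pool.Agent.Lib_helper26.Ebe.Ker

/-!
# From polynomials to the Gram relations
-/

set_option autoImplicit false

namespace Pool.Agent.Lib_helper49.N3

open MvPolynomial Pool.Agent.Lib_helper26.SOS Pool.Agent.Lib_helper26.Ebe

theorem coeff_pse_mul {n : ℕ} (f g : MvPolynomial (Fin n) ℂ) (a b : Fin n →₀ ℕ) :
    coeff (pse a b) (rename Sum.inl f * rename Sum.inr g) = coeff a f * coeff b g := by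
  classical
  induction f using MvPolynomial.induction_on' with
  | add p q hp hq => rw [map_add, add_mul, coeff_add, hp, hq, coeff_add, add_mul]
  | monomial u c =>
    induction g using MvPolynomial.induction_on' with
    | add p q hp hq => rw [map_add, mul_add, coeff_add, hp, hq, coeff_add, mul_add]
    | monomial v d =>
      rw [rename_mul_monomial, coeff_monomial, coeff_monomial, coeff_monomial]
      by_cases h1 : u = a
      · by_cases h2 : v = b
        · rw [h1, h2]; simp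
        · rw [if_neg, if_neg h2, mul_zero]
          exact fun h => h2 (pse_inj h).2
      · rw [if_neg, if_neg h1, zero_mul]
        exact fun h => h1 (pse_inj h).1

/-- exponents in three variables -/
noncomputable def mon3 (a b c : ℕ) : Fin 3 →₀ ℕ := Finsupp.equivFunOnFinite.symm ![a, b, c]

theorem mon3_apply_zero (a b c : ℕ) : mon3 a b c 0 = a := rfl
theorem mon3_apply_one (a b c : ℕ) : mon3 a b c 1 = b := rfl
theorem mon3_apply_two (a b c : ℕ) : mon3 a b c 2 = c := rfl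

theorem pse_sub {n : ℕ} (a b : Fin n →₀ ℕ) (k : Fin n) :
    pse a b - Finsupp.single (Sum.inl k) 1 - Finsupp.single (Sum.inr k) 1 =
      pse (a - Finsupp.single k 1) (b - Finsupp.single k 1) := by
  ext i
  rcases i with i | i
  · rw [pse_inl]
    simp only [Finsupp.tsub_apply, pse_inl]
    by_cases h : k = i
    · subst h; simp
    · rw [Finsupp.single_eq_of_ne (by simpa using Ne.symm h),
        Finsupp.single_eq_of_ne (by simp), Finsupp.single_eq_of_ne (Ne.symm h)]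
      simp
  · rw [pse_inr]
    simp only [Finsupp.tsub_apply, pse_inr]
    by_cases h : k = i
    · subst h; simp
    · rw [Finsupp.single_eq_of_ne (by simp),
        Finsupp.single_eq_of_ne (by simpa using Ne.symm h), Finsupp.single_eq_of_ne (Ne.symm h)]
      simp

theorem coeff_q_mul {n : ℕ} (A : MvPolynomial (Fin n ⊕ Fin n) ℂ) (a b : Fin n →₀ ℕ) :
    coeff (pse a b) (q n * A) = ∑ k, if 1 ≤ a k ∧ 1 ≤ b k then
      coeff (pse (a - Finsupp.single k 1) (b - Finsupp.single k 1)) A else 0 := by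
  unfold q
  rw [Finset.sum_mul, coeff_sum]
  refine Finset.sum_congr rfl fun k _ => ?_
  rw [mul_assoc, coeff_X_mul']
  by_cases h1 : 1 ≤ a k
  · rw [if_pos (by rw [Finsupp.mem_support_iff, pse_inl]; omega), coeff_X_mul']
    by_cases h2 : 1 ≤ b k
    · rw [if_pos, if_pos ⟨h1, h2⟩, pse_sub]
      rw [Finsupp.mem_support_iff, Finsupp.tsub_apply, pse_inr,
        Finsupp.single_eq_of_ne (by simp)]
      omega
    · rw [if_neg, if_neg (fun h => h2 h.2)]
      rw [Finsupp.mem_support_iff, Finsupp.tsub_apply, pse_inr,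
        Finsupp.single_eq_of_ne (by simp)]
      omega
  · rw [if_neg (by rw [Finsupp.mem_support_iff, pse_inl]; omega), if_neg (fun h => h1 h.1)]

/-- coefficients of `A` -/
noncomputable def Ac (A : MvPolynomial (Fin 3 ⊕ Fin 3) ℂ) (a b c a' b' c' : ℕ) : ℂ :=
  coeff (pse (mon3 a b c) (mon3 a' b' c')) A

theorem mon3_sub_zero (a b c : ℕ) : mon3 a b c - Finsupp.single 0 1 = mon3 (a - 1) b c := by
  ext i; fin_cases i <;> simp [mon3]

theorem mon3_sub_one (a b c : ℕ) : mon3 a b c - Finsupp.single 1 1 = mon3 a (b - 1) c := by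
  ext i; fin_cases i <;> simp [mon3]

theorem mon3_sub_two (a b c : ℕ) : mon3 a b c - Finsupp.single 2 1 = mon3 a b (c - 1) := by
  ext i; fin_cases i <;> simp [mon3]

theorem coeff_q3 (A : MvPolynomial (Fin 3 ⊕ Fin 3) ℂ) (a b c a' b' c' : ℕ) :
    coeff (pse (mon3 a b c) (mon3 a' b' c')) (q 3 * A) =
      (if 1 ≤ a ∧ 1 ≤ a' then Ac A (a - 1) b c (a' - 1) b' c' else 0) +
      (if 1 ≤ b ∧ 1 ≤ b' then Ac A a (b - 1) c a' (b' - 1) c' else 0) +
      (if 1 ≤ c ∧ 1 ≤ c' then Ac A a b (c - 1) a' b' (c' - 1) else 0) := by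
  rw [coeff_q_mul, Fin.sum_univ_three, mon3_sub_zero, mon3_sub_zero, mon3_sub_one, mon3_sub_one,
    mon3_sub_two, mon3_sub_two]
  rfl

/-- the coefficient vectors -/
noncomputable def cv (p : Fin 4 → MvPolynomial (Fin 3) ℂ) (a b c : ℕ) : EuclideanSpace ℂ (Fin 4) :=
  WithLp.toLp 2 (fun j => coeff (mon3 a b c) (p j))

theorem inner_cv {p : Fin 4 → MvPolynomial (Fin 3) ℂ} {A : MvPolynomial (Fin 3 ⊕ Fin 3) ℂ}
    (hR : ∑ j, rename Sum.inl (p j) * rename Sum.inr (cj (p j)) = q 3 * A)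
    (a b c a' b' c' : ℕ) :
    inner ℂ (cv p a' b' c') (cv p a b c) =
      (if 1 ≤ a ∧ 1 ≤ a' then Ac A (a - 1) b c (a' - 1) b' c' else 0) +
      (if 1 ≤ b ∧ 1 ≤ b' then Ac A a (b - 1) c a' (b' - 1) c' else 0) +
      (if 1 ≤ c ∧ 1 ≤ c' then Ac A a b (c - 1) a' b' (c' - 1) else 0) := by
  rw [← coeff_q3, ← hR, coeff_sum, PiLp.inner_apply]
  refine Finset.sum_congr rfl fun j _ => ?_
  rw [coeff_pse_mul]
  simp [cv, cj, coeff_map]

theorem cubRel {p : Fin 4 → MvPolynomial (Fin 3) ℂ} {A : MvPolynomial (Fin 3 ⊕ Fin 3) ℂ}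
    (hR : ∑ j, rename Sum.inl (p j) * rename Sum.inr (cj (p j)) = q 3 * A)
    (hP : inner ℂ (cv p 3 0 0) (cv p 3 0 0) = (1 : ℂ)) :
    CubRel (cv p 3 0 0) (cv p 2 1 0) (cv p 2 0 1) (cv p 1 2 0) (cv p 1 1 1) (cv p 1 0 2)
      (cv p 0 3 0) (cv p 0 2 1) (cv p 0 1 2) (cv p 0 0 3) := by
  have h1 : Ac A 2 0 0 2 0 0 = 1 := by
    rw [inner_cv hR] at hP
    simpa using hP
  constructor
  · exact hP
  all_goals
    simp only [inner_cv hR]
    simp [h1]
  all_goals ring

/-! ### unitary changes of coordinates -/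

/-- The columns of `g` are orthonormal. -/
def Uni {n k : ℕ} (g : Fin n × Fin k → ℂ) : Prop :=
  ∀ a b, ∑ i, g (i, a) * (starRingEnd ℂ) (g (i, b)) = if a = b then 1 else 0

theorem cj_sub {n k : ℕ} (g : Fin n × Fin k → ℂ) (f : MvPolynomial (Fin n) ℂ) :
    cj (sub g f) = sub (fun x => (starRingEnd ℂ) (g x)) (cj f) := by
  have h : (MvPolynomial.map (starRingEnd ℂ)).comp (sub g).toRingHom =
      ((sub (fun x => (starRingEnd ℂ) (g x))).toRingHom).comp
        (MvPolynomial.map (starRingEnd ℂ)) := by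
    apply MvPolynomial.ringHom_ext
    · intro c
      simp [sub]
    · intro i
      simp [sub]
  exact RingHom.congr_fun h f

/-- simultaneous substitution -/
noncomputable def Phi {n k : ℕ} (g : Fin n × Fin k → ℂ) :
    MvPolynomial (Fin n ⊕ Fin n) ℂ →ₐ[ℂ] MvPolynomial (Fin k ⊕ Fin k) ℂ :=
  aeval (Sum.elim (fun i => ∑ j, C (g (i, j)) * X (Sum.inl j))
    (fun i => ∑ j, C ((starRingEnd ℂ) (g (i, j))) * X (Sum.inr j)))

theorem Phi_inl {n k : ℕ} (g : Fin n × Fin k → ℂ) (f : MvPolynomial (Fin n) ℂ) :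
    Phi g (rename Sum.inl f) = rename Sum.inl (sub g f) := by
  have h : (Phi g).comp (rename Sum.inl) = (rename Sum.inl).comp (sub g) := by
    apply MvPolynomial.algHom_ext
    intro i
    simp [Phi, sub]
  exact AlgHom.congr_fun h f

theorem Phi_inr {n k : ℕ} (g : Fin n × Fin k → ℂ) (f : MvPolynomial (Fin n) ℂ) :
    Phi g (rename Sum.inr f) = rename Sum.inr (sub (fun x => (starRingEnd ℂ) (g x)) f) := by
  have h : (Phi g).comp (rename Sum.inr) =
      (rename Sum.inr).comp (sub (fun x => (starRingEnd ℂ) (g x))) := by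
    apply MvPolynomial.algHom_ext
    intro i
    simp [Phi, sub]
  exact AlgHom.congr_fun h f

theorem Phi_q {n k : ℕ} (g : Fin n × Fin k → ℂ) (hg : Uni g) : Phi g (q n) = q k := by
  unfold q Phi
  simp only [map_sum, map_mul, aeval_X, Sum.elim_inl, Sum.elim_inr]
  simp only [Finset.sum_mul_sum]
  rw [Finset.sum_comm]
  refine Finset.sum_congr rfl fun a _ => ?_
  rw [Finset.sum_comm]
  have h1 : ∀ b : Fin k, ∑ i, C (g (i, a)) * X (Sum.inl a) *
      (C ((starRingEnd ℂ) (g (i, b))) * X (Sum.inr b)) =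
      (C (if a = b then 1 else 0) * (X (Sum.inl a) * X (Sum.inr b)) :
        MvPolynomial (Fin k ⊕ Fin k) ℂ) := by
    intro b
    rw [← hg a b, map_sum, Finset.sum_mul]
    refine Finset.sum_congr rfl fun i _ => ?_
    rw [map_mul]; ring
  simp only [h1]
  simp

theorem hR_sub {n k : ℕ} {ι : Type*} [Fintype ι] {p : ι → MvPolynomial (Fin n) ℂ}
    {A : MvPolynomial (Fin n ⊕ Fin n) ℂ} {g : Fin n × Fin k → ℂ} (hg : Uni g)
    (hR : ∑ j, rename Sum.inl (p j) * rename Sum.inr (cj (p j)) = q n * A) :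
    ∑ j, rename Sum.inl (sub g (p j)) * rename Sum.inr (cj (sub g (p j))) = q k * Phi g A := by
  have h := congrArg (Phi g) hR
  rw [map_sum, map_mul, Phi_q g hg] at h
  rw [← h]
  refine Finset.sum_congr rfl fun j _ => ?_
  rw [map_mul, Phi_inl, Phi_inr, cj_sub]

/-! ### expansion of ternary cubics -/

theorem mon3_inj {a b c a' b' c' : ℕ} (h : mon3 a b c = mon3 a' b' c') :
    a = a' ∧ b = b' ∧ c = c' :=
  ⟨DFunLike.congr_fun h 0, DFunLike.congr_fun h 1, DFunLike.congr_fun h 2⟩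

theorem mon3_surj (m : Fin 3 →₀ ℕ) : mon3 (m 0) (m 1) (m 2) = m := by
  ext i; fin_cases i <;> rfl

/-- the ten exponents -/
def T10 : Finset (ℕ × ℕ × ℕ) :=
  {(3, 0, 0), (2, 1, 0), (2, 0, 1), (1, 2, 0), (1, 1, 1), (1, 0, 2), (0, 3, 0), (0, 2, 1),
    (0, 1, 2), (0, 0, 3)}

theorem mem_T10 {a b c : ℕ} (h : a + b + c = 3) : (a, b, c) ∈ T10 := by
  have ha : a ≤ 3 := by omega
  have hb : b ≤ 3 := by omega
  obtain rfl : c = 3 - a - b := by omega
  interval_cases a <;> interval_cases b <;> first | omega | decide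

theorem deg_of_coeff_ne {f : MvPolynomial (Fin 3) ℂ} (hf : f.IsHomogeneous 3) {m : Fin 3 →₀ ℕ}
    (hm : coeff m f ≠ 0) : m 0 + m 1 + m 2 = 3 := by
  have := hf hm
  rw [Finsupp.weight_apply, Finsupp.sum_fintype _ _ (by simp), Fin.sum_univ_three] at this
  simpa using this

theorem cubic_expand {f : MvPolynomial (Fin 3) ℂ} (hf : f.IsHomogeneous 3) (x : Fin 3 → ℂ) :
    eval x f = ∑ t ∈ T10, coeff (mon3 t.1 t.2.1 t.2.2) f *
      (x 0 ^ t.1 * x 1 ^ t.2.1 * x 2 ^ t.2.2) := by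
  classical
  rw [eval_eq]
  have hS : f.support ⊆ T10.map ⟨fun t : ℕ × ℕ × ℕ => mon3 t.1 t.2.1 t.2.2, by
      rintro ⟨a, b, c⟩ ⟨a', b', c'⟩ h
      obtain ⟨h1, h2, h3⟩ := mon3_inj h
      simp only at h1 h2 h3
      rw [h1, h2, h3]⟩ := by
    intro m hm
    rw [Finset.mem_map]
    exact ⟨(m 0, m 1, m 2), mem_T10 (deg_of_coeff_ne hf (mem_support_iff.1 hm)), mon3_surj m⟩
  rw [Finset.sum_subset hS (fun m _ hm => by rw [notMem_support_iff.1 hm, zero_mul]),
    Finset.sum_map]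
  refine Finset.sum_congr rfl fun t _ => ?_
  congr 1
  rw [Finset.prod_subset (Finset.subset_univ _) (fun i _ hi => by
    rw [Finsupp.notMem_support_iff.1 hi, pow_zero]), Fin.prod_univ_three]
  rfl

theorem cubic_expand' {f : MvPolynomial (Fin 3) ℂ} (hf : f.IsHomogeneous 3) (x y t : ℂ) :
    eval ![x, y, t] f = coeff (mon3 3 0 0) f * x ^ 3 + coeff (mon3 2 1 0) f * (x ^ 2 * y) +
      coeff (mon3 2 0 1) f * (x ^ 2 * t) + coeff (mon3 1 2 0) f * (x * y ^ 2) +
      coeff (mon3 1 1 1) f * (x * y * t) + coeff (mon3 1 0 2) f * (x * t ^ 2) +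
      coeff (mon3 0 3 0) f * y ^ 3 + coeff (mon3 0 2 1) f * (y ^ 2 * t) +
      coeff (mon3 0 1 2) f * (y * t ^ 2) + coeff (mon3 0 0 3) f * t ^ 3 := by
  rw [cubic_expand hf]
  simp [T10]
  ring

theorem sub_isHomogeneous {n k D : ℕ} (g : Fin n × Fin k → ℂ) {f : MvPolynomial (Fin n) ℂ}
    (hf : f.IsHomogeneous D) : (sub g f).IsHomogeneous D := by
  unfold sub
  have := hf.aeval (fun i => ∑ j, C (g (i, j)) * X j) (n := 1) ?_
  · simpa using this
  · intro i
    refine IsHomogeneous.sum _ _ _ fun j _ => ?_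
    simpa using (isHomogeneous_C_mul_X (g (i, j)) j)

/-! ### coefficients and derivatives -/

/-- the matrix with columns `e, w0, w1` -/
def gm (e w0 w1 : Fin 3 → ℂ) : Fin 3 × Fin 3 → ℂ := fun x => ![e x.1, w0 x.1, w1 x.1] x.2

theorem mv_gm (e w0 w1 : Fin 3 → ℂ) (x y t : ℂ) :
    mv (gm e w0 w1) ![x, y, t] = x • e + y • w0 + t • w1 := by
  funext i
  simp [mv, gm, Fin.sum_univ_three]
  ring

theorem crL_frame {f : MvPolynomial (Fin 3) ℂ} (hf : f.IsHomogeneous 3) (e w0 w1 : Fin 3 → ℂ)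
    (y t : ℂ) :
    crL (y • w0 + t • w1) e f =
      Polynomial.C (coeff (mon3 3 0 0) (sub (gm e w0 w1) f)) +
      Polynomial.C (y * coeff (mon3 2 1 0) (sub (gm e w0 w1) f) +
        t * coeff (mon3 2 0 1) (sub (gm e w0 w1) f)) * Polynomial.X +
      Polynomial.C (y ^ 2 * coeff (mon3 1 2 0) (sub (gm e w0 w1) f) +
        y * t * coeff (mon3 1 1 1) (sub (gm e w0 w1) f) +
        t ^ 2 * coeff (mon3 1 0 2) (sub (gm e w0 w1) f)) * Polynomial.X ^ 2 +
      Polynomial.C (y ^ 3 * coeff (mon3 0 3 0) (sub (gm e w0 w1) f) +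
        y ^ 2 * t * coeff (mon3 0 2 1) (sub (gm e w0 w1) f) +
        y * t ^ 2 * coeff (mon3 0 1 2) (sub (gm e w0 w1) f) +
        t ^ 3 * coeff (mon3 0 0 3) (sub (gm e w0 w1) f)) * Polynomial.X ^ 3 := by
  apply Polynomial.funext
  intro τ
  rw [crL_eval]
  have h1 : e + τ • (y • w0 + t • w1) = mv (gm e w0 w1) ![1, τ * y, τ * t] := by
    rw [mv_gm]
    module
  rw [h1, ← Pool.Agent.Lib_helper26.Ebe.eval_sub, cubic_expand' (sub_isHomogeneous _ hf)]
  simp only [Polynomial.eval_add, Polynomial.eval_mul, Polynomial.eval_C, Polynomial.eval_X,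
    Polynomial.eval_pow]
  ring

theorem coeff_300 {f : MvPolynomial (Fin 3) ℂ} (hf : f.IsHomogeneous 3) (e w0 w1 : Fin 3 → ℂ) :
    coeff (mon3 3 0 0) (sub (gm e w0 w1) f) = eval e f := by
  have h := crL_frame hf e w0 w1 0 0
  have h2 := congrArg (fun P => Polynomial.coeff P 0) h
  simp only [crL_coeff_zero] at h2
  rw [h2]
  simp

theorem D1_frame {f : MvPolynomial (Fin 3) ℂ} (hf : f.IsHomogeneous 3) (e w0 w1 : Fin 3 → ℂ)
    (y t : ℂ) : D1 f e (y • w0 + t • w1) = y * coeff (mon3 2 1 0) (sub (gm e w0 w1) f) +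
        t * coeff (mon3 2 0 1) (sub (gm e w0 w1) f) := by
  rw [← crL_coeff_one, crL_frame hf e w0 w1 y t]
  simp only [Polynomial.coeff_add, Polynomial.coeff_C_mul, Polynomial.coeff_X_pow,
    Polynomial.coeff_X, Polynomial.coeff_C]
  norm_num

theorem D2_frame {f : MvPolynomial (Fin 3) ℂ} (hf : f.IsHomogeneous 3) (e w0 w1 : Fin 3 → ℂ)
    (y t : ℂ) : D2 f e (y • w0 + t • w1) (y • w0 + t • w1) =
      2 * (y ^ 2 * coeff (mon3 1 2 0) (sub (gm e w0 w1) f) +
        y * t * coeff (mon3 1 1 1) (sub (gm e w0 w1) f) +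
        t ^ 2 * coeff (mon3 1 0 2) (sub (gm e w0 w1) f)) := by
  rw [← crL_coeff_two, crL_frame hf e w0 w1 y t]
  simp only [Polynomial.coeff_add, Polynomial.coeff_C_mul, Polynomial.coeff_X_pow,
    Polynomial.coeff_X, Polynomial.coeff_C]
  norm_num

/-! ### choice of the frame -/

theorem binary_root (A B C : ℂ) : ∃ Y T : ℂ, ¬ (Y = 0 ∧ T = 0) ∧
    A * Y ^ 2 + B * (Y * T) + C * T ^ 2 = 0 := by
  by_cases hA : A = 0
  · exact ⟨1, 0, by simp, by rw [hA]; ring⟩
  · let P : Polynomial ℂ := Polynomial.C A * Polynomial.X ^ 2 +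
      Polynomial.C B * Polynomial.X + Polynomial.C C
    have hP : P.degree ≠ 0 := by
      rw [Polynomial.degree_quadratic hA]
      decide
    obtain ⟨s, hs⟩ := IsAlgClosed.exists_root P hP
    refine ⟨s, 1, by simp, ?_⟩
    simp only [P, Polynomial.IsRoot.def, Polynomial.eval_add, Polynomial.eval_mul,
      Polynomial.eval_C, Polynomial.eval_X, Polynomial.eval_pow] at hs
    linear_combination hs

theorem normalize (Y T : ℂ) (h : ¬ (Y = 0 ∧ T = 0)) : ∃ c : ℝ, c ≠ 0 ∧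
    (c * Y) * (starRingEnd ℂ) (c * Y) + (c * T) * (starRingEnd ℂ) (c * T) = 1 := by
  have h1 : 0 < Complex.normSq Y + Complex.normSq T := by
    have a := Complex.normSq_nonneg Y
    have b := Complex.normSq_nonneg T
    rcases lt_or_eq_of_le a with a' | a'
    · linarith
    · rcases lt_or_eq_of_le b with b' | b'
      · linarith
      · exact absurd ⟨Complex.normSq_eq_zero.1 a'.symm, Complex.normSq_eq_zero.1 b'.symm⟩ h
  refine ⟨(Real.sqrt (Complex.normSq Y + Complex.normSq T))⁻¹, by positivity, ?_⟩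
  rw [Complex.mul_conj, Complex.mul_conj]
  simp only [Complex.normSq_mul, Complex.normSq_ofReal]
  rw [← Complex.ofReal_add, ← mul_add, ← Complex.ofReal_one]
  congr 1
  have h2 := Real.mul_self_sqrt h1.le
  have h3 : Real.sqrt (Complex.normSq Y + Complex.normSq T) ≠ 0 := by positivity
  field_simp
  rw [sq]
  exact h2.symm


theorem choose_frame {H : Type*} [NormedAddCommGroup H] [InnerProductSpace ℂ H] (Qa Qb : H)
    (m0 m1 : ℂ) : ∃ y t : ℂ, y * (starRingEnd ℂ) y + t * (starRingEnd ℂ) t = 1 ∧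
      inner ℂ (y • Qa + t • Qb) ((-(starRingEnd ℂ) t) • Qa + ((starRingEnd ℂ) y) • Qb) = (0 : ℂ) ∧
      (y • Qa + t • Qb = 0 → (-(starRingEnd ℂ) t) • Qa + ((starRingEnd ℂ) y) • Qb = 0 → y * m0 + t * m1 = 0) := by
  by_cases h : Qa = 0 ∧ Qb = 0
  · obtain ⟨rfl, rfl⟩ := h
    by_cases hm : m0 = 0 ∧ m1 = 0
    · refine ⟨1, 0, by simp, by simp, fun _ _ => ?_⟩
      rw [hm.1, hm.2]; ring
    · obtain ⟨c, _, hc⟩ := normalize m1 (-m0) (fun h => hm ⟨neg_eq_zero.1 h.2, h.1⟩)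
      refine ⟨c * m1, c * (-m0), hc, by simp, fun _ _ => ?_⟩
      ring
  · obtain ⟨Y, T, hYT, hroot⟩ := binary_root (inner ℂ Qa Qb)
      (inner ℂ Qb Qb - inner ℂ Qa Qa) (-inner ℂ Qb Qa)
    have hYT' : ¬ ((starRingEnd ℂ) Y = 0 ∧ (starRingEnd ℂ) T = 0) := fun h => hYT ⟨cc_zero h.1, cc_zero h.2⟩
    obtain ⟨c, hc0, hc⟩ := normalize ((starRingEnd ℂ) Y) ((starRingEnd ℂ) T) hYT'
    refine ⟨c * (starRingEnd ℂ) Y, c * (starRingEnd ℂ) T, hc, ?_, fun h1 h2 => ?_⟩
    · simp only [inner_add_left, inner_add_right, inner_smul_left, inner_smul_right, map_mul,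
        Complex.conj_ofReal, Complex.conj_conj]
      linear_combination (c : ℂ) ^ 2 * hroot
    · exfalso
      apply h
      obtain ⟨y, hy⟩ : ∃ y, y = c * (starRingEnd ℂ) Y := ⟨_, rfl⟩
      obtain ⟨t, ht⟩ : ∃ t, t = c * (starRingEnd ℂ) T := ⟨_, rfl⟩
      rw [← hy, ← ht] at h1 h2 hc
      constructor
      · have : Qa = (y * (starRingEnd ℂ) y + t * (starRingEnd ℂ) t) • Qa := by rw [hc, one_smul]
        have h3 : (y * (starRingEnd ℂ) y + t * (starRingEnd ℂ) t) • Qa = (starRingEnd ℂ) y • (y • Qa + t • Qb) -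
            t • ((-(starRingEnd ℂ) t) • Qa + ((starRingEnd ℂ) y) • Qb) := by module
        rw [this, h3, h1, h2]; simp
      · have : Qb = (y * (starRingEnd ℂ) y + t * (starRingEnd ℂ) t) • Qb := by rw [hc, one_smul]
        have h3 : (y * (starRingEnd ℂ) y + t * (starRingEnd ℂ) t) • Qb = (starRingEnd ℂ) t • (y • Qa + t • Qb) +
            y • ((-(starRingEnd ℂ) t) • Qa + ((starRingEnd ℂ) y) • Qb) := by module
        rw [this, h3, h1, h2]; simp

theorem exists_frame {e : Fin 3 → ℂ} (he : ∑ i, e i * (starRingEnd ℂ) (e i) = 1) :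
    ∃ w0 w1 : Fin 3 → ℂ, Uni (gm e w0 w1) := by
  let E := EuclideanSpace ℂ (Fin 3)
  let v : Fin 3 → E := fun _ => WithLp.toLp 2 e
  have hv : Orthonormal ℂ (({0} : Set (Fin 3)).domRestrict v) := by
    rw [orthonormal_iff_ite]
    intro i j
    have hij : i = j := Subsingleton.elim _ _
    rw [if_pos hij]
    change inner ℂ (WithLp.toLp 2 e) (WithLp.toLp 2 e) = (1 : ℂ)
    rw [PiLp.inner_apply, ← he]
    refine Finset.sum_congr rfl fun i _ => ?_
    simp only [RCLike.inner_apply]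
  obtain ⟨b, hb⟩ := hv.exists_orthonormalBasis_extension_of_card_eq (by simp [E])
  refine ⟨fun i => b 1 i, fun i => b 2 i, ?_⟩
  have hb0 : b 0 = WithLp.toLp 2 e := hb 0 rfl
  have hcol : ∀ k i, gm e (fun i => b 1 i) (fun i => b 2 i) (i, k) = b k i := by
    intro k i
    fin_cases k
    · change e i = b 0 i
      rw [hb0]
    · rfl
    · rfl
  intro k l
  have h1 := b.inner_eq_ite l k
  rw [PiLp.inner_apply] at h1
  simp only [hcol]
  rw [show (if k = l then (1:ℂ) else 0) = if l = k then 1 else 0 by simp [eq_comm], ← h1]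
  refine Finset.sum_congr rfl fun i _ => ?_
  simp

end Pool.Agent.Lib_helper49.N3
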