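import Pool.Agent.Lib_helper49.N3.Flex
import Pool.Agent.Lib_helper26.Ebe.Ker
import Pool.Agent.Lib_helper26.Ebe.Div

/-!
# Degree at least four
-/

set_option autoImplicit false

namespace Pool.Agent.Lib_helper49.N3

section wr

open Polynomial

theorem wr_degree {a b : ℂ[X]} (ha : a ≠ 0) (hb : b ≠ 0)
    (h : a * derivative b = derivative a * b) : a.natDegree = b.natDegree := by
  have hθ : ∀ f : ℂ[X], (X * derivative f).natDegree ≤ f.natDegree ∧
      (X * derivative f).coeff f.natDegree = f.natDegree * f.leadingCoeff := by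
    intro f
    have hc : ∀ n, (X * derivative f).coeff n = n * f.coeff n := by
      intro n
      rcases n with _ | n
      · simp
      · rw [coeff_X_mul, coeff_derivative]; push_cast; ring
    refine ⟨?_, hc _⟩
    rw [natDegree_le_iff_coeff_eq_zero]
    intro N hN
    rw [hc, coeff_eq_zero_of_natDegree_lt hN, mul_zero]
  have h2 : a * (X * derivative b) = (X * derivative a) * b := by linear_combination X * h
  have h3 := congrArg (fun P => coeff P (a.natDegree + b.natDegree)) h2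
  rw [coeff_mul_add_eq_of_natDegree_le le_rfl (hθ b).1,
    coeff_mul_add_eq_of_natDegree_le (hθ a).1 le_rfl, (hθ b).2, (hθ a).2] at h3
  have la : a.leadingCoeff ≠ 0 := leadingCoeff_ne_zero.2 ha
  have lb : b.leadingCoeff ≠ 0 := leadingCoeff_ne_zero.2 hb
  have h4 : ((a.natDegree : ℂ) - b.natDegree) * (a.leadingCoeff * b.leadingCoeff) = 0 := by
    have e1 : a.coeff a.natDegree = a.leadingCoeff := rfl
    have e2 : b.coeff b.natDegree = b.leadingCoeff := rfl
    rw [e1, e2] at h3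
    linear_combination -h3
  have h5 := (mul_eq_zero.1 h4).resolve_right (mul_ne_zero la lb)
  exact_mod_cast sub_eq_zero.1 h5

theorem wr2 (a b : ℂ[X]) (h : a * derivative b = derivative a * b) :
    ∃ α β : ℂ, ¬ (α = 0 ∧ β = 0) ∧ C α * a + C β * b = 0 := by
  by_cases ha : a = 0
  · exact ⟨1, 0, by simp, by rw [ha]; simp⟩
  by_cases hb : b = 0
  · exact ⟨0, 1, by simp, by rw [hb]; simp⟩
  have hd := wr_degree ha hb h
  have la : a.leadingCoeff ≠ 0 := leadingCoeff_ne_zero.2 ha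
  have lb : b.leadingCoeff ≠ 0 := leadingCoeff_ne_zero.2 hb
  refine ⟨b.leadingCoeff, -a.leadingCoeff, fun h => lb h.1, ?_⟩
  by_contra hne
  set c := C b.leadingCoeff * a + C (-a.leadingCoeff) * b with hc
  have h2 : c * derivative b = derivative c * b := by
    rw [hc]
    simp only [derivative_add, derivative_C_mul]
    linear_combination (C b.leadingCoeff) * h
  have h3 := wr_degree hne hb h2
  have h4 : c.coeff b.natDegree = 0 := by
    rw [hc, coeff_add, coeff_C_mul, coeff_C_mul]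
    have e1 : a.coeff b.natDegree = a.leadingCoeff := by rw [← hd]; rfl
    have e2 : b.coeff b.natDegree = b.leadingCoeff := rfl
    rw [e1, e2]; ring
  rw [← h3] at h4
  exact hne (leadingCoeff_eq_zero.1 h4)

theorem wr3 (f1 f2 f3 : ℂ[X])
    (h : f1 * (derivative f2 * derivative (derivative f3) -
        derivative (derivative f2) * derivative f3) -
      f2 * (derivative f1 * derivative (derivative f3) -
        derivative (derivative f1) * derivative f3) +
      f3 * (derivative f1 * derivative (derivative f2) -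
        derivative (derivative f1) * derivative f2) = 0) :
    ∃ α β γ : ℂ, ¬ (α = 0 ∧ β = 0 ∧ γ = 0) ∧ C α * f1 + C β * f2 + C γ * f3 = 0 := by
  obtain ⟨α, β, hαβ, h1⟩ := wr2 (f1 * derivative f2 - derivative f1 * f2)
    (f1 * derivative f3 - derivative f1 * f3) (by
      simp only [derivative_sub, derivative_mul]
      linear_combination f1 * h)
  obtain ⟨γ, δ, hγδ, h2⟩ := wr2 f1 (C α * f2 + C β * f3) (by
    simp only [derivative_add, derivative_C_mul]
    linear_combination h1)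
  refine ⟨γ, δ * α, δ * β, ?_, ?_⟩
  · rintro ⟨h3, h4, h5⟩
    by_cases hδ : δ = 0
    · exact hγδ ⟨h3, hδ⟩
    · exact hαβ ⟨(mul_eq_zero.1 h4).resolve_left hδ, (mul_eq_zero.1 h5).resolve_left hδ⟩
  · rw [map_mul, map_mul]
    linear_combination h2

end wr

open MvPolynomial Pool.Agent.Lib_helper26.SOS Pool.Agent.Lib_helper26.Ebe

/-- the matrix with two columns -/
def gm2 (g1 g2 : Fin 3 → ℂ) : Fin 3 × Fin 2 → ℂ := fun x => ![g1 x.1, g2 x.1] x.2

theorem mv_gm2 (g1 g2 : Fin 3 → ℂ) (x : Fin 2 → ℂ) :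
    mv (gm2 g1 g2) x = x 0 • g1 + x 1 • g2 := by
  funext i
  simp [mv, gm2, Fin.sum_univ_two]
  ring

theorem eval_smul_hom {n D : ℕ} {f : MvPolynomial (Fin n) ℂ} (hf : f.IsHomogeneous D)
    (c : ℂ) (z : Fin n → ℂ) : eval (c • z) f = c ^ D * eval z f := by
  rw [eval_eq, eval_eq, Finset.mul_sum]
  refine Finset.sum_congr rfl fun m hm => ?_
  have hd := hf (mem_support_iff.1 hm)
  rw [Finsupp.weight_apply, Finsupp.sum] at hd
  simp only [Pi.one_apply, smul_eq_mul, mul_one] at hd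
  simp only [Pi.smul_apply, smul_eq_mul, mul_pow, Finset.prod_mul_distrib]
  rw [Finset.prod_pow_eq_pow_sum, hd]
  ring

/-- a form vanishing along an affine line vanishes on the plane spanned by it -/
theorem sub_eq_zero_of_line {D : ℕ} {f : MvPolynomial (Fin 3) ℂ} (hf : f.IsHomogeneous D)
    {g1 g2 : Fin 3 → ℂ} (h : crL g2 g1 f = 0) : sub (gm2 g1 g2) f = 0 := by
  rw [sub_eq_zero_iff]
  rintro z ⟨x, rfl⟩
  rw [mv_gm2]
  by_cases hx : x 0 = 0
  · have h2 := (crL_hom g2 g1 hf).2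
    rw [h, Polynomial.coeff_zero] at h2
    rw [hx, zero_smul, zero_add, eval_smul_hom hf, ← h2, mul_zero]
  · have h1 : x 0 • g1 + x 1 • g2 = x 0 • (g1 + (x 1 / x 0) • g2) := by
      rw [smul_add, smul_smul, mul_div_cancel₀ _ hx]
    rw [h1, eval_smul_hom hf, ← crL_eval, h, Polynomial.eval_zero, mul_zero]

theorem det3_of_dep {a b c : Fin 3 → ℂ} {x y z : ℂ} (h0 : ¬ (x = 0 ∧ y = 0 ∧ z = 0))
    (h : ∀ j, x * a j + y * b j + z * c j = 0) :
    a 0 * (b 1 * c 2 - c 1 * b 2) - a 1 * (b 0 * c 2 - c 0 * b 2) +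
      a 2 * (b 0 * c 1 - c 0 * b 1) = 0 := by
  set d := a 0 * (b 1 * c 2 - c 1 * b 2) - a 1 * (b 0 * c 2 - c 0 * b 2) +
      a 2 * (b 0 * c 1 - c 0 * b 1) with hd
  have hx : x * d = 0 := by
    rw [hd]
    linear_combination (b 1 * c 2 - c 1 * b 2) * h 0 - (b 0 * c 2 - c 0 * b 2) * h 1 +
      (b 0 * c 1 - c 0 * b 1) * h 2
  have hy : y * d = 0 := by
    rw [hd]
    linear_combination -((a 1 * c 2 - c 1 * a 2) * h 0 - (a 0 * c 2 - c 0 * a 2) * h 1 +
      (a 0 * c 1 - c 0 * a 1) * h 2)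
  have hz : z * d = 0 := by
    rw [hd]
    linear_combination (a 1 * b 2 - b 1 * a 2) * h 0 - (a 0 * b 2 - b 0 * a 2) * h 1 +
      (a 0 * b 1 - b 0 * a 1) * h 2
  by_contra hne
  exact h0 ⟨(mul_eq_zero.1 hx).resolve_right hne, (mul_eq_zero.1 hy).resolve_right hne,
    (mul_eq_zero.1 hz).resolve_right hne⟩

theorem triple_dep {p : Fin 4 → MvPolynomial (Fin 3) ℂ} {A : MvPolynomial (Fin 3 ⊕ Fin 3) ℂ}
    {D : ℕ} (hD : 4 ≤ D)
    (hR : ∑ j, rename Sum.inl (p j) * rename Sum.inr (cj (p j)) = q 3 * A)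
    (hp : ∀ i, (p i).IsHomogeneous D) (hc : ∀ h, (∀ i, h ∣ cj (p i)) → IsUnit h)
    {e g1 g2 r : Fin 3 → ℂ} {i0 : Fin 4} (he : eval e (cj (p i0)) ≠ 0)
    (her : ∑ k, e k * r k = 1) (h12 : cr g1 g2 = e) (k : Fin 3 → Fin 4) :
    ¬ LinearIndependent ℂ (fun i => sub (gm2 g1 g2) (p (k i))) := by
  have comm : ∀ a b : Fin 3 → ℂ, ∑ k, a k * b k = ∑ k, b k * a k :=
    fun a b => Finset.sum_congr rfl fun k _ => mul_comm _ _
  have hg1 : ∑ k, g1 k * e k = 0 := by
    rw [← h12, comm]; exact cr_dot_left g1 g2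
  have hg2 : ∑ k, g2 k * e k = 0 := by
    rw [← h12, comm]; exact cr_dot_right g1 g2
  have hW : ∀ s : ℂ, ∀ i, Wz p (g1 + s • g2) g2 i = 0 := by
    intro s i
    have hze : ∑ k, (g1 + s • g2) k * e k = 0 := by
      have : ∑ k, (g1 + s • g2) k * e k = ∑ k, g1 k * e k + s * ∑ k, g2 k * e k := by
        rw [Finset.mul_sum, ← Finset.sum_add_distrib]
        refine Finset.sum_congr rfl fun k _ => ?_
        simp only [Pi.add_apply, Pi.smul_apply, smul_eq_mul]
        ring
      rw [this, hg1, hg2]; ring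
    have e1 : cr e (cr (g1 + s • g2) r) = g1 + s • g2 := by
      rw [cr_cr', her, comm e, hze]; simp
    have e2 : cr e (cr g2 r) = g2 := by
      rw [cr_cr', her, comm e g2, hg2]; simp
    have h1 := (key hR hp hc he (cr (g1 + s • g2) r) (cr g2 r) (Or.inl hD) i).2
    rwa [e1, e2] at h1
  obtain ⟨α, β, γ, h0, hlin⟩ := wr3 (crL g2 g1 (p (k 0))) (crL g2 g1 (p (k 1)))
    (crL g2 g1 (p (k 2))) (by
      apply Polynomial.funext
      intro s
      obtain ⟨x, y, z, hxyz, hdep⟩ := dep_of_W4_zero (hW s)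
      have h2 := det3_of_dep (a := fun i => eval (g1 + s • g2) (p (k i)))
        (b := fun i => D1 (p (k i)) (g1 + s • g2) g2)
        (c := fun i => D2 (p (k i)) (g1 + s • g2) g2 g2) hxyz (fun i => hdep (k i))
      simp only [D2_eq, D1_eq, ← crL_eval] at h2
      simp only [Polynomial.eval_add, Polynomial.eval_sub, Polynomial.eval_mul,
        Polynomial.eval_zero]
      linear_combination h2)
  intro hli
  rw [Fintype.linearIndependent_iff] at hli
  have hform : (C α * p (k 0) + C β * p (k 1) + C γ * p (k 2)).IsHomogeneous D :=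
    (((hp _).C_mul _).add ((hp _).C_mul _)).add ((hp _).C_mul _)
  have hz := sub_eq_zero_of_line (g1 := g1) (g2 := g2) hform (by
    rw [map_add, map_add, map_mul, map_mul, map_mul, ← hlin]
    have : ∀ c : ℂ, crL g2 g1 (C c) = Polynomial.C c := fun c => by simp [crL]
    rw [this, this, this])
  have h5 := hli ![α, β, γ] (by
    rw [Fin.sum_univ_three]
    simp only [Matrix.cons_val]
    rw [← hz]
    simp only [map_add, map_mul, smul_eq_C_mul]
    have : ∀ c : ℂ, sub (gm2 g1 g2) (C c) = C c := fun c => by simp [sub]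
    rw [this, this, this])
  exact h0 ⟨h5 0, h5 1, h5 2⟩

theorem finrank_map_le_two {p : Fin 4 → MvPolynomial (Fin 3) ℂ}
    {A : MvPolynomial (Fin 3 ⊕ Fin 3) ℂ} {D : ℕ} (hD : 4 ≤ D)
    (hR : ∑ j, rename Sum.inl (p j) * rename Sum.inr (cj (p j)) = q 3 * A)
    (hp : ∀ i, (p i).IsHomogeneous D) (hc : ∀ h, (∀ i, h ∣ cj (p i)) → IsUnit h)
    {e g1 g2 r : Fin 3 → ℂ} {i0 : Fin 4} (he : eval e (cj (p i0)) ≠ 0)
    (her : ∑ k, e k * r k = 1) (h12 : cr g1 g2 = e) :
    Module.finrank ℂ ((Submodule.span ℂ (Set.range p)).map (sub (gm2 g1 g2)).toLinearMap) ≤ 2 := by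
  rw [Submodule.map_span, ← Set.range_comp]
  by_contra hne
  push Not at hne
  have : Module.Finite ℂ (Submodule.span ℂ (Set.range ((sub (gm2 g1 g2)).toLinearMap ∘ p))) :=
    Module.Finite.span_of_finite ℂ (Set.finite_range _)
  obtain ⟨f, hf, _, hli⟩ := Submodule.exists_fun_fin_finrank_span_eq ℂ
    (Set.range ((sub (gm2 g1 g2)).toLinearMap ∘ p))
  have hli3 := hli.comp (Fin.castLE (show 3 ≤ _ from hne)) (Fin.castLE_injective _)
  choose k hk using fun i => hf (Fin.castLE (show 3 ≤ _ from hne) i)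
  refine triple_dep hD hR hp hc he her h12 k ?_
  have h1 : (fun i => sub (gm2 g1 g2) (p (k i))) =
      f ∘ Fin.castLE (show 3 ≤ _ from hne) := funext hk
  rw [h1]
  exact hli3

end Pool.Agent.Lib_helper49.N3
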