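import Pool.Agent.Lib_helper49.N3.Final3
import Pool.Agent.Lib_helper49.N3.Wronsk

/-!
# `n = 3`, four components: only degree at most two or `rk V 2 ≤ 2`
-/

set_option autoImplicit false

namespace Pool.Agent.Lib_helper49.N3

open MvPolynomial Pool.Agent.Lib_helper26.SOS Pool.Agent.Lib_helper26.Ebe

theorem cop_cj {n : ℕ} {ι : Type*} {p : ι → MvPolynomial (Fin n) ℂ}
    (hc : ∀ h, (∀ i, h ∣ p i) → IsUnit h) : ∀ h, (∀ i, h ∣ cj (p i)) → IsUnit h := by
  intro h hd
  have h1 : IsUnit (cj h) := by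
    apply hc
    intro i
    have := map_dvd (MvPolynomial.map (starRingEnd ℂ)) (hd i)
    change cj h ∣ cj (cj (p i)) at this
    rwa [cj_cj] at this
  have h2 := h1.map (MvPolynomial.map (σ := Fin n) (starRingEnd ℂ))
  change IsUnit (cj (cj h)) at h2
  rwa [cj_cj] at h2

theorem cop_span {n : ℕ} {ι : Type*} {p : ι → MvPolynomial (Fin n) ℂ}
    (hc : ∀ h, (∀ i, h ∣ p i) → IsUnit h) : Cop (Submodule.span ℂ (Set.range p)) :=
  fun h hh => hc h fun i => hh _ (Submodule.subset_span ⟨i, rfl⟩)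

/-- A generic plane has all wanted properties. -/
theorem exists_plane {p : Fin 4 → MvPolynomial (Fin 3) ℂ} {D : ℕ} (hD : 1 ≤ D)
    (hp : ∀ i, (p i).IsHomogeneous D) (hli : LinearIndependent ℂ p)
    (hc : ∀ h, (∀ i, h ∣ p i) → IsUnit h) :
    ∃ g1 g2 r : Fin 3 → ℂ, eval (cr g1 g2) (cj (p 0)) ≠ 0 ∧ ∑ k, cr g1 g2 k * r k = 1 ∧
      Cop ((Submodule.span ℂ (Set.range p)).map (sub (gm2 g1 g2)).toLinearMap) ∧
      Module.finrank ℂ ((Submodule.span ℂ (Set.range p)).map (sub (gm2 g1 g2)).toLinearMap) =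
        rk (Submodule.span ℂ (Set.range p)) 2 := by
  have hV : Submodule.span ℂ (Set.range p) ≤ homogeneousSubmodule (Fin 3) ℂ D := by
    rw [Submodule.span_le]
    rintro _ ⟨i, rfl⟩
    exact hp i
  have hfd : FiniteDimensional ℂ (Submodule.span ℂ (Set.range p)) :=
    FiniteDimensional.span_of_finite ℂ (Set.finite_range _)
  have hG1 := cop_restrict (n := 2) le_rfl _ hV (cop_span hc)
  have hG2 := gen_rk (Submodule.span ℂ (Set.range p)) 2
  have hcj : cj (p 0) ≠ 0 := by
    intro h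
    apply hli.ne_zero 0
    rw [← cj_cj (p 0), h]
    simp [cj]
  -- the cross product condition
  let Ψ : MvPolynomial (Fin 3 × Fin 2) ℂ :=
    aeval (cr (fun i => X (i, 0)) (fun i => X (i, 1))) (cj (p 0))
  have hΨe : ∀ g : Fin 3 × Fin 2 → ℂ, eval g Ψ =
      eval (cr (fun i => g (i, 0)) (fun i => g (i, 1))) (cj (p 0)) := by
    intro g
    have : ((eval g).comp
        ((aeval (cr (fun i => X (i, 0)) (fun i => X (i, 1))) :
          MvPolynomial (Fin 3) ℂ →ₐ[ℂ] MvPolynomial (Fin 3 × Fin 2) ℂ) :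
          MvPolynomial (Fin 3) ℂ →+* MvPolynomial (Fin 3 × Fin 2) ℂ)) =
        eval (cr (fun i => g (i, 0)) (fun i => g (i, 1))) := by
      apply MvPolynomial.ringHom_ext
      · intro c
        simp
      · intro i
        fin_cases i <;> simp [cr]
    exact RingHom.congr_fun this _
  have hΨ : Ψ ≠ 0 := by
    intro h0
    have h1 : cj (p 0) * X 2 = 0 := by
      apply MvPolynomial.funext
      intro z
      rw [map_mul, map_zero, eval_X]
      by_cases hz : z 2 = 0
      · rw [hz, mul_zero]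
      · have h2 := hΨe (fun x => ![![1, 0, -(z 0 / z 2)], ![0, z 2, -(z 1)]] x.2 x.1)
        rw [h0, map_zero] at h2
        have h3 : cr (fun i => ![![1, 0, -(z 0 / z 2)], ![0, z 2, -(z 1)]] (0 : Fin 2) i)
            (fun i => ![![1, 0, -(z 0 / z 2)], ![0, z 2, -(z 1)]] (1 : Fin 2) i) = z := by
          funext k
          fin_cases k <;> simp [cr] <;> field_simp
        change 0 = eval (cr (fun i => ![![1, 0, -(z 0 / z 2)], ![0, z 2, -(z 1)]] (0 : Fin 2) i)
            (fun i => ![![1, 0, -(z 0 / z 2)], ![0, z 2, -(z 1)]] (1 : Fin 2) i)) (cj (p 0)) at h2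
        rw [h3] at h2
        rw [← h2, zero_mul]
    rcases mul_eq_zero.1 h1 with h | h
    · exact hcj h
    · exact X_ne_zero _ h
  have hG3 : Gen (fun g : Fin 3 × Fin 2 → ℂ =>
      eval (cr (fun i => g (i, 0)) (fun i => g (i, 1))) (cj (p 0)) ≠ 0) :=
    ⟨Ψ, hΨ, fun g hg => by rwa [hΨe] at hg⟩
  obtain ⟨g, ⟨h1, h2⟩, h3⟩ := ((hG1.and hG2).and hG3).exists
  have hg : gm2 (fun i => g (i, 0)) (fun i => g (i, 1)) = g := by
    funext x
    obtain ⟨i, j⟩ := x
    fin_cases j <;> rfl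
  have he0 : cr (fun i => g (i, 0)) (fun i => g (i, 1)) ≠ 0 := by
    intro h0
    rw [h0] at h3
    apply h3
    have hh : (cj (p 0)).IsHomogeneous D := by unfold cj; exact (hp 0).map _
    have := eval_smul_hom hh 0 (0 : Fin 3 → ℂ)
    rw [smul_zero] at this
    rw [this, zero_pow (by omega), zero_mul]
  obtain ⟨i, hi⟩ := Function.ne_iff.1 he0
  refine ⟨fun i => g (i, 0), fun i => g (i, 1),
    Pi.single i (cr (fun i => g (i, 0)) (fun i => g (i, 1)) i)⁻¹, h3, ?_, ?_, ?_⟩
  · rw [Finset.sum_eq_single i]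
    · rw [Pi.single_eq_same, mul_inv_cancel₀ hi]
    · intro j _ hj
      rw [Pi.single_eq_of_ne hj, mul_zero]
    · intro h; exact absurd (Finset.mem_univ _) h
  · rw [hg]; exact h1
  · rw [hg]; exact h2

/-- no common zero on a plane on which the family is coprime -/
theorem no_zero {p : Fin 4 → MvPolynomial (Fin 3) ℂ} {D : ℕ}
    (hp : ∀ i, (p i).IsHomogeneous D) {g1 g2 : Fin 3 → ℂ}
    (hc : Cop ((Submodule.span ℂ (Set.range p)).map (sub (gm2 g1 g2)).toLinearMap))
    (x y : ℂ) (hxy : ¬ (x = 0 ∧ y = 0)) : ∃ j, eval (x • g1 + y • g2) (p j) ≠ 0 := by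
  by_contra hne
  push Not at hne
  have ha : (![y, -x] : Fin 2 → ℂ) ≠ 0 := by
    intro h
    have h0 := congrFun h 0
    have h1 := congrFun h 1
    simp at h0 h1
    exact hxy ⟨h1, h0⟩
  refine (lf_prime ha).not_unit (hc _ ?_)
  rintro _ ⟨f, hf, rfl⟩
  rw [lf_dvd_iff ha]
  intro w hw
  rw [mem_kr, Fin.sum_univ_two] at hw
  simp only [Matrix.cons_val_zero, Matrix.cons_val_one] at hw
  -- `w` is a multiple of `(x, y)`
  obtain ⟨c, hcx, hcy⟩ : ∃ c, w 0 = c * x ∧ w 1 = c * y := by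
    by_cases hx : x = 0
    · have hy : y ≠ 0 := fun hy => hxy ⟨hx, hy⟩
      refine ⟨w 1 / y, ?_, ?_⟩
      · rw [hx, mul_zero]
        rw [hx, neg_zero, zero_mul, add_zero] at hw
        exact (mul_eq_zero.1 hw).resolve_left hy
      · field_simp
    · refine ⟨w 0 / x, by field_simp, ?_⟩
      field_simp
      linear_combination -hw
  have hfz : ∀ f ∈ Submodule.span ℂ (Set.range p), eval (x • g1 + y • g2) f = 0 := by
    intro f hf
    induction hf using Submodule.span_induction with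
    | mem f hf => obtain ⟨i, rfl⟩ := hf; exact hne i
    | zero => exact map_zero _
    | add f g _ _ h1 h2 => rw [map_add, h1, h2, add_zero]
    | smul c f _ h => rw [smul_eval, h, mul_zero]
  have hhom : f.IsHomogeneous D := by
    have : Submodule.span ℂ (Set.range p) ≤ homogeneousSubmodule (Fin 3) ℂ D := by
      rw [Submodule.span_le]
      rintro _ ⟨i, rfl⟩
      exact hp i
    exact this hf
  change eval w (sub (gm2 g1 g2) f) = 0
  rw [Pool.Agent.Lib_helper26.Ebe.eval_sub, mv_gm2, hcx, hcy, mul_smul, mul_smul, ← smul_add,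
    eval_smul_hom hhom, hfz f hf, mul_zero]

/-- Four linearly independent coprime ternary forms of degree at least three satisfying the
orthogonality relation have rank at most two on a generic plane. -/
theorem rk_two {p : Fin 4 → MvPolynomial (Fin 3) ℂ} {A : MvPolynomial (Fin 3 ⊕ Fin 3) ℂ} {D : ℕ}
    (hD : 3 ≤ D) (hR : ∑ j, rename Sum.inl (p j) * rename Sum.inr (cj (p j)) = q 3 * A)
    (hp : ∀ i, (p i).IsHomogeneous D) (hli : LinearIndependent ℂ p)
    (hc : ∀ h, (∀ i, h ∣ p i) → IsUnit h) : rk (Submodule.span ℂ (Set.range p)) 2 ≤ 2 := by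
  obtain ⟨g1, g2, r, h1, h2, h3, h4⟩ := exists_plane (by omega) hp hli hc
  rcases Nat.lt_or_ge 3 D with hD4 | hD4
  · rw [← h4]
    exact finrank_map_le_two hD4 hR hp (cop_cj hc) h1 h2 rfl
  · obtain rfl : D = 3 := by omega
    exfalso
    obtain ⟨z, hz, hf⟩ := exists_flex hR hp (cop_cj hc) h1 h2 rfl (no_zero hp h3)
    exact no_flex hR hp hli hz hf

end Pool.Agent.Lib_helper49.N3
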