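import Pool.Agent.Lib_helper49.N3.N3
import Pool.Agent.Lib_helper26.Ebe.Main

/-!
# `4 ∉ S 1 3` and the gap theorem without exception
-/

set_option autoImplicit false

namespace Pool.Agent.Lib_helper49.N3

open MvPolynomial Pool.Agent.Lib_helper26.SOS Pool.Agent.Lib_helper26.Ebe Module
open Pool.Agent.Lib_helper97.Ebe (homogeneous_coprime finrank_U_le_one)

theorem four_not_mem : 4 ∉ S 1 3 := by
  intro hm
  obtain ⟨D, p, hp, hhom, hcop, A, hA⟩ := homogeneous_coprime (by omega) hm (by omega)
  obtain ⟨ρ, f, ε, hf, hε, hAe⟩ := hermitian_diag (by omega) p A hA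
  have hAe' : A = dg f ε := hAe
  by_cases hpsd : ∀ k, ε k = 1
  · have h1 := gapless_of_psd hp hpsd (by rw [← hAe']; exact hA) 1 (by omega)
    omega
  · have hD : 3 ≤ D := by
      by_contra hlt
      exact hpsd (psd_of_degree_le_two (by omega) hhom (by omega) hf hε
        (by rw [← hAe']; exact hA))
    have h2 := rk_two hD hA hhom hp hcop
    set V := Submodule.span ℂ (Set.range p) with hVdef
    have hfd : FiniteDimensional ℂ V :=
      FiniteDimensional.span_of_finite ℂ (Set.finite_range _)
    have hV : V ≤ homogeneousSubmodule (Fin 3) ℂ D := by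
      rw [hVdef, Submodule.span_le]
      rintro _ ⟨i, rfl⟩
      exact hhom i
    have h3 := finrank_U_le_one V hD hV (cop_restrict le_rfl _ hV (cop_span hcop)) (by omega)
    obtain ⟨a, ha, ha0⟩ := (h3.and (gen_ne_zero (by omega))).exists
    rw [finrank_U _ ha0] at ha
    have h4 := mvan_le V (kerF 3) a
    rw [Zs_kerF ha0] at h4
    have h5 : rk V 2 + mvan V (kerF 3) = finrank ℂ V := rk_kerF _
    have h6 : finrank ℂ V = 4 := by
      rw [hVdef, finrank_span_eq_card hp, Fintype.card_fin]
    omega

/-- Ebenfelt's SOS conjecture: all gaps, all dimensions. -/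
theorem gapless {n m : ℕ} (hm : m ∈ S 1 n) : Gapless n m :=
  gapless_of_mem (fun h3 h4 => by subst h3 h4; exact four_not_mem hm) hm

end Pool.Agent.Lib_helper49.N3
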